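import Pool.Agent.P.MP_62e163_co.Trig

namespace Pool.Agent.P.MP_62e163_co

open Finset Real

/-- evaluate a number before passing it on -/
noncomputable def fc {α : Type} (x : ℕ) (k : ℕ → α) : α :=
  Nat.rec (k 0) (fun n _ => k n) (Nat.succ x)

lemma fc_eq {α : Type} (x : ℕ) (k : ℕ → α) : fc x k = k x := rfl

/-- sign, coefficient, root -/
abbrev Dat := List (Bool × ℕ × ℕ)

/-- signed coefficient -/
def sg (x : Bool × ℕ × ℕ) : ℝ := if x.1 then -(x.2.1 : ℝ) else x.2.1

/-- the cosine polynomial -/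
noncomputable def Sv (θ : ℝ) : Dat → ℕ → ℝ
  | [], _ => 0
  | x :: l, j => sg x * cos (j * θ) + Sv θ l (j + 1)

noncomputable def sumP (l : Dat) : ℕ := List.rec 0 (fun x _ ih => Nat.add x.2.1 ih) l

noncomputable def sumB (l : Dat) : ℕ → ℕ :=
  List.rec (fun _ => 0)
    (fun x _ ih j => fc (Nat.succ j) fun j' => Nat.add (Nat.mul (Nat.mul j j) x.2.1) (ih j')) l

noncomputable def sumY (e : ℕ) (l : Dat) : ℕ :=
  List.rec 0 (fun x _ ih => Nat.add (Nat.pow x.2.2 e) ih) l

noncomputable def okY (e De E : ℕ) (l : Dat) : Bool :=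
  List.rec true (fun x _ ih =>
    Bool.rec false ih (Nat.ble (Nat.mul x.2.1 De) (Nat.mul (Nat.pow x.2.2 e) E))) l

noncomputable def ev (a2 d c c2 thr : ℕ) (l : Dat) : ℕ → ℕ → ℕ → ℕ → Bool :=
  List.rec (fun _ _ pw acc => Nat.ble (Nat.mul thr pw) acc)
    (fun x _ ih v0 v1 pw acc =>
      fc (Nat.mul (Nat.add acc (Nat.mul x.2.1 (Bool.rec v1 (Nat.sub (Nat.mul 2 pw) v1) x.1))) c)
        fun acc' =>
      fc (Nat.sub (Nat.add (Nat.mul a2 v1) (Nat.mul d pw)) (Nat.mul c2 v0)) fun v2 =>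
      fc (Nat.mul pw c) fun pw' => ih v1 v2 pw' acc') l

lemma ev_sound {a c thr : ℕ} {θ : ℝ} (hac : a ≤ c) (hc : 0 < c) (hθ : c * cos θ = a) (l : Dat) :
    ∀ (j v0 v1 pw acc : ℕ), (v0 : ℝ) = c ^ j * (1 + cos (j * θ)) →
      (v1 : ℝ) = c ^ (j + 1) * (1 + cos ((j + 1 : ℕ) * θ)) → pw = c ^ (j + 1) →
      ev (2 * a) (2 * (c - a)) c (c * c) thr l v0 v1 pw acc = true →
      (thr : ℝ) ≤ acc / c ^ (j + 1) + Sv θ l (j + 1) + sumP l := by
  have hc' : (0 : ℝ) < c := by exact_mod_cast hc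
  induction l with
  | nil =>
    intro j v0 v1 pw acc _ _ h3 h
    have h' : thr * pw ≤ acc := Nat.le_of_ble_eq_true h
    have : (thr : ℝ) * c ^ (j + 1) ≤ acc := by rw [h3] at h'; exact_mod_cast h'
    simp only [Sv, sumP, Nat.cast_zero, add_zero]
    rwa [le_div_iff₀ (by positivity)]
  | cons x l ih =>
    intro j v0 v1 pw acc h1 h2 h3 h
    have hpw : (pw : ℝ) = c ^ (j + 1) := by rw [h3]; push_cast; rfl
    have hp0 : (0 : ℝ) < c ^ (j + 1) := by positivity
    have hrec : cos ((j + 1 + 1 : ℕ) * θ) = 2 * cos θ * cos ((j + 1 : ℕ) * θ) - cos (j * θ) := by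
      rw [show ((j + 1 + 1 : ℕ) : ℝ) * θ = (j + 1 : ℕ) * θ + θ by push_cast; ring,
        show (j : ℝ) * θ = (j + 1 : ℕ) * θ - θ by push_cast; ring, cos_add, cos_sub]
      ring
    have hv2 : ((2 * a * v1 + 2 * (c - a) * pw : ℕ) : ℝ) - (c * c * v0 : ℕ) =
        c ^ (j + 1 + 1) * (1 + cos ((j + 1 + 1 : ℕ) * θ)) := by
      rw [hrec]
      push_cast [Nat.cast_sub hac] at h2 ⊢
      rw [h1, h2, hpw, ← hθ]; ring
    have hle : c * c * v0 ≤ 2 * a * v1 + 2 * (c - a) * pw := by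
      have : 0 ≤ (c : ℝ) ^ (j + 1 + 1) * (1 + cos ((j + 1 + 1 : ℕ) * θ)) :=
        mul_nonneg (by positivity) (by linarith [neg_one_le_cos ((j + 1 + 1 : ℕ) * θ)])
      rw [← hv2, sub_nonneg] at this
      exact_mod_cast this
    have hle2 : v1 ≤ 2 * pw := by
      have : (v1 : ℝ) ≤ 2 * pw := by
        rw [h2, hpw]; nlinarith [cos_le_one ((j + 1 : ℕ) * θ)]
      exact_mod_cast this
    have h5 := ih (j + 1) v1 (2 * a * v1 + 2 * (c - a) * pw - c * c * v0) (pw * c)
      ((acc + x.2.1 * (Bool.rec v1 (2 * pw - v1) x.1 : ℕ)) * c) h2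
      (by rw [Nat.cast_sub hle, hv2]) (by rw [h3]; ring) h
    refine h5.trans (le_of_eq ?_)
    have e1 : (sumP (x :: l) : ℝ) = x.2.1 + sumP l := by
      have : sumP (x :: l) = x.2.1 + sumP l := rfl
      rw [this]; push_cast; rfl
    rw [e1, Sv]
    obtain ⟨s, p, y⟩ := x
    cases s
    · simp only [sg, Bool.false_eq_true, if_false]
      push_cast at h2 ⊢
      rw [h2]; field_simp; ring
    · simp only [sg, if_true]
      push_cast [Nat.cast_sub hle2] at h2 ⊢
      rw [h2, hpw]; field_simp; ring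

/-- grid angle -/
noncomputable def ang (K n : ℕ) : ℝ := 2 * arctan ((n : ℝ) / K)

noncomputable def pt (K n thr : ℕ) (l : Dat) : Bool :=
  Bool.rec false
    (fc (Nat.add (Nat.mul K K) (Nat.mul n n)) fun c => fc (Nat.sub (Nat.mul K K) (Nat.mul n n)) fun a =>
      fc (Nat.mul 2 a) fun a2 => fc (Nat.mul 2 (Nat.sub c a)) fun d => fc (Nat.mul c c) fun c2 =>
      fc thr fun thr => ev a2 d c c2 thr l 2 (Nat.add c a) c 0)
    (Nat.ble n K)

lemma pt_sound {K n thr : ℕ} {l : Dat} (hK : 0 < K) (h : pt K n thr l = true) :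
    (thr : ℝ) ≤ Sv (ang K n) l 1 + sumP l := by
  have hK' : (0 : ℝ) < K := by exact_mod_cast hK
  unfold pt at h
  cases hb : Nat.ble n K
  · rw [hb] at h; exact absurd h (by simp)
  rw [hb] at h
  have hn : n * n ≤ K * K := Nat.mul_le_mul (Nat.le_of_ble_eq_true hb) (Nat.le_of_ble_eq_true hb)
  have hθ : ((K * K + n * n : ℕ) : ℝ) * cos (ang K n) = (K * K - n * n : ℕ) := by
    rw [ang, cos_two_mul, cos_sq_arctan, Nat.cast_sub hn]
    push_cast; field_simp; ring
  have := ev_sound (thr := thr) (a := K * K - n * n) (c := K * K + n * n) (by omega)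
    (by positivity) hθ l 0 2 (K * K + n * n + (K * K - n * n)) (K * K + n * n) 0
    (by norm_num) (by rw [Nat.cast_add, ← hθ]; push_cast; ring_nf) (by simp) h
  simpa using this

lemma cos_interp (e : ℝ) (he : |e| ≤ 1) (x y s : ℝ) (hs0 : 0 ≤ s) (hs1 : s ≤ 1) :
    (1 - s) * (e * cos x) + s * (e * cos y) - s * (1 - s) * (y - x) ^ 2 / 2 ≤
      e * cos ((1 - s) * x + s * y) := by
  have d1 : ∀ u : ℝ, HasDerivAt (fun u => e * cos u - u ^ 2 / 2) (-(e * sin u) - u) u := by
    intro u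
    have := ((hasDerivAt_cos u).const_mul e).sub ((hasDerivAt_pow 2 u).div_const 2)
    convert this using 1
    all_goals first | rfl | (push_cast; ring)
  have d1' : deriv (fun u => e * cos u - u ^ 2 / 2) = fun u => -(e * sin u) - u :=
    funext fun u => (d1 u).deriv
  have d2 : ∀ u : ℝ, HasDerivAt (fun u => -(e * sin u) - u) (-(e * cos u) - 1) u := fun u =>
    ((hasDerivAt_sin u).const_mul e).neg.sub (hasDerivAt_id u)
  have hconc : ConcaveOn ℝ Set.univ fun u => e * cos u - u ^ 2 / 2 := by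
    refine concaveOn_univ_of_deriv2_nonpos (fun u => (d1 u).differentiableAt) ?_ ?_
    · rw [d1']; exact fun u => (d2 u).differentiableAt
    · intro u
      simp only [Function.iterate_succ, Function.iterate_zero, Function.comp, id]
      rw [d1', (d2 u).deriv]
      have : |e * cos u| ≤ 1 := by
        rw [abs_mul]; exact mul_le_one₀ he (abs_nonneg _) (abs_cos_le_one u)
      linarith [(abs_le.1 this).1]
  have := hconc.2 (Set.mem_univ x) (Set.mem_univ y) (show 0 ≤ 1 - s by linarith) hs0 (by ring)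
  simp only [smul_eq_mul] at this
  nlinarith

lemma Sv_interp (x y s : ℝ) (hs0 : 0 ≤ s) (hs1 : s ≤ 1) (l : Dat) : ∀ j : ℕ,
    (1 - s) * Sv x l j + s * Sv y l j - sumB l j * (s * (1 - s) * (y - x) ^ 2 / 2) ≤
      Sv ((1 - s) * x + s * y) l j := by
  induction l with
  | nil => intro j; simp [Sv, sumB]
  | cons z l ih =>
    intro j
    have e1 : (sumB (z :: l) j : ℝ) = j * j * z.2.1 + sumB l (j + 1) := by
      have : sumB (z :: l) j = j * j * z.2.1 + sumB l (j + 1) := rfl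
      rw [this]; push_cast; rfl
    have h1 := ih (j + 1)
    obtain ⟨e, he, hz⟩ : ∃ e : ℝ, |e| ≤ 1 ∧ sg z = z.2.1 * e := by
      unfold sg; split_ifs
      · exact ⟨-1, by simp, by ring⟩
      · exact ⟨1, by simp, by ring⟩
    have h2 := mul_le_mul_of_nonneg_left (cos_interp e he (j * x) (j * y) s hs0 hs1)
      (Nat.cast_nonneg (α := ℝ) z.2.1)
    rw [show (1 - s) * (j * x) + s * (j * y) = j * ((1 - s) * x + s * y) by ring] at h2
    simp only [Sv]
    rw [e1, hz]
    nlinarith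

lemma arctan_sub_le {x y : ℝ} (h : x ≤ y) : arctan y - arctan x ≤ y - x := by
  have : Monotone fun u : ℝ => u - arctan u := by
    have d : ∀ u : ℝ, HasDerivAt (fun u : ℝ => u - arctan u) (1 - 1 / (1 + u ^ 2)) u := fun u =>
      (hasDerivAt_id u).sub (hasDerivAt_arctan u)
    refine monotone_of_deriv_nonneg (fun u => (d u).differentiableAt) fun u => ?_
    rw [(d u).deriv, sub_nonneg, div_le_one (by positivity)]
    nlinarith [sq_nonneg u]
  have := this h
  simp only at this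
  linarith

lemma between {K n n' w w' : ℕ} (hK : 0 < K) {l : Dat} {κ θ : ℝ} (h1 : n ≤ n') (h2 : n' ≤ n + w)
    (h3 : n' ≤ n + w') (a1 : κ + sumB l 1 * (w : ℝ) ^ 2 / (2 * K ^ 2) ≤ Sv (ang K n) l 1)
    (a2 : κ + sumB l 1 * (w' : ℝ) ^ 2 / (2 * K ^ 2) ≤ Sv (ang K n') l 1)
    (b1 : ang K n ≤ θ) (b2 : θ ≤ ang K n') : κ ≤ Sv θ l 1 := by
  have hK' : (0 : ℝ) < K := by exact_mod_cast hK
  have hB : (0 : ℝ) ≤ sumB l 1 := Nat.cast_nonneg _
  have c1 : (n : ℝ) ≤ n' := by exact_mod_cast h1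
  have c2 : (n' : ℝ) - n ≤ w := by
    have : (n' : ℝ) ≤ n + w := by exact_mod_cast h2
    linarith
  have c3 : (n' : ℝ) - n ≤ w' := by
    have : (n' : ℝ) ≤ n + w' := by exact_mod_cast h3
    linarith
  have hd : ang K n' - ang K n ≤ 2 * (((n' : ℝ) - n) / K) := by
    have := arctan_sub_le (div_le_div_of_nonneg_right c1 hK'.le)
    unfold ang
    rw [sub_div]; linarith
  set g := sumB l 1 * ((n' : ℝ) - n) ^ 2 / (2 * K ^ 2) with hg
  have g1 : κ + g ≤ Sv (ang K n) l 1 := by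
    refine le_trans (add_le_add le_rfl ?_) a1
    rw [hg]; gcongr
  have g2 : κ + g ≤ Sv (ang K n') l 1 := by
    refine le_trans (add_le_add le_rfl ?_) a2
    rw [hg]; gcongr
  have hg0 : 0 ≤ g := by positivity
  rcases (b1.trans b2).eq_or_lt with h | h
  · have : θ = ang K n := le_antisymm (h ▸ b2) b1
    rw [this]; linarith
  have hp : 0 < ang K n' - ang K n := sub_pos.2 h
  set s := (θ - ang K n) / (ang K n' - ang K n) with hs
  have s0 : 0 ≤ s := div_nonneg (sub_nonneg.2 b1) hp.le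
  have s1 : s ≤ 1 := by rw [hs, div_le_one hp]; linarith
  have hi := Sv_interp (ang K n) (ang K n') s s0 s1 l 1
  rw [show (1 - s) * ang K n + s * ang K n' = θ by rw [hs]; field_simp; ring] at hi
  refine le_trans ?_ hi
  have t1 : s * (1 - s) * (ang K n' - ang K n) ^ 2 / 2 ≤ ((n' : ℝ) - n) ^ 2 / (2 * K ^ 2) := by
    have u1 : (ang K n' - ang K n) ^ 2 ≤ (2 * (((n' : ℝ) - n) / K)) ^ 2 :=
      pow_le_pow_left₀ hp.le hd 2
    have u2 : s * (1 - s) ≤ 1 / 4 := by nlinarith [sq_nonneg (s - 1 / 2)]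
    have u3 := mul_le_mul u2 u1 (sq_nonneg _) (by norm_num)
    have u4 : ((n' : ℝ) - n) ^ 2 / (2 * K ^ 2) = 1 / 4 * (2 * (((n' : ℝ) - n) / K)) ^ 2 / 2 := by
      field_simp; ring
    rw [u4]; linarith
  have t2 := mul_le_mul_of_nonneg_left t1 hB
  rw [← mul_div_assoc (sumB l 1 : ℝ) (((n' : ℝ) - n) ^ 2), ← hg] at t2
  nlinarith

lemma Sv_rep (θ : ℝ) (r : ℕ) : ∀ j : ℕ,
    Sv θ (List.replicate r (false, 0, 0) ++ [(true, 1, 0)]) j = -cos ((j + r : ℕ) * θ) ∧
      sumP (List.replicate r (false, 0, 0) ++ [(true, 1, 0)]) = 1 := by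
  induction r with
  | zero => intro j; exact ⟨by simp [Sv, sg], rfl⟩
  | succ r ih =>
    intro j
    refine ⟨?_, ?_⟩
    · rw [List.replicate_succ, List.cons_append, Sv, (ih (j + 1)).1,
        show j + 1 + r = j + (r + 1) by ring]
      simp [sg]
    · have : sumP (List.replicate (r + 1) (false, 0, 0) ++ [(true, 1, 0)]) =
        0 + sumP (List.replicate r (false, 0, 0) ++ [(true, 1, 0)]) := rfl
      rw [this, (ih 0).2]

noncomputable def go (K base B e : ℕ) (l : Dat) (g : List (ℕ × ℕ)) : ℕ → ℕ → Bool :=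
  List.rec
    (fun n w => Bool.rec false (Nat.ble e n)
      (pt K n (Nat.add base (Nat.succ (Nat.div (Nat.mul B (Nat.mul w w)) (Nat.mul 2 (Nat.mul K K))))) l))
    (fun x _ ih n w => Bool.rec false (Bool.rec false (Bool.rec false (Bool.rec false (ih x.1 x.2)
      (Nat.ble x.1 (Nat.add n x.2))) (Nat.ble x.1 (Nat.add n w))) (Nat.ble n x.1))
      (pt K n (Nat.add base (Nat.succ (Nat.div (Nat.mul B (Nat.mul w w)) (Nat.mul 2 (Nat.mul K K))))) l))
    g

lemma brec_true {a b : Bool} (h : (Bool.rec false a b : Bool) = true) : a = true ∧ b = true := by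
  cases b
  · exact absurd h (by simp)
  · exact ⟨h, rfl⟩

lemma good_sound {K n w κ : ℕ} {l : Dat} (hK : 0 < K)
    (h : pt K n (Nat.add (κ + sumP l) (Nat.succ (Nat.div (Nat.mul (sumB l 1) (Nat.mul w w))
      (Nat.mul 2 (Nat.mul K K))))) l = true) :
    κ + sumB l 1 * (w : ℝ) ^ 2 / (2 * K ^ 2) ≤ Sv (ang K n) l 1 := by
  have h1 := pt_sound hK h
  have h2 : sumB l 1 * (w * w) < (2 * (K * K)) * (sumB l 1 * (w * w) / (2 * (K * K)) + 1) :=
    Nat.lt_mul_div_succ _ (by positivity)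
  have h3 : (sumB l 1 : ℝ) * (w : ℝ) ^ 2 / (2 * K ^ 2) ≤
      ((sumB l 1 * (w * w) / (2 * (K * K)) + 1 : ℕ) : ℝ) := by
    rw [div_le_iff₀ (by positivity)]
    have : ((sumB l 1 * (w * w) : ℕ) : ℝ) ≤
      ((2 * (K * K) * (sumB l 1 * (w * w) / (2 * (K * K)) + 1) : ℕ) : ℝ) := by exact_mod_cast h2.le
    rw [Nat.cast_mul (2 * (K * K))] at this
    generalize ((sumB l 1 * (w * w) / (2 * (K * K)) + 1 : ℕ) : ℝ) = z at *
    push_cast at this
    nlinarith
  have h4 : ((Nat.add (κ + sumP l) (Nat.succ (Nat.div (Nat.mul (sumB l 1) (Nat.mul w w))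
      (Nat.mul 2 (Nat.mul K K)))) : ℕ) : ℝ) =
      κ + sumP l + ((sumB l 1 * (w * w) / (2 * (K * K)) + 1 : ℕ) : ℝ) := by
    rw [← Nat.cast_add, ← Nat.cast_add]; rfl
  rw [h4] at h1
  linarith

/-- lower bound on a segment -/
def Seg (K κ : ℕ) (l : Dat) (n e : ℕ) : Prop :=
  ∀ θ, ang K n ≤ θ → θ ≤ ang K e → (κ : ℝ) ≤ Sv θ l 1

lemma Seg.trans {K κ : ℕ} {l : Dat} {a b c : ℕ} (h1 : Seg K κ l a b) (h2 : Seg K κ l b c) :
    Seg K κ l a c := fun θ x y => (le_total θ (ang K b)).elim (h1 θ x) fun z => h2 θ z y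

lemma end_sound {q K n : ℕ} (hK : 0 < K)
    (h1 : pt K n 1 (List.replicate q (false, 0, 0) ++ [(true, 1, 0)]) = true) :
    π / (2 * (q + 1)) ≤ ang K n := by
  have h4 := pt_sound hK h1
  rw [(Sv_rep _ q 1).1, (Sv_rep 0 q 1).2] at h4
  by_contra hlt
  rw [not_le, lt_div_iff₀ (by positivity)] at hlt
  have h0 : 0 ≤ ang K n := mul_nonneg (by norm_num) (arctan_nonneg.2 (by positivity))
  have : 0 < cos ((1 + q : ℕ) * ang K n) := by
    refine cos_pos_of_mem_Ioo ⟨?_, ?_⟩
    · have : 0 ≤ ((1 + q : ℕ) : ℝ) * ang K n := by positivity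
      linarith [pi_pos]
    · push_cast; linarith
  push_cast at h4 this
  linarith

lemma go_sound {K κ e : ℕ} {l : Dat} (hK : 0 < K) (g : List (ℕ × ℕ)) : ∀ n w : ℕ,
    go K (κ + sumP l) (sumB l 1) e l g n w = true →
      κ + sumB l 1 * (w : ℝ) ^ 2 / (2 * K ^ 2) ≤ Sv (ang K n) l 1 ∧ Seg K κ l n e := by
  induction g with
  | nil =>
    intro n w h
    obtain ⟨h1, h2⟩ := brec_true h
    have h3 := good_sound hK h2
    refine ⟨h3, fun θ a b => ?_⟩
    have h5 : ang K e ≤ ang K n := by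
      have : (e : ℝ) ≤ n := by exact_mod_cast Nat.le_of_ble_eq_true h1
      exact mul_le_mul_of_nonneg_left
        (arctan_mono (div_le_div_of_nonneg_right this (Nat.cast_nonneg K))) (by norm_num)
    have : θ = ang K n := le_antisymm (b.trans h5) a
    rw [this]
    have : 0 ≤ sumB l 1 * (w : ℝ) ^ 2 / (2 * K ^ 2) := by positivity
    linarith
  | cons x g ih =>
    intro n w h
    obtain ⟨h, h1⟩ := brec_true h
    obtain ⟨h, h2⟩ := brec_true h
    obtain ⟨h, h3⟩ := brec_true h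
    obtain ⟨h, h4⟩ := brec_true h
    obtain ⟨i1, i2⟩ := ih x.1 x.2 h
    have h5 := good_sound hK h1
    refine ⟨h5, fun θ a b => ?_⟩
    rcases le_total θ (ang K x.1) with c | c
    · exact between hK (Nat.le_of_ble_eq_true h2) (Nat.le_of_ble_eq_true h3)
        (Nat.le_of_ble_eq_true h4) h5 i1 a c
    · exact i2 θ c b

lemma Sv_eq (θ : ℝ) (l : Dat) : ∀ j : ℕ, Sv θ l j =
    ∑ i ∈ range l.length, sg (l.getD i (false, 0, 0)) * cos ((j + i : ℕ) * θ) := by
  induction l with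
  | nil => intro j; simp [Sv]
  | cons x l ih =>
    intro j
    rw [Sv, ih, List.length_cons, Finset.sum_range_succ', add_comm]
    simp only [List.getD_cons_succ, List.getD_cons_zero, add_zero, add_left_inj]
    refine Finset.sum_congr rfl fun i _ => ?_
    rw [show j + 1 + i = j + (i + 1) by ring]

lemma sumY_eq (e : ℕ) (l : Dat) :
    sumY e l = ∑ i ∈ range l.length, (l.getD i (false, 0, 0)).2.2 ^ e := by
  induction l with
  | nil => rfl
  | cons x l ih =>
    have : sumY e (x :: l) = x.2.2 ^ e + sumY e l := rfl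
    rw [this, ih, List.length_cons, Finset.sum_range_succ', add_comm]
    simp only [List.getD_cons_succ, List.getD_cons_zero]

lemma okY_sound {e De E : ℕ} (l : Dat) (h : okY e De E l = true) : ∀ i : ℕ,
    (l.getD i (false, 0, 0)).2.1 * De ≤ (l.getD i (false, 0, 0)).2.2 ^ e * E := by
  induction l with
  | nil => intro i; simp
  | cons x l ih =>
    obtain ⟨h1, h2⟩ := brec_true h
    intro i
    cases i with
    | zero => exact Nat.le_of_ble_eq_true h2
    | succ i => exact ih h1 i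

/-- one segment -/
noncomputable def sgc (K κ : ℕ) (l : Dat) (n w e : ℕ) (g : List (ℕ × ℕ)) : Bool :=
  Bool.rec false (fc (κ + sumP l) fun base => fc (sumB l 1) fun B => go K base B e l g n w)
    (Nat.ble 1 K)

lemma sgc_sound {K κ : ℕ} {l : Dat} {n w e : ℕ} {g : List (ℕ × ℕ)}
    (h : sgc K κ l n w e g = true) : Seg K κ l n e := by
  obtain ⟨h1, h2⟩ := brec_true h
  exact (go_sound (Nat.le_of_ble_eq_true h2) g n w h1).2

/-- the remaining checks -/
noncomputable def chk (q K κ D E μn μd e : ℕ) (l : Dat) : Bool :=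
  Bool.rec false (Bool.rec false
    (pt K e 1 (List.replicate q (false, 0, 0) ++ [(true, 1, 0)]))
    (fc (D ^ (2 * q + 1)) fun De => okY (2 * q + 1) De E l))
    (Nat.ble (μn * (2 * (q + 1)) * E * D ^ (2 * (q + 1)) +
        μd * (2 * (2 * q + 1) * E * sumY (2 * (q + 1)) l))
      (μd * (E * D ^ (2 * (q + 1)) + 4 * (q + 1) * κ * D ^ (2 * (q + 1)))))

theorem chk_sound {q K κ D E μn μd e : ℕ} {l : Dat} (hK : 0 < K) (hD : 0 < D)
    (hE : 0 < E) (hn : 0 < μn) (hd : 0 < μd) (h : chk q K κ D E μn μd e l = true)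
    (hS : Seg K κ l 0 e) : Both (q + 1) ((μn : ℝ) / μd) := by
  obtain ⟨h, h1⟩ := brec_true h
  obtain ⟨h3, h2⟩ := brec_true h
  have h1' := Nat.le_of_ble_eq_true h1
  have h2' := okY_sound l h2
  have h3' : ∀ θ, ang K 0 ≤ θ → θ ≤ π / (2 * (q + 1)) → (κ : ℝ) ≤ Sv θ l 1 :=
    fun θ a b => hS θ a (b.trans (end_sound hK h3))
  have hD' : (0 : ℝ) < D := by exact_mod_cast hD
  have hE' : (0 : ℝ) < E := by exact_mod_cast hE
  have hd' : (0 : ℝ) < μd := by exact_mod_cast hd
  have na : ∀ j : ℕ, ((j : ℤ) + 1).natAbs - 1 = j := fun j => by omega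
  have nb : ∀ j : ℕ, (-((j : ℤ) + 1)).natAbs - 1 = j := fun j => by omega
  have n1 : ∀ j : ℕ, ¬ ((j : ℤ) + 1 = 0) := fun j => by omega
  have n2 : ∀ j : ℕ, ¬ (-((j : ℤ) + 1) = 0) := fun j => by omega
  refine main (Icc (-(l.length : ℤ)) l.length) id (Set.injOn_id _)
    (fun d => if d = 0 then 1 else sg (l.getD (d.natAbs - 1) (false, 0, 0)) / E)
    (fun d => if d = 0 then 1 else ((l.getD (d.natAbs - 1) (false, 0, 0)).2.2 : ℝ) / D)
    q (2 * (q + 1)) le_rfl (1 + 2 * (κ / E)) _ (by positivity) ?_ ?_ ?_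
  · intro d _
    split_ifs
    · simp
    · refine ⟨by positivity, ?_⟩
      have := h2' (d.natAbs - 1)
      generalize l.getD (d.natAbs - 1) (false, 0, 0) = x at *
      have e : |sg x| = x.2.1 := by unfold sg; split_ifs <;> simp
      rw [abs_div, e, abs_of_pos hE', div_pow, div_le_div_iff₀ hE' (by positivity)]
      exact_mod_cast this
  · intro t ht
    have hq : (0 : ℝ) < q + 1 := by positivity
    have h4 := h3' (|π * t / (q + 1)|) (by simp [ang]) (by
      rw [abs_div, abs_mul, abs_of_pos pi_pos, abs_of_pos hq, div_le_div_iff₀ hq (by positivity)]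
      have := mul_le_mul_of_nonneg_left ht (show 0 ≤ π * (2 * (q + 1)) by positivity)
      linarith)
    rw [Sv_eq] at h4
    rw [sum_Icc_symm]
    simp only [if_true, id, Int.cast_zero, mul_zero, zero_mul, zero_div, cos_zero, mul_one, n1, n2,
      if_false, na, nb, add_le_add_iff_left]
    calc 2 * ((κ : ℝ) / E) ≤ 2 * ((∑ i ∈ range l.length, sg (l.getD i (false, 0, 0)) *
          cos ((1 + i : ℕ) * |π * t / (q + 1)|)) / E) := by gcongr
      _ = _ := by
        rw [Finset.sum_div, Finset.mul_sum]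
        refine Finset.sum_congr rfl fun i _ => ?_
        rw [show ((1 + i : ℕ) : ℝ) * |π * t / (q + 1)| = |((1 + i : ℕ) : ℝ) * (π * t / (q + 1))| by
          rw [abs_mul ((1 + i : ℕ) : ℝ), Nat.abs_cast], cos_abs]
        push_cast
        rw [show 2 * π * -((i : ℝ) + 1) * t / (2 * (q + 1)) = -((1 + i) * (π * t / (q + 1))) by
          field_simp; ring, cos_neg, show 2 * π * ((i : ℝ) + 1) * t / (2 * (q + 1)) =
            (1 + i) * (π * t / (q + 1)) by field_simp; ring]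
        ring
  · rw [sum_Icc_symm]
    simp only [if_true, one_pow, n1, n2, if_false, na, nb]
    have e : ∑ j ∈ range l.length, ((((l.getD j (false, 0, 0)).2.2 : ℝ) / D) ^ (2 * (q + 1)) +
        (((l.getD j (false, 0, 0)).2.2 : ℝ) / D) ^ (2 * (q + 1))) =
        2 * (sumY (2 * (q + 1)) l / (D : ℝ) ^ (2 * (q + 1))) := by
      rw [sumY_eq]; push_cast
      rw [Finset.sum_div, Finset.mul_sum]
      refine Finset.sum_congr rfl fun i _ => ?_
      rw [div_pow]; ring
    rw [e]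
    have h5 : (μn : ℝ) * (2 * (q + 1)) * E * D ^ (2 * (q + 1)) +
        μd * (2 * (2 * q + 1) * E * sumY (2 * (q + 1)) l) ≤
        μd * (E * D ^ (2 * (q + 1)) + 4 * (q + 1) * κ * D ^ (2 * (q + 1))) := by exact_mod_cast h1'
    have hX : (0 : ℝ) < (D : ℝ) ^ (2 * (q + 1)) := by positivity
    generalize (D : ℝ) ^ (2 * (q + 1)) = X at *
    rw [← sub_nonneg] at h5 ⊢
    have := div_nonneg h5 (show 0 ≤ μd * E * X by positivity)
    refine this.trans (le_of_eq ?_)
    push_cast; field_simp; ring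

end Pool.Agent.P.MP_62e163_co
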