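import Pool.Agent.P.MP_62e163_co.Gen

namespace Pool.Agent.P.MP_62e163_co

open Finset Real

lemma central_ge (m : ℕ) (hm : 0 < m) :
    1 / √(π * m) ≤ (1 + 1 / (4 * m)) * ((m.centralBinom : ℝ) / 4 ^ m) := by
  have hπ := pi_pos
  have hm' : (0 : ℝ) < m := by exact_mod_cast hm
  have h1 := Real.Wallis.W_le m
  rw [Real.Wallis.W_eq_factorial_ratio] at h1
  have h2 : (m.centralBinom : ℝ) * m.factorial * m.factorial = (2 * m).factorial := by
    have := Nat.choose_mul_factorial_mul_factorial (show m ≤ 2 * m by omega)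
    rw [show 2 * m - m = m by omega, ← Nat.centralBinom_eq_two_mul_choose] at this
    exact_mod_cast this
  have hc : (0 : ℝ) < m.centralBinom := by exact_mod_cast Nat.centralBinom_pos m
  have hf : (0 : ℝ) < m.factorial := by positivity
  set I : ℝ := (m.centralBinom : ℝ) / 4 ^ m with hI
  have hI0 : 0 < I := by positivity
  have h3 : 1 ≤ I ^ 2 * (π * (m + 1 / 2)) := by
    rw [← h2, div_le_iff₀ (by positivity)] at h1
    have e : (2 : ℝ) ^ (4 * m) = (4 ^ m) ^ 2 := by
      rw [← pow_mul, show (4 : ℝ) = 2 ^ 2 by norm_num, ← pow_mul]; congr 1; ring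
    rw [e] at h1
    rw [hI, div_pow, div_mul_eq_mul_div, le_div_iff₀ (by positivity), one_mul]
    have : ((4 : ℝ) ^ m) ^ 2 * (m.factorial : ℝ) ^ 4 ≤
        ((m.centralBinom : ℝ) ^ 2 * (π * (m + 1 / 2))) * (m.factorial : ℝ) ^ 4 := by
      refine h1.trans (le_of_eq ?_); ring
    exact le_of_mul_le_mul_right this (by positivity)
  rw [div_le_iff₀ (by positivity), ← div_le_iff₀' (by positivity)]
  refine Real.le_sqrt_of_sq_le ?_
  rw [div_pow, div_le_iff₀ (by positivity), one_pow]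
  refine h3.trans ?_
  have : (m : ℝ) + 1 / 2 ≤ m * (1 + 1 / (4 * m)) ^ 2 := by
    have : (m : ℝ) * (1 + 1 / (4 * m)) ^ 2 = m + 1 / 2 + 1 / (16 * m) := by field_simp; ring
    rw [this]
    have : (0 : ℝ) ≤ 1 / (16 * m) := by positivity
    linarith
  have := mul_le_mul_of_nonneg_left this (show 0 ≤ I ^ 2 * π by positivity)
  nlinarith

lemma exp_neg_le_quad {x : ℝ} (hx : 0 ≤ x) : exp (-x) ≤ 1 - x + x ^ 2 / 2 := by
  have h1 := Real.quadratic_le_exp_of_nonneg hx
  rw [Real.exp_neg, inv_le_iff_one_le_mul₀ (exp_pos x)]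
  have h2 : 0 ≤ 1 - x + x ^ 2 / 2 := by nlinarith [sq_nonneg (x - 1)]
  have := mul_le_mul_of_nonneg_left h1 h2
  nlinarith [sq_nonneg (x ^ 2)]

lemma clean (m : ℕ) (hm : 11 ≤ m) : (1 + log m / (6 * m)) / √(π * m) ≤ muGen m := by
  have hπ := pi_gt_three
  have hm' : (11 : ℝ) ≤ m := by exact_mod_cast hm
  have hc := central_ge m (by omega)
  set I : ℝ := (m.centralBinom : ℝ) / 4 ^ m with hI
  have hI0 : 0 ≤ I := by positivity
  set l := log (m : ℝ) with hl
  have hl0 : 0 ≤ l := log_nonneg (by linarith)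
  have hs := Real.sq_sqrt (show (0 : ℝ) ≤ m by linarith)
  have hs1 : 3.3 ≤ √(m : ℝ) := Real.le_sqrt_of_sq_le (by linarith)
  have hl1 : l ≤ 2 * (√(m : ℝ) - 1) := by
    have := Real.log_le_sub_one_of_pos (show 0 < √(m : ℝ) by linarith)
    rw [Real.log_sqrt (by linarith)] at this
    linarith
  have g1 := Real.log_two_gt_d9
  have g2 := Real.log_two_lt_d9
  set lam := l + 4 * log 2 with hlam
  have hn : (0 : ℝ) < 2 * m - 1 := by linarith
  have hr : (6 / ((12 * m + 13) * π ^ 2) : ℝ) ^ ((2 * m - 1 : ℝ)⁻¹) ≤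
      1 - lam / (2 * m - 1) + (lam / (2 * m - 1)) ^ 2 / 2 := by
    refine le_trans ?_ (exp_neg_le_quad (by positivity))
    rw [Real.rpow_def_of_pos (by positivity), Real.exp_le_exp, ← neg_div, div_eq_mul_inv (-lam)]
    refine mul_le_mul_of_nonneg_right ?_ (by positivity)
    have e : -lam = log (1 / (m * 2 ^ 4)) := by
      rw [one_div, Real.log_inv, Real.log_mul (by linarith) (by norm_num), Real.log_pow]
      push_cast; rfl
    rw [e]
    refine Real.log_le_log (by positivity) ?_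
    rw [div_le_div_iff₀ (by positivity) (by positivity)]
    have hp : 9 ≤ π ^ 2 := by nlinarith
    have := mul_le_mul_of_nonneg_left hp (show (0 : ℝ) ≤ 12 * m + 13 by positivity)
    linarith
  have key : (1 + l / (6 * m)) * (1 + 1 / (4 * m)) ≤ 1 + 2 / (12 * m + 13) *
      (2 * m - (2 * m - 1) * (6 / ((12 * m + 13) * π ^ 2) : ℝ) ^ ((2 * m - 1 : ℝ)⁻¹)) := by
    have h1 := mul_le_mul_of_nonneg_left hr hn.le
    have e1 : (2 * m - 1) * (1 - lam / (2 * m - 1) + (lam / (2 * m - 1)) ^ 2 / 2) =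
        2 * m - 1 - lam + lam ^ 2 / (2 * (2 * m - 1)) := by field_simp
    rw [e1] at h1
    have h2 : lam ^ 2 / (2 * (2 * m - 1)) ≤ 1.35 := by
      rw [div_le_iff₀ (by positivity)]
      have : lam ≤ 2 * √(m : ℝ) + 0.78 := by linarith
      have : lam ^ 2 ≤ (2 * √(m : ℝ) + 0.78) ^ 2 := pow_le_pow_left₀ (by positivity) this 2
      nlinarith
    have h3 : l ≤ 0.43 * m := by nlinarith
    have h4 : (1 + l / (6 * m)) * (1 + 1 / (4 * m)) ≤ 1 + 2 / (12 * m + 13) * (l + 2.42) := by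
      have e2 : 1 + 2 / (12 * m + 13) * (l + 2.42) - (1 + l / (6 * m)) * (1 + 1 / (4 * m)) =
          (44.16 * m ^ 2 - 64 * m * l - 78 * m - 13 * l) / (24 * m ^ 2 * (12 * m + 13)) := by
        field_simp; ring
      rw [← sub_nonneg, e2]
      refine div_nonneg ?_ (by positivity)
      nlinarith
    refine h4.trans (add_le_add le_rfl (mul_le_mul_of_nonneg_left ?_ (by positivity)))
    linarith
  unfold muGen
  rw [← hI, div_eq_mul_one_div]
  calc _ ≤ (1 + l / (6 * m)) * ((1 + 1 / (4 * m)) * I) :=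
        mul_le_mul_of_nonneg_left hc (by positivity)
    _ = I * ((1 + l / (6 * m)) * (1 + 1 / (4 * m))) := by ring
    _ ≤ _ := mul_le_mul_of_nonneg_left key hI0

end Pool.Agent.P.MP_62e163_co
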