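import Pool.Agent.P.MP_62e163_co.Defs

namespace Pool.Agent.P.MP_62e163_co

open Finset Fintype

/-- tuples -/
abbrev Tup (p : ℕ) (A : Finset ℤ) : Finset (Fin p → ℤ) := piFinset fun _ : Fin p => A

lemma card_perm_le {p : ℕ} (a0 : Fin p → ℤ) (S : Finset (Fin p → ℤ))
    (hS : ∀ a ∈ S, (List.ofFn a : Multiset ℤ) = (List.ofFn a0 : Multiset ℤ)) :
    S.card ≤ p.factorial := by
  classical
  have h1 : S.card ≤ (List.ofFn a0).permutations.toFinset.card := by
    refine Finset.card_le_card_of_injOn (fun a => List.ofFn a) ?_ ?_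
    · intro a ha
      have := hS a ha
      simp only [Finset.mem_coe, List.mem_toFinset, List.mem_permutations]
      exact Multiset.coe_eq_coe.1 this
    · intro a _ b _ hab
      exact List.ofFn_injective hab
  refine h1.trans ((List.toFinset_card_le _).trans ?_)
  rw [List.length_permutations, List.length_ofFn]

lemma red_unique {p q : ℕ} {A : Finset ℤ} (hA : IsBh (p + q) A)
    {a a' : Fin p → ℤ} {b b' : Fin q → ℤ} (ha : a ∈ Tup p A) (ha' : a' ∈ Tup p A)
    (hb : b ∈ Tup q A) (hb' : b' ∈ Tup q A) (hr : ∀ i j, a i ≠ b j)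
    (hs : ∑ i, a i - ∑ j, b j = ∑ i, a' i - ∑ j, b' j) :
    (List.ofFn a : Multiset ℤ) = (List.ofFn a' : Multiset ℤ) ∧
      (List.ofFn b : Multiset ℤ) = (List.ofFn b' : Multiset ℤ) := by
  classical
  have mem : ∀ {r : ℕ} {c : Fin r → ℤ}, c ∈ Tup r A → ∀ x ∈ (List.ofFn c : Multiset ℤ), x ∈ A := by
    intro r c hc x hx
    simp only [Multiset.mem_coe, List.mem_ofFn] at hx
    obtain ⟨i, rfl⟩ := hx
    exact Fintype.mem_piFinset.1 hc i
  have key : (List.ofFn a : Multiset ℤ) + (List.ofFn b' : Multiset ℤ) =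
      (List.ofFn a' : Multiset ℤ) + (List.ofFn b : Multiset ℤ) := by
    refine hA _ _ (by simp) (by simp) ?_ ?_ ?_
    · intro x hx
      rcases Multiset.mem_add.1 hx with h | h
      · exact mem ha x h
      · exact mem hb' x h
    · intro x hx
      rcases Multiset.mem_add.1 hx with h | h
      · exact mem ha' x h
      · exact mem hb x h
    · simp only [Multiset.sum_add, Multiset.sum_coe, List.sum_ofFn]
      linarith
  have hle : (List.ofFn a : Multiset ℤ) ≤ (List.ofFn a' : Multiset ℤ) := by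
    rw [Multiset.le_iff_count]
    intro x
    have hc := congrArg (Multiset.count x) key
    simp only [Multiset.count_add] at hc
    by_cases hx : x ∈ (List.ofFn a : Multiset ℤ)
    · have : x ∉ (List.ofFn b : Multiset ℤ) := by
        intro hxb
        simp only [Multiset.mem_coe, List.mem_ofFn] at hx hxb
        obtain ⟨i, hi⟩ := hx
        obtain ⟨j, hj⟩ := hxb
        exact hr i j (hi.trans hj.symm)
      rw [Multiset.count_eq_zero_of_notMem this] at hc
      omega
    · rw [Multiset.count_eq_zero_of_notMem hx]; omega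
  have h1 : (List.ofFn a : Multiset ℤ) = (List.ofFn a' : Multiset ℤ) :=
    Multiset.eq_of_le_of_card_le hle (by simp)
  refine ⟨h1, ?_⟩
  rw [h1] at key
  exact (add_left_cancel key).symm

open Classical in
lemma card_red_le {p q : ℕ} {A : Finset ℤ} (hA : IsBh (p + q) A) (n : ℤ) :
    ((Tup p A ×ˢ Tup q A).filter
      fun x => (∀ i j, x.1 i ≠ x.2 j) ∧ ∑ i, x.1 i - ∑ j, x.2 j = n).card ≤
      p.factorial * q.factorial := by
  set S := (Tup p A ×ˢ Tup q A).filter
      fun x => (∀ i j, x.1 i ≠ x.2 j) ∧ ∑ i, x.1 i - ∑ j, x.2 j = n with hS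
  rcases S.eq_empty_or_nonempty with h | ⟨x0, hx0⟩
  · simp [h]
  have hall : ∀ x ∈ S, (List.ofFn x.1 : Multiset ℤ) = (List.ofFn x0.1 : Multiset ℤ) ∧
      (List.ofFn x.2 : Multiset ℤ) = (List.ofFn x0.2 : Multiset ℤ) := by
    intro x hx
    simp only [hS, Finset.mem_filter, Finset.mem_product] at hx hx0
    exact red_unique hA hx.1.1 hx0.1.1 hx.1.2 hx0.1.2 hx.2.1 (hx.2.2.trans hx0.2.2.symm)
  have hsub : S ⊆ S.image Prod.fst ×ˢ S.image Prod.snd := Finset.subset_product
  refine (Finset.card_le_card hsub).trans ?_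
  rw [Finset.card_product]
  refine Nat.mul_le_mul (card_perm_le x0.1 _ ?_) (card_perm_le x0.2 _ ?_)
  · intro a ha
    obtain ⟨x, hx, rfl⟩ := Finset.mem_image.1 ha
    exact (hall x hx).1
  · intro a ha
    obtain ⟨x, hx, rfl⟩ := Finset.mem_image.1 ha
    exact (hall x hx).2

open Classical in
lemma card_nonred_le (p q : ℕ) (A : Finset ℤ) :
    ((Tup p A ×ˢ Tup q A).filter fun x => ¬ ∀ i j, x.1 i ≠ x.2 j).card * A.card ≤
      p * q * A.card ^ (p + q) := by
  have hsub : ((Tup p A ×ˢ Tup q A).filter fun x => ¬ ∀ i j, x.1 i ≠ x.2 j) ⊆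
      (univ : Finset (Fin p × Fin q)).biUnion fun ij =>
        (Tup p A).biUnion fun a => ((Tup q A).filter fun b => b ij.2 = a ij.1).image
          fun b => (a, b) := by
    intro x hx
    simp only [Finset.mem_filter, Finset.mem_product, not_forall, ne_eq, not_not] at hx
    obtain ⟨⟨h1, h2⟩, i, j, hij⟩ := hx
    simp only [Finset.mem_biUnion, Finset.mem_univ, true_and, Finset.mem_image, Finset.mem_filter]
    exact ⟨(i, j), x.1, h1, x.2, ⟨h2, hij.symm⟩, rfl⟩
  have h1 := Finset.card_le_card hsub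
  have h2 : ∀ ij : Fin p × Fin q, ((Tup p A).biUnion fun a =>
      ((Tup q A).filter fun b => b ij.2 = a ij.1).image fun b => (a, b)).card * A.card ≤
      A.card ^ (p + q) := by
    intro ij
    have hq : 0 < q := Fin.pos ij.2
    calc _ ≤ (∑ a ∈ Tup p A, A.card ^ (q - 1)) * A.card := by
          refine Nat.mul_le_mul_right _ (Finset.card_biUnion_le.trans (Finset.sum_le_sum ?_))
          intro a ha
          refine Finset.card_image_le.trans ?_
          rw [Fintype.card_filter_piFinset_const_eq_of_mem A ij.2 (Fintype.mem_piFinset.1 ha ij.1)]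
          simp
      _ = A.card ^ (p + q) := by
          rw [Finset.sum_const, Fintype.card_piFinset_const, smul_eq_mul, mul_assoc, ← pow_succ,
            ← pow_add]
          congr 1; omega
  calc _ ≤ (∑ ij : Fin p × Fin q, ((Tup p A).biUnion fun a =>
      ((Tup q A).filter fun b => b ij.2 = a ij.1).image fun b => (a, b)).card) * A.card :=
        Nat.mul_le_mul_right _ (h1.trans Finset.card_biUnion_le)
    _ ≤ ∑ _ij : Fin p × Fin q, A.card ^ (p + q) := by
        rw [Finset.sum_mul]; exact Finset.sum_le_sum fun ij _ => h2 ij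
    _ = _ := by simp

/-- the weighted counting inequality -/
lemma weighted {p q : ℕ} {A : Finset ℤ} (hA : IsBh (p + q) A) (G : ℤ → ℝ) (B : ℝ)
    (hG0 : ∀ n, 0 ≤ G n) (hGB : ∀ n, G n ≤ B) (T : Finset ℤ)
    (hT : ∀ a ∈ Tup p A, ∀ b ∈ Tup q A, ∑ i, a i - ∑ j, b j ∈ T) :
    (∑ a ∈ Tup p A, ∑ b ∈ Tup q A, G (∑ i, a i - ∑ j, b j)) * A.card ≤
      (p.factorial * q.factorial : ℕ) * (∑ n ∈ T, G n) * A.card +
        B * (p * q * (A.card : ℝ) ^ (p + q)) := by
  classical
  have hB : 0 ≤ B := (hG0 0).trans (hGB 0)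
  rw [← Finset.sum_product' (f := fun (a : Fin p → ℤ) (b : Fin q → ℤ) => G (∑ i, a i - ∑ j, b j)),
    ← Finset.sum_filter_add_sum_filter_not _ (fun x : (Fin p → ℤ) × (Fin q → ℤ) =>
      ∀ i j, x.1 i ≠ x.2 j), add_mul]
  refine add_le_add ?_ ?_
  · refine mul_le_mul_of_nonneg_right ?_ (Nat.cast_nonneg _)
    rw [← Finset.sum_fiberwise_of_maps_to (t := T)
      (g := fun x : (Fin p → ℤ) × (Fin q → ℤ) => ∑ i, x.1 i - ∑ j, x.2 j), Finset.mul_sum]
    · refine Finset.sum_le_sum fun n _ => ?_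
      rw [Finset.filter_filter, Finset.sum_congr rfl (g := fun _ => G n), Finset.sum_const,
        nsmul_eq_mul]
      · exact mul_le_mul_of_nonneg_right (by exact_mod_cast card_red_le hA n) (hG0 n)
      · intro x hx
        rw [(Finset.mem_filter.1 hx).2.2]
    · intro x hx
      have := Finset.mem_product.1 (Finset.mem_filter.1 hx).1
      exact hT _ this.1 _ this.2
  · have h1 := card_nonred_le p q A
    have h2 : (((Tup p A ×ˢ Tup q A).filter fun x => ¬ ∀ i j, x.1 i ≠ x.2 j).card : ℝ) * A.card ≤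
      p * q * (A.card : ℝ) ^ (p + q) := by exact_mod_cast h1
    calc _ ≤ (((Tup p A ×ˢ Tup q A).filter fun x => ¬ ∀ i j, x.1 i ≠ x.2 j).card • B) * A.card :=
          mul_le_mul_of_nonneg_right (Finset.sum_le_card_nsmul _ _ _ fun x _ => hGB _)
            (Nat.cast_nonneg _)
      _ = B * ((((Tup p A ×ˢ Tup q A).filter fun x => ¬ ∀ i j, x.1 i ≠ x.2 j).card : ℝ) *
            A.card) := by rw [nsmul_eq_mul]; ring
      _ ≤ _ := mul_le_mul_of_nonneg_left h2 hB

end Pool.Agent.P.MP_62e163_co
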