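import Mathlib

namespace Pool.Agent.P.MP_62e163_co

open Filter

/-- `A` is a `B_h`-set: two multisets of `h` elements of `A` with the same sum coincide. -/
def IsBh (h : ℕ) (A : Finset ℤ) : Prop :=
  ∀ s t : Multiset ℤ, s.card = h → t.card = h → (∀ x ∈ s, x ∈ A) → (∀ x ∈ t, x ∈ A) →
    s.sum = t.sum → s = t

/-- `limsup F_h(N)^h / N ≤ C`. -/
def Bound (h : ℕ) (C : ℝ) : Prop :=
  ∀ ε : ℝ, 0 < ε → ∀ᶠ N : ℕ in atTop, ∀ A : Finset ℤ, A ⊆ Finset.Icc (1 : ℤ) N → IsBh h A →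
    (A.card : ℝ) ^ h ≤ (C + ε) * N

end Pool.Agent.P.MP_62e163_co
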