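import Pool.Agent.P.MP_62e163_co.Count

namespace Pool.Agent.P.MP_62e163_co

open Finset Fintype Real Filter

/-- additive character modulo `M` -/
noncomputable def ec (M : ℕ) (x : ℤ) : ℂ := Complex.exp (((2 * π * x / M : ℝ) : ℂ) * Complex.I)

lemma ec_add (M : ℕ) (x y : ℤ) : ec M (x + y) = ec M x * ec M y := by
  unfold ec; rw [← Complex.exp_add]; congr 1; push_cast; ring

lemma ec_zero (M : ℕ) : ec M 0 = 1 := by simp [ec]

lemma ec_conj (M : ℕ) (x : ℤ) : (starRingEnd ℂ) (ec M x) = ec M (-x) := by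
  unfold ec; rw [← Complex.exp_conj, map_mul, Complex.conj_ofReal, Complex.conj_I]
  congr 1; push_cast; ring

lemma ec_norm (M : ℕ) (x : ℤ) : ‖ec M x‖ = 1 := Complex.norm_exp_ofReal_mul_I _

lemma ec_nat_mul (M : ℕ) (x : ℤ) (t : ℕ) : ec M (x * t) = ec M x ^ t := by
  induction t with
  | zero => simp [ec_zero]
  | succ t ih => rw [pow_succ, ← ih, ← ec_add]; congr 1; push_cast; ring

lemma ec_sum {ι : Type} (M : ℕ) (s : Finset ι) (f : ι → ℤ) :
    ec M (∑ i ∈ s, f i) = ∏ i ∈ s, ec M (f i) := by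
  classical
  induction s using Finset.induction_on with
  | empty => simp [ec_zero]
  | insert a s ha ih => rw [Finset.sum_insert ha, Finset.prod_insert ha, ec_add, ih]

lemma ec_geom {M : ℕ} {d : ℤ} (hd0 : d ≠ 0) (hd : |d| < M) (c : ℤ) :
    ∑ t ∈ range M, ec M (d * (t + c)) = 0 := by
  have hM : (0 : ℝ) < M := by
    have : (0 : ℤ) < M := (abs_nonneg d).trans_lt hd
    exact_mod_cast this
  have h1 : ec M d ≠ 1 := by
    intro h
    obtain ⟨n, hn⟩ := Complex.exp_eq_one_iff.1 h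
    have h2 : ((2 * π * d / M : ℝ) : ℂ) = ((n * (2 * π) : ℝ) : ℂ) := by
      apply mul_right_cancel₀ Complex.I_ne_zero
      rw [hn]; push_cast; ring
    have h3 : (2 * π * d / M : ℝ) = n * (2 * π) := by exact_mod_cast h2
    have h4 : (d : ℝ) = n * M := by
      have := Real.pi_pos
      field_simp at h3
      linarith
    have h5 : d = n * M := by exact_mod_cast h4
    rw [h5, abs_mul] at hd
    have hn0 : n ≠ 0 := by rintro rfl; simp at h5; exact hd0 h5
    have : 1 ≤ |n| := Int.one_le_abs hn0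
    rw [Nat.abs_cast] at hd
    have hM' : (0 : ℤ) ≤ M := Int.natCast_nonneg M
    nlinarith
  have h2 : ec M d ^ M = 1 := by
    rw [← ec_nat_mul]
    unfold ec
    rw [Complex.exp_eq_one_iff]
    refine ⟨d, ?_⟩
    have : (M : ℂ) ≠ 0 := by exact_mod_cast hM.ne'
    push_cast; field_simp
  have h3 : ∀ t : ℕ, ec M (d * (t + c)) = ec M d ^ t * ec M (d * c) := by
    intro t; rw [mul_add, ec_add, ec_nat_mul]
  simp_rw [h3]
  rw [← Finset.sum_mul, geom_sum_eq h1, h2]; simp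

/-- unnormalised Fejer kernel -/
noncomputable def Gk (M J : ℕ) (n : ℤ) : ℝ := ‖∑ j ∈ range J, ec M (j * n)‖ ^ 2

lemma Gk_nonneg (M J : ℕ) (n : ℤ) : 0 ≤ Gk M J n := sq_nonneg _

lemma Gk_le (M J : ℕ) (n : ℤ) : Gk M J n ≤ (J : ℝ) ^ 2 := by
  refine pow_le_pow_left₀ (norm_nonneg _) ((norm_sum_le _ _).trans ?_) 2
  simp [ec_norm]

lemma Gk_eq (M J : ℕ) (n : ℤ) :
    (Gk M J n : ℂ) = ∑ j ∈ range J, ∑ j' ∈ range J, ec M (((j : ℤ) - j') * n) := by
  unfold Gk
  rw [Complex.ofReal_pow, ← Complex.mul_conj', map_sum, Finset.sum_mul_sum]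
  refine Finset.sum_congr rfl fun j _ => Finset.sum_congr rfl fun j' _ => ?_
  rw [ec_conj, ← ec_add]; congr 1; ring

lemma sum_Gk {M J : ℕ} (hJ : J ≤ M) (c : ℤ) : ∑ t ∈ range M, Gk M J (t + c) = J * M := by
  have : ((∑ t ∈ range M, Gk M J (t + c) : ℝ) : ℂ) = ((J * M : ℝ) : ℂ) := by
    push_cast
    simp_rw [Gk_eq]
    rw [Finset.sum_comm]
    have h : ∀ j ∈ range J, ∑ t ∈ range M, ∑ j' ∈ range J, ec M (((j : ℤ) - j') * (t + c)) = M := by
      intro j hj
      rw [Finset.sum_comm, Finset.sum_eq_single_of_mem j hj]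
      · simp [ec_zero]
      · intro j' hj' hne
        refine ec_geom (by omega) ?_ c
        have := Finset.mem_range.1 hj
        have := Finset.mem_range.1 hj'
        rw [abs_lt]; omega
    rw [Finset.sum_congr rfl h]; simp
  exact_mod_cast this

/-- Fourier transform of a set -/
noncomputable def hat (M : ℕ) (A : Finset ℤ) (d : ℤ) : ℂ := ∑ a ∈ A, ec M (d * a)

lemma hat_conj (M : ℕ) (A : Finset ℤ) (d : ℤ) :
    (starRingEnd ℂ) (hat M A d) = ∑ a ∈ A, ec M (-(d * a)) := by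
  unfold hat; rw [map_sum]; simp_rw [ec_conj]

lemma sum_tup (M p q : ℕ) (A : Finset ℤ) (d c : ℤ) :
    ∑ a ∈ Tup p A, ∑ b ∈ Tup q A, ec M (d * (∑ i, a i - ∑ j, b j - c)) =
      hat M A d ^ p * (starRingEnd ℂ) (hat M A d) ^ q * ec M (-(d * c)) := by
  rw [hat_conj, hat, Finset.sum_pow', Finset.sum_pow', Finset.sum_mul_sum, Finset.sum_mul]
  refine Finset.sum_congr rfl fun a _ => ?_
  rw [Finset.sum_mul]
  refine Finset.sum_congr rfl fun b _ => ?_
  rw [← ec_sum, ← ec_sum, ← ec_add, ← ec_add]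
  congr 1
  rw [Finset.sum_neg_distrib, ← Finset.mul_sum, ← Finset.mul_sum]; ring

/-- the energy -/
noncomputable def En (M J m : ℕ) (A : Finset ℤ) : ℝ :=
  ∑ j ∈ range J, ∑ j' ∈ range J, ‖hat M A ((j : ℤ) - j')‖ ^ (2 * m)

lemma sum_Gk_tup (M J p q : ℕ) (A : Finset ℤ) (c : ℤ) :
    ((∑ a ∈ Tup p A, ∑ b ∈ Tup q A, Gk M J (∑ i, a i - ∑ j, b j - c) : ℝ) : ℂ) =
      ∑ j ∈ range J, ∑ j' ∈ range J, hat M A ((j : ℤ) - j') ^ p *
        (starRingEnd ℂ) (hat M A ((j : ℤ) - j')) ^ q * ec M (-(((j : ℤ) - j') * c)) := by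
  push_cast
  simp_rw [Gk_eq, ← sum_tup]
  calc _ = ∑ a ∈ Tup p A, ∑ j ∈ range J, ∑ b ∈ Tup q A, ∑ j' ∈ range J,
        ec M (((j : ℤ) - j') * (∑ i, a i - ∑ j, b j - c)) :=
        Finset.sum_congr rfl fun a _ => Finset.sum_comm
    _ = ∑ j ∈ range J, ∑ a ∈ Tup p A, ∑ j' ∈ range J, ∑ b ∈ Tup q A,
        ec M (((j : ℤ) - j') * (∑ i, a i - ∑ j, b j - c)) := by
        rw [Finset.sum_comm]
        exact Finset.sum_congr rfl fun j _ => Finset.sum_congr rfl fun a _ => Finset.sum_comm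
    _ = _ := Finset.sum_congr rfl fun j _ => Finset.sum_comm

lemma En_even (M J m : ℕ) (A : Finset ℤ) :
    ∑ a ∈ Tup m A, ∑ b ∈ Tup m A, Gk M J (∑ i, a i - ∑ j, b j - 0) = En M J m A := by
  apply Complex.ofReal_injective
  rw [sum_Gk_tup, En]
  push_cast
  refine Finset.sum_congr rfl fun j _ => Finset.sum_congr rfl fun j' _ => ?_
  rw [mul_zero, neg_zero, ec_zero, mul_one, ← mul_pow, Complex.mul_conj', pow_mul]

lemma En_odd (M J q : ℕ) (A : Finset ℤ) :
    ∑ c ∈ A, ∑ a ∈ Tup (q + 1) A, ∑ b ∈ Tup q A, Gk M J (∑ i, a i - ∑ j, b j - c) =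
      En M J (q + 1) A := by
  apply Complex.ofReal_injective
  rw [Complex.ofReal_sum]
  simp_rw [sum_Gk_tup]
  rw [En, Finset.sum_comm]
  push_cast
  refine Finset.sum_congr rfl fun j _ => ?_
  rw [Finset.sum_comm]
  refine Finset.sum_congr rfl fun j' _ => ?_
  rw [← Finset.mul_sum, ← hat_conj, mul_assoc, ← pow_succ, ← mul_pow, Complex.mul_conj', pow_mul]

lemma upper_one {p q m L N J : ℕ} {A : Finset ℤ} (hA : IsBh (p + q) A)
    (hAN : A ⊆ Icc (1 : ℤ) N) (hL : 2 * m ≤ L) (hJ : J ≤ L * N) (c : ℤ) (hp : p ≤ m)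
    (hc1 : q * (N : ℤ) + c ≤ m * N) (hc2 : 1 ≤ q + c) :
    (∑ a ∈ Tup p A, ∑ b ∈ Tup q A, Gk (L * N) J (∑ i, a i - ∑ j, b j - c)) * A.card ≤
      (p.factorial * q.factorial : ℕ) * (J * (L * N : ℕ)) * A.card +
        (J : ℝ) ^ 2 * (p * q * (A.card : ℝ) ^ (p + q)) := by
  have h := weighted hA (fun n => Gk (L * N) J (n - c)) ((J : ℝ) ^ 2) (fun n => Gk_nonneg _ _ _)
    (fun n => Gk_le _ _ _) ((range (L * N)).image fun t : ℕ => (t : ℤ) + (c - m * N)) ?_
  · rw [Finset.sum_image (fun x _ y _ hxy => by simpa using hxy)] at h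
    have h2 : ∀ t : ℕ, (t : ℤ) + (c - m * N) - c = t + (-(m * N)) := fun t => by ring
    simp_rw [h2] at h
    rw [sum_Gk hJ] at h
    exact h
  · intro a ha b hb
    have ha1 : ∀ i, 1 ≤ a i ∧ a i ≤ N := fun i =>
      Finset.mem_Icc.1 (hAN (Fintype.mem_piFinset.1 ha i))
    have hb1 : ∀ i, 1 ≤ b i ∧ b i ≤ N := fun i =>
      Finset.mem_Icc.1 (hAN (Fintype.mem_piFinset.1 hb i))
    have s1 : 0 ≤ ∑ i, a i := Finset.sum_nonneg fun i _ => by linarith [(ha1 i).1]
    have s2 : ∑ i, a i ≤ p * N := by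
      simpa using Finset.sum_le_card_nsmul univ a (N : ℤ) fun i _ => (ha1 i).2
    have s3 : (q : ℤ) ≤ ∑ i, b i := by
      simpa using Finset.card_nsmul_le_sum univ b (1 : ℤ) fun i _ => (hb1 i).1
    have s4 : ∑ i, b i ≤ q * N := by
      simpa using Finset.sum_le_card_nsmul univ b (N : ℤ) fun i _ => (hb1 i).2
    have s5 : (p : ℤ) * N ≤ m * N :=
      mul_le_mul_of_nonneg_right (by exact_mod_cast hp) (Int.natCast_nonneg N)
    have s6 : 2 * (m : ℤ) * N ≤ L * N :=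
      mul_le_mul_of_nonneg_right (by exact_mod_cast hL) (Int.natCast_nonneg N)
    refine Finset.mem_image.2 ⟨(∑ i, a i - ∑ j, b j - (c - m * N)).toNat, ?_, ?_⟩
    · rw [Finset.mem_range, Int.toNat_lt (by linarith)]
      push_cast; linarith
    · rw [Int.toNat_of_nonneg (by linarith)]; ring

lemma En_ge (M J m J0 : ℕ) (A : Finset ℤ) :
    ((J : ℝ) - 2 * J0) * ∑ d ∈ Icc (-(J0 : ℤ)) J0, ‖hat M A d‖ ^ (2 * m) ≤ En M J m A := by
  have h0 : 0 ≤ ∑ d ∈ Icc (-(J0 : ℤ)) J0, ‖hat M A d‖ ^ (2 * m) :=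
    Finset.sum_nonneg fun _ _ => by positivity
  unfold En
  rw [Finset.sum_comm]
  calc _ ≤ ((Ico J0 (J - J0)).card : ℝ) * ∑ d ∈ Icc (-(J0 : ℤ)) J0, ‖hat M A d‖ ^ (2 * m) := by
        refine mul_le_mul_of_nonneg_right ?_ h0
        rw [Nat.card_Ico]
        have : (J : ℤ) - 2 * J0 ≤ ((J - J0 - J0 : ℕ) : ℤ) := by omega
        exact_mod_cast this
    _ = ∑ _j' ∈ Ico J0 (J - J0), ∑ d ∈ Icc (-(J0 : ℤ)) J0, ‖hat M A d‖ ^ (2 * m) := by
        rw [Finset.sum_const, nsmul_eq_mul]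
    _ ≤ ∑ j' ∈ Ico J0 (J - J0), ∑ j ∈ range J, ‖hat M A ((j : ℤ) - j')‖ ^ (2 * m) := by
        refine Finset.sum_le_sum fun j' hj' => ?_
        have hj := Finset.mem_Ico.1 hj'
        calc _ = ∑ d ∈ Icc (-(J0 : ℤ)) J0,
              ‖hat M A ((((d + j').toNat : ℕ) : ℤ) - j')‖ ^ (2 * m) := by
              refine Finset.sum_congr rfl fun d hd => ?_
              have := Finset.mem_Icc.1 hd
              have h2 : (((d + j').toNat : ℕ) : ℤ) - j' = d := by omega
              rw [h2]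
          _ = ∑ j ∈ (Icc (-(J0 : ℤ)) J0).image fun d : ℤ => (d + j').toNat,
              ‖hat M A ((j : ℤ) - j')‖ ^ (2 * m) := by
              rw [Finset.sum_image]
              intro x hx y hy hxy
              have := Finset.mem_Icc.1 (Finset.mem_coe.1 hx)
              have := Finset.mem_Icc.1 (Finset.mem_coe.1 hy)
              simp only at hxy
              omega
          _ ≤ _ := by
              refine Finset.sum_le_sum_of_subset_of_nonneg ?_ fun _ _ _ => by positivity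
              intro x hx
              obtain ⟨d, hd, rfl⟩ := Finset.mem_image.1 hx
              have := Finset.mem_Icc.1 hd
              rw [Finset.mem_range]; omega
    _ ≤ _ := by
        refine Finset.sum_le_sum_of_subset_of_nonneg ?_ fun _ _ _ =>
          Finset.sum_nonneg fun _ _ => by positivity
        intro x hx
        have := Finset.mem_Ico.1 hx
        rw [Finset.mem_range]; omega

end Pool.Agent.P.MP_62e163_co
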