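import Pool.Agent.P.MP_62e163_co.Trig

namespace Pool.Agent.P.MP_62e163_co

open Finset Real Filter Topology

/-- coefficients of the Bernoulli factor -/
noncomputable def tau (ρ : ℝ) (n : ℤ) : ℝ := if n = 0 then 1 else (-1) ^ n.natAbs * (ρ / (n : ℝ) ^ 2)

lemma tau_pos (ρ : ℝ) (j : ℕ) : tau ρ ((j : ℤ) + 1) = (-1) ^ (j + 1) * (ρ / ((j : ℝ) + 1) ^ 2) := by
  rw [tau, if_neg (by omega), show ((j : ℤ) + 1).natAbs = j + 1 by omega]; push_cast; rfl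

lemma tau_neg (ρ : ℝ) (n : ℤ) : tau ρ (-n) = tau ρ n := by simp [tau]

lemma R_ge {ρ : ℝ} (hρ : 0 ≤ ρ) (K : ℕ) {t : ℝ} (ht : |t| ≤ 1 / 2) :
    1 + 2 * ρ * π ^ 2 * (1 / 6 - (1 / 4 - t ^ 2)) -
        2 * ρ * (π ^ 2 / 6 - ∑ n ∈ range (K + 1), 1 / (n : ℝ) ^ 2) ≤
      ∑ n ∈ Icc (-(K : ℤ)) K, tau ρ n * cos (2 * π * n * t) := by
  obtain ⟨t1, t2⟩ := abs_le.1 ht
  have h := bern_ge (K + 1) (s := t + 1 / 2) ⟨by linarith, by linarith⟩
  have e : ∑ n ∈ Icc (-(K : ℤ)) K, tau ρ n * cos (2 * π * n * t) =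
      1 + 2 * ρ * ∑ n ∈ range (K + 1), 1 / (n : ℝ) ^ 2 * cos (2 * π * n * (t + 1 / 2)) := by
    rw [sum_Icc_symm, Finset.sum_range_succ', mul_add, Finset.mul_sum]
    simp only [tau, if_true, Int.cast_zero, mul_zero, zero_mul, cos_zero, mul_one, Nat.cast_zero,
      ne_eq, OfNat.ofNat_ne_zero, not_false_eq_true, zero_pow, div_zero, add_zero, add_right_inj]
    refine Finset.sum_congr rfl fun j _ => ?_
    have h1 := tau_pos ρ j
    have h2 := tau_neg ρ ((j : ℤ) + 1)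
    unfold tau at h1 h2
    rw [h2, h1, show 2 * π * ((j + 1 : ℕ) : ℝ) * (t + 1 / 2) =
      2 * π * ((j + 1 : ℕ) : ℝ) * t + (j + 1 : ℕ) * π by ring, Real.cos_add_nat_mul_pi]
    push_cast
    rw [show 2 * π * -((j : ℝ) + 1) * t = -(2 * π * ((j : ℝ) + 1) * t) by ring, cos_neg]
    ring
  rw [e]
  have := mul_le_mul_of_nonneg_left h (show 0 ≤ 2 * ρ by linarith)
  nlinarith

lemma sig_sum {ρ : ℝ} (hρ : 0 ≤ ρ) (K q : ℕ) :
    ∑ n ∈ Icc (-(K : ℤ)) K, (|tau ρ n| ^ (((2 * q + 1 : ℕ) : ℝ)⁻¹)) ^ (2 * (q + 1)) ≤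
      1 + ρ ^ (((2 * q + 1 : ℕ) : ℝ)⁻¹) * (2 * ρ * π ^ 2 / 6) := by
  rw [sum_Icc_symm]
  have h0 : (|tau ρ 0| ^ (((2 * q + 1 : ℕ) : ℝ)⁻¹)) ^ (2 * (q + 1)) = 1 := by simp [tau]
  rw [h0]
  refine add_le_add le_rfl ?_
  have hr : 0 ≤ ρ ^ (((2 * q + 1 : ℕ) : ℝ)⁻¹) := rpow_nonneg hρ _
  have h1 : ∑ n ∈ range (K + 1), 1 / (n : ℝ) ^ 2 ≤ π ^ 2 / 6 :=
    sum_le_hasSum _ (fun n _ => by positivity) hasSum_zeta_two
  rw [Finset.sum_range_succ'] at h1
  simp only [Nat.cast_zero, ne_eq, OfNat.ofNat_ne_zero, not_false_eq_true, zero_pow, div_zero,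
    add_zero] at h1
  calc _ ≤ ∑ j ∈ range K, ρ ^ (((2 * q + 1 : ℕ) : ℝ)⁻¹) * (2 * ρ * (1 / ((j + 1 : ℕ) : ℝ) ^ 2)) := by
        refine Finset.sum_le_sum fun j _ => ?_
        rw [tau_neg, tau_pos, abs_mul, abs_pow, abs_neg, abs_one, one_pow, one_mul,
          abs_of_nonneg (by positivity)]
        have hx : 0 ≤ ρ / ((j : ℝ) + 1) ^ 2 := by positivity
        have hle : ρ / ((j : ℝ) + 1) ^ 2 ≤ ρ := by
          refine div_le_self hρ (one_le_pow₀ ?_)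
          have : (0 : ℝ) ≤ j := Nat.cast_nonneg j
          linarith
        rw [show 2 * (q + 1) = 2 * q + 1 + 1 by ring, pow_succ,
          Real.rpow_inv_natCast_pow hx (by omega)]
        have := mul_le_mul_of_nonneg_left
          (Real.rpow_le_rpow hx hle (show 0 ≤ (((2 * q + 1 : ℕ) : ℝ)⁻¹) by positivity)) hx
        have e : 2 * ρ * (1 / ((j + 1 : ℕ) : ℝ) ^ 2) = 2 * (ρ / ((j : ℝ) + 1) ^ 2) := by
          push_cast; ring
        rw [e]; linarith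
    _ ≤ _ := by
        rw [← Finset.mul_sum, ← Finset.mul_sum, mul_div_assoc]
        exact mul_le_mul_of_nonneg_left (mul_le_mul_of_nonneg_left h1 (by positivity)) hr

lemma gen_cert (q K : ℕ) {ρ δ μ : ℝ} (hρ : ρ = 6 / ((12 * (q + 1) + 13) * π ^ 2))
    (hδ : δ = 2 * ρ * (π ^ 2 / 6 - ∑ n ∈ range (K + 1), 1 / (n : ℝ) ^ 2)) (hδ1 : δ ≤ 1 / 2)
    (hμ : 0 < μ)
    (hm : μ ≤ ((q + 1).centralBinom : ℝ) / 4 ^ (q + 1) * (1 + 2 / (12 * (q + 1) + 13) *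
      (2 * (q + 1) - (2 * q + 1) * ρ ^ (((2 * q + 1 : ℕ) : ℝ)⁻¹)) - 4 * (q + 1) * δ)) :
    Both (q + 1) μ := by
  have hπ := pi_pos
  have hρ0 : 0 ≤ ρ := by rw [hρ]; positivity
  have hb : 2 * ρ * π ^ 2 = 12 / (12 * (q + 1) + 13) := by rw [hρ]; field_simp; ring
  have hδ0 : 0 ≤ δ := by
    rw [hδ]
    exact mul_nonneg (by positivity)
      (sub_nonneg.2 (sum_le_hasSum _ (fun n _ => by positivity) hasSum_zeta_two))
  set L := 2 * (q + 1) + 1 with hL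
  set I : ℝ := ((q + 1).centralBinom : ℝ) / 4 ^ (q + 1) with hI
  have hI0 : 0 ≤ I := by positivity
  have hL0 : (0 : ℝ) < L := by positivity
  refine main (Icc (-(K : ℤ)) K ×ˢ Icc (-((q + 1 : ℕ) : ℤ)) (q + 1 : ℕ))
    (fun x => x.1 * L + x.2) ?_ (fun x => tau ρ x.1 * cos (π * x.2 / L) ^ (2 * q + 1))
    (fun x => |tau ρ x.1| ^ (((2 * q + 1 : ℕ) : ℝ)⁻¹) * cos (π * x.2 / L)) q L (by omega)
    (L * I * (1 + 2 / (12 * (q + 1) + 13) - 2 * δ)) μ hμ ?_ ?_ ?_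
  · rintro ⟨n, i⟩ hx ⟨n', i'⟩ hy hxy
    have h1 := Finset.mem_Icc.1 (Finset.mem_product.1 (Finset.mem_coe.1 hx)).2
    have h2 := Finset.mem_Icc.1 (Finset.mem_product.1 (Finset.mem_coe.1 hy)).2
    simp only [hL] at hxy h1 h2
    push_cast at hxy h1 h2
    have hq : (0 : ℤ) ≤ q := Int.natCast_nonneg q
    have : n = n' := by
      rcases lt_trichotomy n n' with h | h | h
      · have : n + 1 ≤ n' := h
        nlinarith
      · exact h
      · have : n' + 1 ≤ n := h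
        nlinarith
    subst this
    simp only [Prod.mk.injEq, true_and]
    linarith
  · intro x hx
    have hc := cos_angle_nonneg (q + 1) (Finset.mem_product.1 hx).2
    refine ⟨mul_nonneg (rpow_nonneg (abs_nonneg _) _) hc, le_of_eq ?_⟩
    rw [mul_pow, Real.rpow_inv_natCast_pow (abs_nonneg _) (by omega), abs_mul,
      abs_of_nonneg (pow_nonneg hc _)]
  · intro t ht
    have hodd : ∑ i ∈ Icc (-((q + 1 : ℕ) : ℤ)) (q + 1 : ℕ),
        cos (π * i / L) ^ (2 * q + 1) * sin (2 * π * i * t / L) = 0 := by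
      rw [sum_Icc_symm]
      simp only [Int.cast_zero, mul_zero, zero_mul, zero_div, sin_zero, zero_add]
      refine Finset.sum_eq_zero fun j _ => ?_
      push_cast
      rw [show π * -((j : ℝ) + 1) / L = -(π * ((j : ℝ) + 1) / L) by ring, cos_neg,
        show 2 * π * -((j : ℝ) + 1) * t / L = -(2 * π * ((j : ℝ) + 1) * t / L) by ring, sin_neg]
      ring
    have hprod : ∑ x ∈ Icc (-(K : ℤ)) K ×ˢ Icc (-((q + 1 : ℕ) : ℤ)) (q + 1 : ℕ),
        tau ρ x.1 * cos (π * x.2 / L) ^ (2 * q + 1) * cos (2 * π * ((x.1 * L + x.2 : ℤ) : ℝ) * t / L) =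
        (∑ n ∈ Icc (-(K : ℤ)) K, tau ρ n * cos (2 * π * n * t)) *
          (∑ i ∈ Icc (-((q + 1 : ℕ) : ℤ)) (q + 1 : ℕ),
            cos (π * i / L) ^ (2 * q + 1) * cos (2 * π * i * t / L)) -
        (∑ n ∈ Icc (-(K : ℤ)) K, tau ρ n * sin (2 * π * n * t)) *
          (∑ i ∈ Icc (-((q + 1 : ℕ) : ℤ)) (q + 1 : ℕ),
            cos (π * i / L) ^ (2 * q + 1) * sin (2 * π * i * t / L)) := by
      rw [Finset.sum_product, Finset.sum_mul_sum, Finset.sum_mul_sum, ← Finset.sum_sub_distrib]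
      refine Finset.sum_congr rfl fun n _ => ?_
      rw [← Finset.sum_sub_distrib]
      refine Finset.sum_congr rfl fun i _ => ?_
      rw [show 2 * π * ((n * L + i : ℤ) : ℝ) * t / L = 2 * π * n * t + 2 * π * i * t / L by
        push_cast; field_simp, cos_add]
      ring
    rw [hprod, hodd, mul_zero, sub_zero]
    have h1 := R_ge hρ0 K ht
    have h2 := Y0_ge q ht
    rw [← hδ, hb] at h1
    obtain ⟨t1, t2⟩ := abs_le.1 ht
    have hv0 : 0 ≤ 1 / 4 - t ^ 2 := by nlinarith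
    have hv1 : 1 / 4 - t ^ 2 ≤ 1 / 4 := by nlinarith
    generalize 1 / 4 - t ^ 2 = v at *
    have hq : (0 : ℝ) ≤ q := Nat.cast_nonneg q
    have hb1 : (12 : ℝ) / (12 * (q + 1) + 13) ≤ 1 := by
      rw [div_le_one (by positivity)]; linarith
    have hb0 : (0 : ℝ) ≤ 12 / (12 * (q + 1) + 13) := by positivity
    have h3 : 0 ≤ 1 + 12 / (12 * ((q : ℝ) + 1) + 13) * (1 / 6 - v) - δ := by nlinarith
    refine le_trans ?_ (mul_le_mul h1 h2 (by positivity) (h3.trans h1))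
    rw [mul_left_comm]
    refine mul_le_mul_of_nonneg_left ?_ (by positivity)
    have ha1 : v / (q + 2) ≤ 1 := by rw [div_le_one (by positivity)]; linarith
    have h4 : (1 + 12 / (12 * ((q : ℝ) + 1) + 13) * (1 / 6 - v)) * (1 + v / (q + 2)) =
        1 + 2 / (12 * (q + 1) + 13) +
          12 / (12 * ((q : ℝ) + 1) + 13) / (q + 2) * (v * (1 / 4 - v)) := by
      field_simp; ring
    have h5 : 0 ≤ 12 / (12 * ((q : ℝ) + 1) + 13) / (q + 2) * (v * (1 / 4 - v)) :=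
      mul_nonneg (by positivity) (mul_nonneg hv0 (by linarith))
    rw [sub_mul, h4]
    nlinarith
  · have h1 := sig_sum hρ0 K q
    have h2 := sum_cos_pow (q + 1) (q + 1) (by omega)
    simp_rw [mul_pow]
    rw [Finset.sum_product' (f := fun (n i : ℤ) =>
      (|tau ρ n| ^ (((2 * q + 1 : ℕ) : ℝ)⁻¹)) ^ (2 * (q + 1)) * cos (π * i / L) ^ (2 * (q + 1))),
      ← Finset.sum_mul_sum, h2]
    rw [hb] at h1
    have h3 := mul_le_mul_of_nonneg_right h1 (show 0 ≤ (2 * (q : ℝ) + 1) * (L * I) by positivity)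
    have h4 := mul_le_mul_of_nonneg_right hm hL0.le
    have e : (12 : ℝ) / (12 * (q + 1) + 13) / 6 = 2 / (12 * (q + 1) + 13) := by
      field_simp; ring
    rw [e] at h3
    nlinarith

/-- the closed form constant -/
noncomputable def muGen (m : ℕ) : ℝ :=
  (m.centralBinom : ℝ) / 4 ^ m * (1 + 2 / (12 * m + 13) *
    (2 * m - (2 * m - 1) * (6 / ((12 * m + 13) * π ^ 2) : ℝ) ^ ((2 * m - 1 : ℝ)⁻¹)))

lemma rho_le_one (x : ℝ) (hx : 0 ≤ x) : (6 / ((12 * x + 13) * π ^ 2) : ℝ) ≤ 1 := by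
  have := pi_gt_three
  rw [div_le_one (by positivity)]
  nlinarith

lemma muGen_pos (q : ℕ) : 0 < muGen (q + 1) := by
  unfold muGen
  have h1 : (0 : ℝ) < (q + 1).centralBinom := by exact_mod_cast Nat.centralBinom_pos _
  have hq : (0 : ℝ) ≤ q := Nat.cast_nonneg q
  have hπ := pi_pos
  have h2 : (6 / ((12 * ((q + 1 : ℕ) : ℝ) + 13) * π ^ 2) : ℝ) ^ ((2 * ((q + 1 : ℕ) : ℝ) - 1)⁻¹) ≤ 1 :=
    rpow_le_one (by positivity) (rho_le_one _ (by positivity))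
      (inv_nonneg.2 (by push_cast; linarith))
  refine mul_pos (by positivity) (add_pos_of_pos_of_nonneg one_pos (mul_nonneg (by positivity) ?_))
  push_cast at h2 ⊢
  nlinarith

theorem both_gen (q : ℕ) : Both (q + 1) (muGen (q + 1)) := by
  refine both_limit (muGen_pos q) fun μ h0 h1 => ?_
  set ρ : ℝ := 6 / ((12 * (q + 1) + 13) * π ^ 2) with hρ
  set I : ℝ := ((q + 1).centralBinom : ℝ) / 4 ^ (q + 1) with hI
  have hT : Tendsto (fun K : ℕ => 2 * ρ * (π ^ 2 / 6 - ∑ n ∈ range (K + 1), 1 / (n : ℝ) ^ 2))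
      atTop (𝓝 0) := by
    have h := (hasSum_zeta_two.tendsto_sum_nat.comp (tendsto_add_atTop_nat 1)).const_sub (π ^ 2 / 6)
    simpa using h.const_mul (2 * ρ)
  have hT2 := hT.const_mul (I * (4 * (q + 1)))
  rw [mul_zero] at hT2
  obtain ⟨K, hK1, hK2⟩ := ((hT.eventually_le_const (show (0 : ℝ) < 1 / 2 by norm_num)).and
    (hT2.eventually_le_const (sub_pos.2 h1))).exists
  refine gen_cert q K hρ rfl hK1 h0 ?_
  unfold muGen at hK2
  have e : (2 * ((q + 1 : ℕ) : ℝ) - 1) = ((2 * q + 1 : ℕ) : ℝ) := by push_cast; ring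
  rw [e] at hK2
  push_cast at hK2 ⊢
  rw [← hρ, ← hI] at hK2
  rw [← hI]
  nlinarith

end Pool.Agent.P.MP_62e163_co
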