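import Pool.Agent.P.MP_62e163_co.Fejer

namespace Pool.Agent.P.MP_62e163_co

open Finset Fintype Real Filter

lemma tangent (q : ℕ) {p y : ℝ} (X : ℝ) (hy : 0 ≤ y) (hp : |p| ≤ y ^ (2 * q + 1)) :
    2 * (q + 1) * (p * X) - (2 * q + 1) * y ^ (2 * (q + 1)) ≤ X ^ (2 * (q + 1)) := by
  have h1 : p * X ≤ y ^ (2 * q + 1) * |X| :=
    (le_abs_self _).trans (by rw [abs_mul]; exact mul_le_mul_of_nonneg_right hp (abs_nonneg _))
  have h2 : X ^ (2 * (q + 1)) = |X| ^ (2 * (q + 1)) := ((even_two_mul _).pow_abs X).symm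
  rw [h2]
  have hx := abs_nonneg X
  generalize |X| = x at *
  have hq : (0 : ℝ) ≤ 2 * (q + 1) := by positivity
  have h3 := mul_le_mul_of_nonneg_left h1 hq
  rcases hy.eq_or_lt with rfl | hy
  · have : 0 ≤ x ^ (2 * (q + 1)) := by positivity
    simp only [ne_eq, Nat.add_eq_zero_iff, mul_eq_zero, OfNat.ofNat_ne_zero, false_or, one_ne_zero,
      and_false, not_false_eq_true, zero_pow, zero_mul, mul_zero, sub_zero] at h3 ⊢
    linarith
  · have h4 := one_add_mul_le_pow (a := x / y - 1)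
      (by have : 0 ≤ x / y := by positivity
          linarith) (2 * (q + 1))
    have h5 : (1 + (x / y - 1)) ^ (2 * (q + 1)) * y ^ (2 * (q + 1)) = x ^ (2 * (q + 1)) := by
      rw [← mul_pow]; congr 1; field_simp; ring
    have h6 := mul_le_mul_of_nonneg_right h4 (pow_pos hy (2 * (q + 1))).le
    rw [h5] at h6
    refine le_trans ?_ h6
    have h7 : (1 + ((2 * (q + 1) : ℕ) : ℝ) * (x / y - 1)) * y ^ (2 * (q + 1)) =
        2 * (q + 1) * (y ^ (2 * q + 1) * x) - (2 * q + 1) * y ^ (2 * (q + 1)) := by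
      push_cast; field_simp; ring
    rw [h7]; linarith

lemma hat_lower {L N : ℕ} (hL : 0 < L) (hN : 0 < N) (A : Finset ℤ) (d : ℤ) :
    |∑ a ∈ A, cos (2 * π * d * (((a : ℝ) - N / 2) / N) / L)| ≤ ‖hat (L * N) A d‖ := by
  have h1 : ∑ a ∈ A, cos (2 * π * d * (((a : ℝ) - N / 2) / N) / L) =
      (hat (L * N) A d * Complex.exp (((-(π * d / L) : ℝ) : ℂ) * Complex.I)).re := by
    rw [hat, Finset.sum_mul, Complex.re_sum]
    refine Finset.sum_congr rfl fun a _ => ?_
    rw [ec, ← Complex.exp_add, ← add_mul, ← Complex.ofReal_add, Complex.exp_ofReal_mul_I_re]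
    congr 1
    have : (L : ℝ) ≠ 0 := by positivity
    have : (N : ℝ) ≠ 0 := by positivity
    push_cast; field_simp; ring
  rw [h1]
  refine (Complex.abs_re_le_norm _).trans ?_
  rw [norm_mul, Complex.norm_exp_ofReal_mul_I, mul_one]

lemma dual {ι : Type} (s : Finset ι) (fr : ι → ℤ) (p y : ι → ℝ) (q L N : ℕ) (hL : 0 < L)
    (hN : 0 < N) (κ : ℝ) (hy : ∀ i ∈ s, 0 ≤ y i ∧ |p i| ≤ y i ^ (2 * q + 1))
    (hκ : ∀ t : ℝ, |t| ≤ 1 / 2 → κ ≤ ∑ i ∈ s, p i * cos (2 * π * (fr i) * t / L))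
    {A : Finset ℤ} (hA : A ⊆ Icc (1 : ℤ) N) (hk : 0 < A.card) :
    (A.card : ℝ) ^ (2 * (q + 1)) * (2 * (q + 1) * κ - (2 * q + 1) * ∑ i ∈ s, y i ^ (2 * (q + 1))) ≤
      ∑ i ∈ s, ‖hat (L * N) A (fr i)‖ ^ (2 * (q + 1)) := by
  have hk' : (0 : ℝ) < A.card := by exact_mod_cast hk
  have hN' : (0 : ℝ) < N := by exact_mod_cast hN
  set X : ι → ℝ := fun i => (∑ a ∈ A, cos (2 * π * (fr i) * (((a : ℝ) - N / 2) / N) / L)) / A.card
    with hX
  have h1 : κ ≤ ∑ i ∈ s, p i * X i := by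
    have : ∑ i ∈ s, p i * X i = (∑ a ∈ A, ∑ i ∈ s,
        p i * cos (2 * π * (fr i) * (((a : ℝ) - N / 2) / N) / L)) / A.card := by
      rw [Finset.sum_comm, Finset.sum_div]
      refine Finset.sum_congr rfl fun i _ => ?_
      rw [hX, ← Finset.mul_sum, mul_div_assoc]
    rw [this, le_div_iff₀ hk', mul_comm, ← nsmul_eq_mul]
    refine Finset.card_nsmul_le_sum _ _ _ fun a ha => hκ _ ?_
    have ha' := Finset.mem_Icc.1 (hA ha)
    have b1 : (1 : ℝ) ≤ a := by exact_mod_cast ha'.1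
    have b2 : (a : ℝ) ≤ N := by exact_mod_cast ha'.2
    rw [abs_le, le_div_iff₀ hN', div_le_iff₀ hN']
    constructor <;> linarith
  calc _ ≤ (A.card : ℝ) ^ (2 * (q + 1)) * ∑ i ∈ s, X i ^ (2 * (q + 1)) := by
        refine mul_le_mul_of_nonneg_left ?_ (by positivity)
        calc _ ≤ 2 * (q + 1) * (∑ i ∈ s, p i * X i) - (2 * q + 1) * ∑ i ∈ s, y i ^ (2 * (q + 1)) := by
              have : (0 : ℝ) ≤ 2 * (q + 1) := by positivity
              have := mul_le_mul_of_nonneg_left h1 this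
              linarith
          _ = ∑ i ∈ s, (2 * (q + 1) * (p i * X i) - (2 * q + 1) * y i ^ (2 * (q + 1))) := by
              rw [Finset.sum_sub_distrib, Finset.mul_sum, Finset.mul_sum]
          _ ≤ _ := Finset.sum_le_sum fun i hi => tangent q _ (hy i hi).1 (hy i hi).2
    _ ≤ _ := by
        rw [Finset.mul_sum]
        refine Finset.sum_le_sum fun i _ => ?_
        rw [← mul_pow, hX]
        simp only
        rw [mul_div_cancel₀ _ hk'.ne', ← (even_two_mul _).pow_abs]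
        exact pow_le_pow_left₀ (abs_nonneg _) (hat_lower hL hN A (fr i)) _

lemma bound_of_ineq (h L J0 : ℕ) (W μ B : ℝ) (hW : 0 < W) (hμ : 0 < μ) (hL : 0 < L) (hB : 0 ≤ B)
    (H : ∀ J N : ℕ, 0 < N → J ≤ N → ∀ A : Finset ℤ, A ⊆ Icc (1 : ℤ) N → IsBh h A → 0 < A.card →
      ((J : ℝ) - 2 * J0) * (μ * L) * (A.card : ℝ) ^ h * A.card ≤
        W * (J * (L * N)) * A.card + (J : ℝ) ^ 2 * B * (A.card : ℝ) ^ h) :
    Bound h (W / μ) := by
  intro ε hε
  have hL' : (0 : ℝ) < L := by exact_mod_cast hL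
  set C := W / μ with hC
  have hCpos : 0 < C := by positivity
  set η := ε / (C + ε) with hη
  have hη0 : 0 < η := by positivity
  have hη1 : (1 - η) * (C + ε) = C := by rw [hη]; field_simp; ring
  obtain ⟨J, hJ⟩ := exists_nat_ge (4 * J0 / η + 1)
  have hJ0 : (0 : ℝ) < J := lt_of_lt_of_le (by positivity) hJ
  have hJ1 : 4 * (J0 : ℝ) ≤ η * J := by
    have : 4 * J0 / η ≤ J := by linarith
    rw [div_le_iff₀ hη0] at this; linarith
  set k0 : ℝ := 2 * J * B / (η * (μ * L)) + 1 with hk0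
  have hk00 : 0 < k0 := by positivity
  filter_upwards [eventually_ge_atTop J, eventually_gt_atTop 0,
    tendsto_natCast_atTop_atTop.eventually_ge_atTop (k0 ^ h / ε)] with N hNJ hN0 hNk A hA hBh
  have hN' : (0 : ℝ) < N := by exact_mod_cast hN0
  rcases lt_or_ge (A.card : ℝ) k0 with hk | hk
  · have h1 : (A.card : ℝ) ^ h ≤ k0 ^ h := pow_le_pow_left₀ (Nat.cast_nonneg _) hk.le _
    rw [div_le_iff₀ hε] at hNk
    nlinarith
  · have hk' : (0 : ℝ) < A.card := hk00.trans_le hk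
    have h1 := H J N hN0 hNJ A hA hBh (by exact_mod_cast hk')
    generalize (A.card : ℝ) = k at *
    have hx : 0 < k ^ h := pow_pos hk' h
    generalize k ^ h = x at *
    have hμL : 0 < μ * L := by positivity
    have h2 : 2 * J * B ≤ η * (μ * L) * k := by
      have : 2 * J * B / (η * (μ * L)) ≤ k := by linarith
      rw [div_le_iff₀ (by positivity)] at this; linarith
    have h3 : (J : ℝ) ^ 2 * B * x ≤ η / 2 * J * (μ * L) * x * k := by
      have := mul_le_mul_of_nonneg_left h2 (show 0 ≤ J * x / 2 by positivity)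
      nlinarith
    have h4 : (1 - η / 2) * J * (μ * L) * x * k ≤ ((J : ℝ) - 2 * J0) * (μ * L) * x * k := by
      have : (1 - η / 2) * J ≤ (J : ℝ) - 2 * J0 := by linarith
      gcongr
    have h5 : (J * L * k * μ) * ((1 - η) * x) ≤ (J * L * k * μ) * (C * N) := by
      have : W = C * μ := by rw [hC]; field_simp
      rw [this] at h1
      nlinarith
    have h6 : (1 - η) * x ≤ C * N := le_of_mul_le_mul_left h5 (by positivity)
    have h7 : 0 < 1 - η := by
      by_contra hneg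
      have : (1 - η) * (C + ε) ≤ 0 := mul_nonpos_of_nonpos_of_nonneg (not_lt.1 hneg) (by positivity)
      linarith
    have : (1 - η) * x ≤ (1 - η) * ((C + ε) * N) := by rw [← mul_assoc, hη1]; exact h6
    exact le_of_mul_le_mul_left this h7

/-- both parities -/
def Both (m : ℕ) (μ : ℝ) : Prop :=
  Bound (2 * m) ((m.factorial : ℝ) ^ 2 / μ) ∧
    Bound (2 * m - 1) ((m.factorial : ℝ) * (m - 1).factorial / μ)

theorem main {ι : Type} (s : Finset ι) (fr : ι → ℤ) (hinj : Set.InjOn fr s) (p y : ι → ℝ)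
    (q L : ℕ) (hL : 2 * (q + 1) ≤ L) (κ μ : ℝ) (hμ : 0 < μ)
    (hy : ∀ i ∈ s, 0 ≤ y i ∧ |p i| ≤ y i ^ (2 * q + 1))
    (hκ : ∀ t : ℝ, |t| ≤ 1 / 2 → κ ≤ ∑ i ∈ s, p i * cos (2 * π * (fr i) * t / L))
    (hm : μ * L ≤ 2 * (q + 1) * κ - (2 * q + 1) * ∑ i ∈ s, y i ^ (2 * (q + 1))) :
    Both (q + 1) μ := by
  classical
  have hL0 : 0 < L := by omega
  set J0 := s.sup fun i => (fr i).natAbs with hJ0
  have key : ∀ J N : ℕ, 0 < N → ∀ A : Finset ℤ, A ⊆ Icc (1 : ℤ) N → 0 < A.card →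
      ((J : ℝ) - 2 * J0) * (μ * L) * (A.card : ℝ) ^ (2 * (q + 1)) ≤ En (L * N) J (q + 1) A := by
    intro J N hN A hA hk
    have hE : 0 ≤ En (L * N) J (q + 1) A :=
      Finset.sum_nonneg fun _ _ => Finset.sum_nonneg fun _ _ => by positivity
    rcases le_or_gt ((J : ℝ) - 2 * J0) 0 with hJ | hJ
    · refine le_trans ?_ hE
      rw [mul_assoc]
      exact mul_nonpos_of_nonpos_of_nonneg hJ (by positivity)
    refine le_trans ?_ (En_ge (L * N) J (q + 1) J0 A)
    rw [mul_assoc]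
    refine mul_le_mul_of_nonneg_left ?_ hJ.le
    calc _ ≤ (A.card : ℝ) ^ (2 * (q + 1)) *
          (2 * (q + 1) * κ - (2 * q + 1) * ∑ i ∈ s, y i ^ (2 * (q + 1))) := by
          rw [mul_comm]; exact mul_le_mul_of_nonneg_left hm (by positivity)
      _ ≤ _ := dual s fr p y q L N hL0 hN κ hy hκ hA hk
      _ = ∑ d ∈ s.image fr, ‖hat (L * N) A d‖ ^ (2 * (q + 1)) := by rw [Finset.sum_image hinj]
      _ ≤ _ := by
          refine Finset.sum_le_sum_of_subset_of_nonneg ?_ fun _ _ _ => by positivity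
          intro d hd
          obtain ⟨i, hi, rfl⟩ := Finset.mem_image.1 hd
          have : (fr i).natAbs ≤ J0 := Finset.le_sup (f := fun i => (fr i).natAbs) hi
          rw [Finset.mem_Icc]; omega
  have hJL : ∀ J N : ℕ, J ≤ N → J ≤ L * N := fun J N h => h.trans (Nat.le_mul_of_pos_left N hL0)
  constructor
  · refine bound_of_ineq _ L J0 _ μ (((q : ℝ) + 1) ^ 2) (by positivity) hμ hL0 (by positivity) ?_
    intro J N hN hJ A hA hB hk
    have h1 := key J N hN A hA hk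
    have h2 := upper_one (p := q + 1) (q := q + 1) (m := q + 1) (by rwa [← two_mul]) hA hL
      (hJL J N hJ) 0 le_rfl (by simp) (by push_cast; omega)
    rw [En_even, ← two_mul] at h2
    refine (mul_le_mul_of_nonneg_right h1 (Nat.cast_nonneg _)).trans (h2.trans (le_of_eq ?_))
    push_cast; ring
  · have e1 : 2 * (q + 1) - 1 = q + 1 + q := by omega
    rw [e1, Nat.add_sub_cancel]
    refine bound_of_ineq _ L J0 _ μ (((q : ℝ) + 1) * q) (by positivity) hμ hL0 (by positivity) ?_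
    intro J N hN hJ A hA hB hk
    have hk' : (0 : ℝ) < A.card := by exact_mod_cast hk
    have h1 := key J N hN A hA hk
    have h2 : En (L * N) J (q + 1) A * A.card ≤ ∑ _c ∈ A,
        (((q + 1).factorial * q.factorial : ℕ) * (J * (L * N : ℕ)) * (A.card : ℝ) +
        (J : ℝ) ^ 2 * ((q + 1 : ℕ) * q * (A.card : ℝ) ^ (q + 1 + q))) := by
      rw [← En_odd, Finset.sum_mul]
      refine Finset.sum_le_sum fun c hc => ?_
      have hc' := Finset.mem_Icc.1 (hA hc)
      exact upper_one (m := q + 1) hB hA hL (hJL J N hJ) c le_rfl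
        (by push_cast; linarith [hc'.2]) (by have := Int.natCast_nonneg q; linarith [hc'.1])
    rw [Finset.sum_const, nsmul_eq_mul, mul_comm (A.card : ℝ)] at h2
    have h3 := le_of_mul_le_mul_right h2 hk'
    have e2 : (A.card : ℝ) ^ (2 * (q + 1)) = (A.card : ℝ) ^ (q + 1 + q) * A.card := by
      rw [← pow_succ]; congr 1; omega
    rw [e2, ← mul_assoc] at h1
    refine h1.trans (h3.trans (le_of_eq ?_))
    push_cast; ring

lemma Bound.mono {h : ℕ} {C C' : ℝ} (H : Bound h C) (hC : C ≤ C') : Bound h C' := by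
  intro ε hε
  filter_upwards [H ε hε] with N hN A hA hB
  exact (hN A hA hB).trans (mul_le_mul_of_nonneg_right (by linarith) (Nat.cast_nonneg _))

lemma Both.mono {m : ℕ} {μ μ' : ℝ} (H : Both m μ) (h0 : 0 < μ') (h : μ' ≤ μ) : Both m μ' :=
  ⟨H.1.mono (div_le_div_of_nonneg_left (by positivity) h0 h),
    H.2.mono (div_le_div_of_nonneg_left (by positivity) h0 h)⟩

lemma bound_limit {h : ℕ} {W μ : ℝ} (hW : 0 < W) (hμ : 0 < μ)
    (H : ∀ μ', 0 < μ' → μ' < μ → Bound h (W / μ')) : Bound h (W / μ) := by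
  intro ε hε
  have h1 : 0 < W / μ + ε / 2 := by positivity
  have h2 : W / (W / μ + ε / 2) < μ := by
    rw [div_lt_iff₀ h1, mul_add, mul_div_cancel₀ _ hμ.ne']
    have : 0 < μ * (ε / 2) := by positivity
    linarith
  have h3 : W / (W / (W / μ + ε / 2)) = W / μ + ε / 2 := by field_simp
  filter_upwards [H _ (by positivity) h2 (ε / 2) (by positivity)] with N hN A hA hB
  have := hN A hA hB
  rw [h3] at this
  refine this.trans (le_of_eq ?_)
  ring

lemma both_limit {m : ℕ} {μ : ℝ} (hμ : 0 < μ) (H : ∀ μ', 0 < μ' → μ' < μ → Both m μ') :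
    Both m μ :=
  ⟨bound_limit (by positivity) hμ fun μ' a b => (H μ' a b).1,
    bound_limit (by positivity) hμ fun μ' a b => (H μ' a b).2⟩

end Pool.Agent.P.MP_62e163_co
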