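import Pool.Agent.P.MP_62e163_co.T8

namespace Pool.Agent.P.MP_62e163_co

def dat10_0 (r : Dat) : Dat :=
  (false, 82525581005, 9899424) :: (false, 46043287084, 9600015) :: (false, 16968466062, 9108668) ::
  (false, 3956167128, 8436695) :: (false, 543224601, 7599559) :: (false, 39078399, 6616499) ::
  (false, 1207839, 5510086) :: (false, 11137, 4305678) :: (false, 14, 3030828) ::
  (false, 0, 0) :: (false, 0, 0) :: (false, 0, 0) ::
  (false, 0, 0) :: (true, 103, 3366696) :: (true, 20657, 4447969) ::
  (true, 830501, 5402526) :: (true, 11701336, 6209620) :: (true, 75964874, 6852069) ::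
  (true, 264201687, 7316652) :: (true, 536265966, 7594404) :: (true, 664873145, 7680815) ::
  (true, 511994958, 7575914) :: (true, 242840474, 7284258) :: (true, 68486017, 6814794) ::
  (true, 10706072, 6180636) :: (true, 819478, 5398728) :: (true, 24638, 4489423) ::
  (true, 190, 3475983) :: (false, 0, 0) :: (false, 0, 0) ::
  (false, 0, 0) :: (false, 0, 0) :: (false, 0, 0) ::
  (false, 61, 3275650) :: (false, 8797, 4252555) :: (false, 297814, 5118645) ::
  (false, 3807428, 5853312) :: (false, 23328653, 6439265) :: (false, 78287538, 6862939) ::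
  (false, 155270485, 7114798) :: (false, 189381781, 7189555) :: (false, 143861814, 7086278) ::
  (false, 67273883, 6808392) :: (false, 18634856, 6363578) :: (false, 2838795, 5763566) ::
  (false, 208772, 5023836) :: (false, 5876, 4163218) :: (false, 40, 3203424) ::
  (false, 0, 0) :: (false, 0, 0) :: (false, 0, 0) ::
  (false, 0, 0) :: (false, 0, 0) :: (true, 40, 3205550) ::
  (true, 5144, 4134163) :: (true, 162042, 4957282) :: (true, 1978069, 5655015) ::
  (true, 11737263, 6210622) :: (true, 38456180, 6610912) :: (true, 74812807, 6846560) ::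
  r

def dat10_1 (r : Dat) : Dat :=
  (true, 89711001, 6912314) :: (true, 67035854, 6807122) :: (true, 30801558, 6534134) ::
  (true, 8358060, 6100620) :: (true, 1240255, 5517772) :: (true, 87964, 4800422) ::
  (true, 2344, 3966665) :: (true, 14, 3037407) :: (false, 0, 0) ::
  (false, 0, 0) :: (false, 0, 0) :: (false, 0, 0) ::
  (false, 0, 0) :: (false, 31, 3160163) :: (false, 3593, 4056809) ::
  (false, 107304, 4850896) :: (false, 1263261, 5523112) :: (false, 7297255, 6057195) ::
  (false, 23401933, 6440328) :: (false, 44696403, 6663441) :: (false, 52695900, 6721434) ::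
  (false, 38718970, 6613282) :: (false, 17473209, 6342057) :: (false, 4644324, 5914844) ::
  (false, 671774, 5342550) :: (false, 46045, 4639634) :: (false, 1167, 3823739) ::
  (false, 6, 2915252) :: (false, 0, 0) :: (false, 0, 0) ::
  (false, 0, 0) :: (false, 0, 0) :: (false, 0, 0) ::
  (true, 26, 3130356) :: (true, 2787, 4002923) :: (true, 79468, 4774827) ::
  (true, 905697, 5427228) :: (true, 5103562, 5944271) :: (true, 16036080, 6313473) ::
  (true, 30082543, 6526016) :: (true, 34872761, 6576966) :: (true, 25193489, 6465381) ::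
  (true, 11165866, 6194330) :: (true, 2907340, 5770808) :: (true, 410086, 5205556) ::
  (true, 27192, 4512789) :: (true, 657, 3709843) :: (true, 3, 2816737) ::
  (false, 0, 0) :: (false, 0, 0) :: (false, 0, 0) ::
  (false, 0, 0) :: (false, 0, 0) :: (false, 23, 3110839) ::
  (false, 2314, 3963977) :: (false, 63240, 4717767) :: (false, 699099, 5353773) ::
  (false, 3846935, 5856493) :: (false, 11849694, 6213739) :: (false, 21838489, 6416933) ::
  r

def dat10_2 (r : Dat) : Dat :=
  (false, 24893787, 6461310) :: (false, 17682468, 6346032) :: (false, 7696489, 6074200) ::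
  (false, 1963221, 5652773) :: (false, 270092, 5092391) :: (false, 17334, 4407103) ::
  (false, 399, 3614020) :: (false, 1, 2732886) :: (false, 0, 0) ::
  (false, 0, 0) :: (false, 0, 0) :: (false, 0, 0) ::
  (false, 0, 0) :: (true, 21, 3098539) :: (true, 2016, 3935302) ::
  (true, 52905, 4673668) :: (true, 567948, 5295549) :: (true, 3053831, 5785758) ::
  (true, 9224611, 6132377) :: (true, 16704137, 6327050) :: (true, 18724192, 6365180) ::
  (true, 13076547, 6246042) :: (true, 5589467, 5972792) :: (true, 1396728, 5552385) ::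
  (true, 187427, 4995399) :: (true, 11644, 4315769) :: (true, 256, 3530437) ::
  (true, 1, 2658932) :: (false, 0, 0) :: (false, 0, 0) ::
  (false, 0, 0) :: (false, 0, 0) :: (false, 0, 0) ::
  (false, 20, 3091572) :: (false, 1819, 3914110) :: (false, 45917, 4638950) ::
  (false, 479046, 5248315) :: (false, 2517959, 5727300) :: (false, 7460166, 6064238) ::
  (false, 13274374, 6250980) :: (false, 14631882, 6283096) :: (false, 10046251, 6159978) ::
  (false, 4216698, 5884850) :: (false, 1032141, 5464686) :: (false, 135082, 4910031) ::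
  (false, 8122, 4234737) :: (false, 170, 3455620) :: (false, 0, 0) ::
  (false, 0, 0) :: (false, 0, 0) :: (false, 0, 0) ::
  (false, 0, 0) :: (false, 0, 0) :: (true, 20, 3088716) ::
  (true, 1687, 3898617) :: (true, 40992, 4611333) :: (true, 415834, 5209371) ::
  (true, 2137147, 5678084) :: (true, 6211189, 6006039) :: (true, 10860119, 6185285) ::
  r

def dat10_3 (r : Dat) : Dat :=
  (true, 11770774, 6211554) :: (true, 7944753, 6084358) :: (true, 3274056, 5807001) ::
  (true, 784886, 5386487) :: (true, 100165, 4833351) :: (true, 5828, 4161390) ::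
  (true, 116, 3387320) :: (false, 0, 0) :: (false, 0, 0) ::
  (false, 0, 0) :: (false, 0, 0) :: (false, 0, 0) ::
  (false, 0, 0) :: (false, 20, 3089158) :: (false, 1599, 3887632) ::
  (false, 37426, 4589295) :: (false, 369268, 5176910) :: (false, 1855923, 5636076) ::
  (false, 5291152, 5955575) :: (false, 9090415, 6127649) :: (false, 9687111, 6148187) ::
  (false, 6426625, 6016827) :: (false, 2599827, 5736953) :: (false, 610271, 5315619) ::
  (false, 75919, 4763360) :: (false, 4272, 4093939) :: (false, 81, 3323996) ::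
  (false, 0, 0) :: (false, 0, 0) :: (false, 0, 0) ::
  (false, 0, 0) :: (false, 0, 0) :: (false, 0, 0) ::
  (true, 20, 3092327) :: (true, 1543, 3880321) :: (true, 34801, 4571764) ::
  (true, 334037, 5149662) :: (true, 1641851, 5599838) :: (true, 4591515, 5911285) ::
  (true, 7750304, 6076428) :: (true, 8119090, 6091313) :: (true, 5293262, 5955700) ::
  (true, 2101560, 5673068) :: (true, 482887, 5250521) :: (true, 58536, 4698613) ::
  (true, 3184, 4031086) :: (true, 57, 3264525) :: (false, 0, 0) ::
  (false, 0, 0) :: (false, 0, 0) :: (false, 0, 0) ::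
  (false, 0, 0) :: (false, 0, 0) :: (false, 21, 3097831) ::
  (false, 1511, 3876097) :: (false, 32860, 4557981) :: (false, 306861, 5126714) ::
  (false, 1474970, 5568336) :: (false, 4045662, 5872039) :: (false, 6708311, 6030427) ::
  r

def dat10_4 (r : Dat) : Dat :=
  (false, 6907061, 6039701) :: (false, 4424196, 5899747) :: (false, 1723370, 5614138) ::
  (false, 387476, 5190041) :: (false, 45746, 4638039) :: (false, 2403, 3971866) ::
  (false, 41, 3208065) :: (false, 0, 0) :: (false, 0, 0) ::
  (false, 0, 0) :: (false, 0, 0) :: (false, 0, 0) ::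
  (false, 0, 0) :: (true, 22, 3105391) :: (true, 1500, 3874536) ::
  (true, 31439, 4547387) :: (true, 285618, 5107393) :: (true, 1342384, 5540800) ::
  (true, 3610700, 5836991) :: (true, 5880063, 5988746) :: (true, 5949000, 5992421) ::
  (true, 3742663, 5848029) :: (true, 1429868, 5559242) :: (true, 314435, 5133297) ::
  (true, 36133, 4580813) :: (true, 1832, 3915529) :: (true, 30, 3153959) ::
  (false, 0, 0) :: (false, 0, 0) :: (false, 0, 0) ::
  (false, 0, 0) :: (false, 0, 0) :: (false, 0, 0) ::
  (false, 23, 3114807) :: (false, 1506, 3875319) :: (false, 30427, 4539560) ::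
  (false, 268878, 5091183) :: (false, 1235400, 5516633) :: (false, 3257822, 5805482) ::
  (false, 5209164, 5950682) :: (false, 5176992, 5948742) :: (false, 3197812, 5799804) ::
  (false, 1197713, 5507645) :: (false, 257467, 5079576) :: (false, 28777, 4526264) ::
  (false, 1406, 3861459) :: (false, 21, 3101660) :: (false, 0, 0) ::
  (false, 0, 0) :: (false, 0, 0) :: (false, 0, 0) ::
  (false, 0, 0) :: (false, 0, 0) :: (true, 25, 3125956) ::
  (true, 1527, 3878232) :: (true, 29751, 4534198) :: (true, 255670, 5077704) ::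
  (true, 1148079, 5495390) :: (true, 2967304, 5777012) :: (true, 4656992, 5915692) ::
  r

def dat10_5 (r : Dat) : Dat :=
  (true, 4544621, 5908092) :: (true, 2755034, 5754488) :: (true, 1011091, 5458763) ::
  (true, 212335, 5028312) :: (true, 23064, 4473851) :: (true, 1085, 3809157) ::
  (true, 15, 3050721) :: (false, 0, 0) :: (false, 0, 0) ::
  (false, 0, 0) :: (false, 0, 0) :: (false, 0, 0) ::
  (false, 0, 0) :: (false, 27, 3138755) :: (false, 1564, 3883112) ::
  (false, 29363, 4531065) :: (false, 245306, 5066657) :: (false, 1076170, 5476714) ::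
  (false, 2725044, 5751174) :: (false, 4196080, 5883332) :: (false, 4019080, 5870002) ::
  (false, 2389960, 5711595) :: (false, 858936, 5412107) :: (false, 176088, 4979019) ::
  (false, 18570, 4423111) :: (false, 840, 3758188) :: (false, 11, 3000745) ::
  (false, 0, 0) :: (false, 0, 0) :: (false, 0, 0) ::
  (false, 0, 0) :: (false, 0, 0) :: (false, 0, 0) ::
  (true, 29, 3153159) :: (true, 1617, 3889847) :: (true, 29230, 4529984) ::
  (true, 237285, 5057800) :: (true, 1016546, 5460309) :: (true, 2520700, 5727628) ::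
  (true, 3806304, 5853221) :: (true, 3576395, 5834059) :: (true, 2084899, 5670692) ::
  (true, 733260, 5367233) :: (true, 146620, 4931257) :: (true, 14995, 4373608) ::
  (true, 651, 3708135) :: (true, 8, 2951343) :: (false, 0, 0) ::
  (false, 0, 0) :: (false, 0, 0) :: (false, 0, 0) ::
  (false, 0, 0) :: (false, 0, 0) :: (false, 32, 3169201) ::
  (false, 1686, 3898410) :: (false, 29339, 4530870) :: (false, 231294, 5050997) ::
  (false, 967064, 5445987) :: (false, 2346946, 5706138) :: (false, 3473328, 5825087) ::
  r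

def dat10_6 (r : Dat) : Dat :=
  (false, 3199457, 5799961) :: (false, 1827211, 5631453) :: (false, 628366, 5323800) ::
  (false, 122426, 4884674) :: (false, 12126, 4324997) :: (false, 504, 3658663) ::
  (false, 6, 2902198) :: (false, 0, 0) :: (false, 0, 0) ::
  (false, 0, 0) :: (false, 0, 0) :: (false, 0, 0) ::
  (false, 0, 0) :: (true, 36, 3186904) :: (true, 1773, 3908768) ::
  (true, 29681, 4533638) :: (true, 227078, 5046109) :: (true, 925996, 5433563) ::
  (true, 2197980, 5686478) :: (true, 3185870, 5798662) :: (true, 2874966, 5767408) ::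
  (true, 1607190, 5593553) :: (true, 539921, 5281463) :: (true, 102380, 4838918) ::
  (true, 9805, 4276919) :: (true, 390, 3609419) :: (true, 4, 2852971) ::
  (false, 0, 0) :: (false, 0, 0) :: (false, 0, 0) ::
  (false, 0, 0) :: (false, 0, 0) :: (false, 0, 0) ::
  (false, 41, 3206325) :: (false, 1880, 3920926) :: (false, 30258, 4538236) ::
  (false, 224461, 5043031) :: (false, 892000, 5422877) :: (false, 2069189, 5668435) ::
  (false, 2935051, 5773690) :: (false, 2592501, 5736101) :: (false, 1417293, 5556658) ::
  (false, 464597, 5239862) :: (false, 85621, 4793606) :: (false, 7915, 4228982) ::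
  (false, 300, 3560007) :: (false, 3, 2803269) :: (false, 0, 0) ::
  (false, 0, 0) :: (false, 0, 0) :: (false, 0, 0) ::
  (false, 0, 0) :: (false, 0, 0) :: (true, 46, 3227624) ::
  (true, 2013, 3934988) :: (true, 31090, 4544712) :: (true, 223382, 5041753) ::
  (true, 864253, 5413865) :: (true, 1957416, 5651892) :: (true, 2714503, 5750001) ::
  r

def dat10_7 (r : Dat) : Dat :=
  (true, 2344493, 5705824) :: (true, 1252005, 5520511) :: (true, 399950, 5198704) ::
  (true, 71520, 4748417) :: (true, 6368, 4180844) :: (true, 229, 3510071) ::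
  (true, 2, 2752736) :: (false, 0, 0) :: (false, 0, 0) ::
  (false, 0, 0) :: (false, 0, 0) :: (false, 0, 0) ::
  (false, 0, 0) :: (false, 53, 3250954) :: (false, 2175, 3951053) ::
  (false, 32199, 4553107) :: (false, 223808, 5042258) :: (false, 842026, 5406446) ::
  (false, 1859887, 5636709) :: (false, 2518794, 5727400) :: (false, 2124624, 5676328) ::
  (false, 1106814, 5484813) :: (false, 344016, 5157646) :: (false, 59577, 4702975) ::
  (false, 5096, 4132100) :: (false, 173, 3459191) :: (false, 1, 2700939) ::
  (false, 0, 0) :: (false, 0, 0) :: (false, 0, 0) ::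
  (false, 0, 0) :: (false, 0, 0) :: (false, 0, 0) ::
  (true, 62, 3276534) :: (true, 2374, 3969278) :: (true, 33626, 4563511) ::
  (true, 225760, 5044563) :: (true, 824801, 5400568) :: (true, 1774358, 5622760) ::
  (true, 2343424, 5705687) :: (true, 1927718, 5647346) :: (true, 978078, 5449234) ::
  (true, 295236, 5116304) :: (true, 49401, 4656845) :: (true, 4047, 4082276) ::
  (true, 130, 3406861) :: (true, 1, 2647356) :: (false, 0, 0) ::
  (false, 0, 0) :: (false, 0, 0) :: (false, 0, 0) ::
  (false, 0, 0) :: (false, 0, 0) :: (false, 73, 3304684) ::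
  (false, 2619, 3989911) :: (false, 35432, 4576096) :: (false, 229354, 5048758) ::
  (false, 812312, 5396233) :: (false, 1699164, 5609960) :: (false, 2184894, 5684691) ::
  r

def dat10_8 (r : Dat) : Dat :=
  (false, 1749711, 5618622) :: (false, 862962, 5413439) :: (false, 252403, 5074268) ::
  (false, 40692, 4609553) :: (false, 3180, 4030845) :: (false, 95, 3352514) ::
  (false, 0, 0) :: (false, 0, 0) :: (false, 0, 0) ::
  (false, 0, 0) :: (false, 0, 0) :: (false, 0, 0) ::
  (false, 0, 0) :: (true, 87, 3335788) :: (true, 2927, 4013253) ::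
  (true, 37701, 4591066) :: (true, 234754, 5054946) :: (true, 804352, 5393437) ::
  (true, 1632717, 5598194) :: (true, 2039924, 5664187) :: (true, 1586954, 5589824) ::
  (true, 759011, 5376992) :: (true, 214508, 5031007) :: (true, 33205, 4560485) ::
  (true, 2464, 3977120) :: (true, 69, 3295405) :: (false, 0, 0) ::
  (false, 0, 0) :: (false, 0, 0) :: (false, 0, 0) ::
  (false, 0, 0) :: (false, 0, 0) :: (false, 0, 0) ::
  (false, 106, 3370386) :: (false, 3316, 4039736) :: (false, 40555, 4608734) ::
  (false, 242241, 5063306) :: (false, 800908, 5392219) :: (false, 1573700, 5587357) ::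
  (false, 1905632, 5643922) :: (false, 1436283, 5560552) :: (false, 664184, 5339356) ::
  (false, 180739, 4985855) :: (false, 26745, 4508854) :: (false, 1874, 3920215) ::
  (false, 48, 3234563) :: (false, 0, 0) :: (false, 0, 0) ::
  (false, 0, 0) :: (false, 0, 0) :: (false, 0, 0) ::
  (false, 0, 0) :: (true, 1, 2663691) :: (true, 131, 3409232) ::
  (true, 3821, 4069975) :: (true, 44182, 4629557) :: (true, 252267, 5074124) ::
  (true, 802210, 5392680) :: (true, 1521034, 5577356) :: (true, 1779449, 5623608) ::
  r

def dat10_9 (r : Dat) : Dat :=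
  (true, 1294973, 5530324) :: (true, 576791, 5299857) :: (true, 150454, 4937961) ::
  (true, 21164, 4453651) :: (true, 1389, 3858976) :: (true, 32, 3168721) ::
  (false, 0, 0) :: (false, 0, 0) :: (false, 0, 0) ::
  (false, 0, 0) :: (false, 0, 0) :: (false, 0, 0) ::
  (false, 1, 2715906) :: (false, 168, 3453320) :: (false, 4492, 4104776) ::
  (false, 48856, 4654123) :: (false, 265450, 5087746) :: (false, 808522, 5394905) ::
  (false, 1473310, 5568006) :: (false, 1658323, 5602781) :: (false, 1160086, 5498400) ::
  (false, 495207, 5257488) :: (false, 123089, 4886063) :: (false, 16337, 4393380) ::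
  (false, 995, 3791705) :: (false, 21, 3096012) :: (false, 0, 0) ::
  (false, 0, 0) :: (false, 0, 0) :: (false, 0, 0) ::
  (false, 0, 0) :: (false, 0, 0) :: (true, 2, 2775625) ::
  (true, 222, 3504156) :: (true, 5416, 4145372) :: (true, 55026, 4683350) ::
  (true, 282811, 5104739) :: (true, 820511, 5399086) :: (true, 1429164, 5559098) ::
  (true, 1539110, 5580825) :: (true, 1028797, 5463753) :: (true, 418043, 5210824) ::
  (true, 98216, 4828355) :: (true, 12173, 4325886) :: (true, 678, 3715940) ::
  (true, 12, 3013713) :: (false, 0, 0) :: (false, 0, 0) ::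
  (false, 0, 0) :: (false, 0, 0) :: (false, 0, 0) ::
  (false, 0, 0) :: (false, 4, 2845403) :: (false, 306, 3563956) ::
  (false, 6746, 4193564) :: (false, 63442, 4718561) :: (false, 305927, 5125891) ::
  (false, 839009, 5405425) :: (false, 1386421, 5550221) :: (false, 1417457, 5556692) ::
  r

def dat10_10 (r : Dat) : Dat :=
  (false, 897709, 5424698) :: (false, 343893, 5157549) :: (false, 75485, 4761923) ::
  (false, 8608, 4247701) :: (false, 429, 3627718) :: (false, 6, 2917446) ::
  (false, 0, 0) :: (false, 0, 0) :: (false, 0, 0) ::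
  (false, 0, 0) :: (false, 0, 0) :: (false, 0, 0) ::
  (true, 7, 2929394) :: (true, 449, 3636325) :: (true, 8786, 4252288) ::
  (true, 75481, 4761910) :: (true, 337521, 5152475) :: (true, 865379, 5414236) ::
  (true, 1341758, 5540664) :: (true, 1287369, 5528610) :: (true, 762759, 5378386) ::
  (true, 271469, 5093754) :: (true, 54690, 4681839) :: (true, 5607, 4152947) ::
  (true, 242, 3520312) :: (true, 3, 2799764) :: (false, 0, 0) ::
  (false, 0, 0) :: (false, 0, 0) :: (false, 0, 0) ::
  (false, 0, 0) :: (false, 0, 0) :: (false, 14, 3034688) ::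
  (false, 718, 3727384) :: (false, 12204, 4326467) :: (false, 93885, 4816909) ::
  (false, 382346, 5186402) :: (false, 900760, 5425667) :: (false, 1287718, 5528689) ::
  (false, 1138113, 5492869) :: (false, 617894, 5319093) :: (false, 199404, 5011712) ::
  (false, 35778, 4578432) :: (false, 3170, 4030130) :: (false, 112, 3380577) ::
  (false, 1, 2646098) :: (false, 0, 0) :: (false, 0, 0) ::
  (false, 0, 0) :: (false, 0, 0) :: (false, 0, 0) ::
  (false, 0, 0) :: (true, 34, 3175319) :: (true, 1324, 3849212) ::
  (true, 18781, 4425733) :: (true, 125120, 4890272) :: (true, 449950, 5231035) ::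
  (true, 944905, 5439347) :: (true, 1206940, 5509870) :: (true, 949540, 5440748) ::
  r

def dat10_11 (r : Dat) : Dat :=
  (true, 454256, 5233658) :: (true, 126833, 4893774) :: (true, 19098, 4429643) ::
  (true, 1349, 3852976) :: (true, 34, 3178356) :: (false, 0, 0) ::
  (false, 0, 0) :: (false, 0, 0) :: (false, 0, 0) ::
  (false, 0, 0) :: (false, 0, 0) :: (false, 1, 2651919) ::
  (false, 114, 3384537) :: (false, 3171, 4030246) :: (false, 34882, 4572325) ::
  (false, 188329, 4996661) :: (false, 561003, 5292121) :: (false, 983576, 5450842) ::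
  (false, 1045729, 5468449) :: (false, 675691, 5344185) :: (false, 258788, 5080945) ::
  (false, 55446, 4685223) :: (false, 5978, 4166971) :: (false, 268, 3539357) ::
  (false, 3, 2818461) :: (false, 0, 0) :: (false, 0, 0) ::
  (false, 0, 0) :: (false, 0, 0) :: (false, 0, 0) ::
  (false, 0, 0) :: (true, 19, 3084824) :: (true, 926, 3777446) ::
  (true, 14632, 4367979) :: (true, 102542, 4839322) :: (true, 369682, 5177216) ::
  (true, 742092, 5370616) :: (true, 858604, 5411997) :: (true, 572086, 5297573) ::
  (true, 211619, 5027419) ::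
  r

def dat10 : Dat :=
  dat10_0 (dat10_1 (dat10_2 (dat10_3 (dat10_4 (dat10_5 (dat10_6 (dat10_7 (dat10_8 (dat10_9 (dat10_10 (dat10_11 [])))))))))))

def grid10_0_0 (r : List (ℕ × ℕ)) : List (ℕ × ℕ) :=
  (130, 132) :: (262, 138) :: (400, 148) :: (548, 158) :: (706, 166) ::
  (872, 166) :: (1030, 158) :: (1184, 154) :: (1332, 148) :: (1470, 138) ::
  r

def grid10_0 : List (ℕ × ℕ) :=
  grid10_0_0 []

theorem seg10_0 : sgc 396459 148159269708 dat10 0 130 1470 grid10_0 = true := by
  decide +kernel

def grid10_1_0 (r : List (ℕ × ℕ)) : List (ℕ × ℕ) :=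
  (1600, 130) :: (1722, 130) :: (1852, 130) :: (1982, 136) :: (2118, 146) ::
  (2264, 156) :: (2420, 164) :: (2584, 164) :: (2742, 158) :: (2898, 156) ::
  r

def grid10_1 : List (ℕ × ℕ) :=
  grid10_1_0 []

theorem seg10_1 : sgc 396459 148159269708 dat10 1470 138 2898 grid10_1 = true := by
  decide +kernel

def grid10_2_0 (r : List (ℕ × ℕ)) : List (ℕ × ℕ) :=
  (3048, 150) :: (3188, 140) :: (3320, 132) :: (3444, 130) :: (3574, 130) ::
  (3704, 136) :: (3840, 144) :: (3984, 154) :: (4138, 164) :: (4302, 170) ::
  r

def grid10_2 : List (ℕ × ℕ) :=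
  grid10_2_0 []

theorem seg10_2 : sgc 396459 148159269708 dat10 2898 156 4302 grid10_2 = true := by
  decide +kernel

def grid10_3_0 (r : List (ℕ × ℕ)) : List (ℕ × ℕ) :=
  (4472, 170) :: (4630, 158) :: (4782, 152) :: (4924, 142) :: (5056, 132) ::
  (5182, 130) :: (5312, 130) :: (5442, 134) :: (5576, 142) :: (5718, 154) ::
  r

def grid10_3 : List (ℕ × ℕ) :=
  grid10_3_0 []

theorem seg10_3 : sgc 396459 148159269708 dat10 4302 170 5718 grid10_3 = true := by
  decide +kernel

def grid10_4_0 (r : List (ℕ × ℕ)) : List (ℕ × ℕ) :=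
  (5872, 164) :: (6036, 170) :: (6206, 170) :: (6364, 158) :: (6518, 154) ::
  (6662, 144) :: (6796, 134) :: (6922, 130) :: (7052, 130) :: (7182, 134) ::
  r

def grid10_4 : List (ℕ × ℕ) :=
  grid10_4_0 []

theorem seg10_4 : sgc 396459 148159269708 dat10 5718 154 7182 grid10_4 = true := by
  decide +kernel

def grid10_5_0 (r : List (ℕ × ℕ)) : List (ℕ × ℕ) :=
  (7316, 142) :: (7458, 154) :: (7612, 164) :: (7776, 172) :: (7948, 172) ::
  (8106, 158) :: (8262, 156) :: (8408, 146) :: (8542, 134) :: (8668, 130) ::
  r

def grid10_5 : List (ℕ × ℕ) :=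
  grid10_5_0 []

theorem seg10_5 : sgc 396459 148159269708 dat10 7182 134 8668 grid10_5 = true := by
  decide +kernel

def grid10_6_0 (r : List (ℕ × ℕ)) : List (ℕ × ℕ) :=
  (8798, 130) :: (8928, 134) :: (9062, 142) :: (9204, 154) :: (9358, 166) ::
  (9524, 174) :: (9698, 174) :: (9858, 160) :: (10016, 158) :: (10152, 136) ::
  r

def grid10_6 : List (ℕ × ℕ) :=
  grid10_6_0 []

theorem seg10_6 : sgc 396459 148159269708 dat10 8668 130 10152 grid10_6 = true := by
  decide +kernel

def grid10_7_0 (r : List (ℕ × ℕ)) : List (ℕ × ℕ) :=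
  (10288, 136) :: (10416, 130) :: (10546, 130) :: (10676, 134) :: (10810, 144) ::
  (10954, 156) :: (11110, 168) :: (11278, 176) :: (11454, 176) :: (11618, 164) ::
  r

def grid10_7 : List (ℕ × ℕ) :=
  grid10_7_0 []

theorem seg10_7 : sgc 396459 148159269708 dat10 10152 136 11618 grid10_7 = true := by
  decide +kernel

def grid10_8_0 (r : List (ℕ × ℕ)) : List (ℕ × ℕ) :=
  (11776, 158) :: (11924, 148) :: (12060, 136) :: (12186, 130) :: (12316, 130) ::
  (12446, 136) :: (12582, 146) :: (12728, 160) :: (12888, 172) :: (13060, 180) ::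
  r

def grid10_8 : List (ℕ × ℕ) :=
  grid10_8_0 []

theorem seg10_8 : sgc 396459 148159269708 dat10 11618 164 13060 grid10_8 = true := by
  decide +kernel

def grid10_9_0 (r : List (ℕ × ℕ)) : List (ℕ × ℕ) :=
  (13240, 180) :: (13406, 166) :: (13564, 158) :: (13700, 136) :: (13836, 136) ::
  (13962, 130) :: (14092, 130) :: (14222, 138) :: (14360, 150) :: (14510, 164) ::
  r

def grid10_9 : List (ℕ × ℕ) :=
  grid10_9_0 []

theorem seg10_9 : sgc 396459 148159269708 dat10 13060 180 14510 grid10_9 = true := by
  decide +kernel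

def grid10_10_0 (r : List (ℕ × ℕ)) : List (ℕ × ℕ) :=
  (14674, 178) :: (14852, 178) :: (15024, 172) :: (15194, 170) :: (15354, 160) ::
  (15490, 136) :: (15624, 134) :: (15748, 130) :: (15878, 132) :: (16010, 142) ::
  r

def grid10_10 : List (ℕ × ℕ) :=
  grid10_10_0 []

theorem seg10_10 : sgc 396459 148159269708 dat10 14510 164 16010 grid10_10 = true := by
  decide +kernel

def grid10_11_0 (r : List (ℕ × ℕ)) : List (ℕ × ℕ) :=
  (16152, 156) :: (16308, 172) :: (16480, 186) :: (16666, 186) :: (16844, 178) ::
  (17016, 172) :: (17162, 146) :: (17294, 132) :: (17426, 132) :: (17548, 130) ::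
  r

def grid10_11 : List (ℕ × ℕ) :=
  grid10_11_0 []

theorem seg10_11 : sgc 396459 148159269708 dat10 16010 142 17548 grid10_11 = true := by
  decide +kernel

def grid10_12_0 (r : List (ℕ × ℕ)) : List (ℕ × ℕ) :=
  (17678, 134) :: (17812, 148) :: (17960, 166) :: (18126, 184) :: (18310, 196) ::
  (18506, 196) :: (18690, 184) :: (18848, 158) :: (18992, 144) :: (19120, 128) ::
  r

def grid10_12 : List (ℕ × ℕ) :=
  grid10_12_0 []

theorem seg10_12 : sgc 396459 148159269708 dat10 17548 130 19120 grid10_12 = true := by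
  decide +kernel

def grid10_13_0 (r : List (ℕ × ℕ)) : List (ℕ × ℕ) :=
  (19248, 130) :: (19378, 132) :: (19510, 144) :: (19654, 162) :: (19816, 184) ::
  (20000, 202) :: (20202, 202) :: (20394, 192) :: (20566, 172) :: (20720, 154) ::
  r

def grid10_13 : List (ℕ × ℕ) :=
  grid10_13_0 []

theorem seg10_13 : sgc 396459 148159269708 dat10 19120 128 20720 grid10_13 = true := by
  decide +kernel

def grid10_14_0 (r : List (ℕ × ℕ)) : List (ℕ × ℕ) :=
  (20854, 134) :: (20984, 130) :: (21114, 132) :: (21246, 144) :: (21390, 164) ::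
  (21554, 190) :: (21744, 214) :: (21958, 214) :: (22164, 206) :: (22344, 180) ::
  r

def grid10_14 : List (ℕ × ℕ) :=
  grid10_14_0 []

theorem seg10_14 : sgc 396459 148159269708 dat10 20720 154 22344 grid10_14 = true := by
  decide +kernel

def grid10_15_0 (r : List (ℕ × ℕ)) : List (ℕ × ℕ) :=
  (22502, 158) :: (22638, 136) :: (22768, 130) :: (22898, 134) :: (23032, 152) ::
  (23184, 180) :: (23364, 212) :: (23576, 236) :: (23812, 236) :: (24016, 204) ::
  r

def grid10_15 : List (ℕ × ℕ) :=
  grid10_15_0 []

theorem seg10_15 : sgc 396459 148159269708 dat10 22344 180 24016 grid10_15 = true := by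
  decide +kernel

def grid10_16_0 (r : List (ℕ × ℕ)) : List (ℕ × ℕ) :=
  (24186, 170) :: (24332, 146) :: (24464, 132) :: (24588, 130) :: (24718, 144) ::
  (24862, 174) :: (25036, 214) :: (25250, 254) :: (25504, 254) :: (25734, 230) ::
  r

def grid10_16 : List (ℕ × ℕ) :=
  grid10_16_0 []

theorem seg10_16 : sgc 396459 148159269708 dat10 24016 204 25734 grid10_16 = true := by
  decide +kernel

def grid10_17_0 (r : List (ℕ × ℕ)) : List (ℕ × ℕ) :=
  (25930, 196) :: (26090, 160) :: (26218, 128) :: (26344, 130) :: (26474, 150) ::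
  (26624, 192) :: (26816, 252) :: (27068, 306) :: (27374, 306) :: (27620, 246) ::
  r

def grid10_17 : List (ℕ × ℕ) :=
  grid10_17_0 []

theorem seg10_17 : sgc 396459 148159269708 dat10 25734 230 27620 grid10_17 = true := by
  decide +kernel

def grid10_18_0 (r : List (ℕ × ℕ)) : List (ℕ × ℕ) :=
  (27808, 188) :: (27948, 140) :: (28072, 130) :: (28202, 154) :: (28356, 216) ::
  (28572, 316) :: (28888, 350) :: (29238, 350) :: (29500, 262) :: (29668, 168) ::
  r

def grid10_18 : List (ℕ × ℕ) :=
  grid10_18_0 []

theorem seg10_18 : sgc 396459 148159269708 dat10 27620 246 29668 grid10_18 = true := by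
  decide +kernel

def grid10_19_0 (r : List (ℕ × ℕ)) : List (ℕ × ℕ) :=
  (29792, 130) :: (29922, 174) :: (30096, 314) :: (30410, 586) :: (30996, 586) ::
  (31186, 190) :: (31202, 16) ::
  r

def grid10_19 : List (ℕ × ℕ) :=
  grid10_19_0 []

theorem seg10_19 : sgc 396459 148159269708 dat10 29668 168 31202 grid10_19 = true := by
  decide +kernel

theorem chk10 : chk 9 396459 148159269708 10000000 100000000000 1981 10000 31202 dat10 = true := by
  decide +kernel

theorem both10 : Both 10 (1981 / 10000) := by
  have h := chk_sound (by norm_num) (by norm_num) (by norm_num) (by norm_num) (by norm_num) chk10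
    ((sgc_sound seg10_0).trans
    ((sgc_sound seg10_1).trans
    ((sgc_sound seg10_2).trans
    ((sgc_sound seg10_3).trans
    ((sgc_sound seg10_4).trans
    ((sgc_sound seg10_5).trans
    ((sgc_sound seg10_6).trans
    ((sgc_sound seg10_7).trans
    ((sgc_sound seg10_8).trans
    ((sgc_sound seg10_9).trans
    ((sgc_sound seg10_10).trans
    ((sgc_sound seg10_11).trans
    ((sgc_sound seg10_12).trans
    ((sgc_sound seg10_13).trans
    ((sgc_sound seg10_14).trans
    ((sgc_sound seg10_15).trans
    ((sgc_sound seg10_16).trans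
    ((sgc_sound seg10_17).trans
    ((sgc_sound seg10_18).trans
    (sgc_sound seg10_19))))))))))))))))))))
  exact_mod_cast h

end Pool.Agent.P.MP_62e163_co
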