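import Pool.Agent.P.MP_62e163_co.Chk

namespace Pool.Agent.P.MP_62e163_co

def dat3_0 (r : Dat) : Dat :=
  (false, 65834182156, 9197934) :: (false, 16430143848, 6968323) :: (false, 791255505, 3798948) ::
  (false, 7234, 373149) :: (true, 116776512, 2591022) :: (true, 1860755345, 4507522) ::
  (true, 3298804931, 5054420) :: (true, 1370165243, 4239890) :: (true, 77539367, 2387286) ::
  (false, 0, 0) :: (false, 46696134, 2157030) :: (false, 658176900, 3661580) ::
  (false, 1187671583, 4120399) :: (false, 502770176, 3469556) :: (false, 26965865, 1932693) ::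
  (false, 0, 0) :: (true, 27181770, 1935778) :: (true, 355698268, 3237549) ::
  (true, 633023207, 3633155) :: (true, 264147127, 3050487) :: (true, 13235546, 1676287) ::
  (false, 10, 100877) :: (false, 18812580, 1798414) :: (false, 230681600, 2968948) ::
  (false, 401415797, 3316797) :: (false, 163564111, 2771645) :: (false, 7624630, 1501218) ::
  (true, 51, 138912) :: (true, 14355695, 1703746) :: (true, 165624242, 2778592) ::
  (true, 280847679, 3088120) :: (true, 111304680, 2566272) :: (true, 4815068, 1369369) ::
  (false, 141, 169893) :: (false, 11657366, 1634256) :: (false, 126879447, 2634379) ::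
  (false, 209322858, 2911812) :: (false, 80521388, 2405372) :: (false, 3225838, 1263946) ::
  (true, 294, 196752) :: (true, 9879966, 1581070) :: (true, 101656961, 2520156) ::
  (true, 163039861, 2769866) :: (true, 60799200, 2273943) :: (true, 2250975, 1176181) ::
  (false, 526, 220907) :: (false, 8637719, 1539146) :: (false, 84165332, 2426759) ::
  (false, 131171830, 2651967) :: (false, 47378766, 2163300) :: (false, 1617542, 1100959) ::
  (true, 849, 243145) :: (true, 7730860, 1505378) :: (true, 71446586, 2348531) ::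
  (true, 108180059, 2551699) :: (true, 37822346, 2067996) :: (true, 1187990, 1035053) ::
  (false, 1281, 263948) :: (false, 7046699, 1477737) :: (false, 61851981, 2281764) ::
  r

def dat3_1 (r : Dat) : Dat :=
  (false, 90976756, 2464825) :: (false, 30772015, 1984409) :: (false, 886998, 976303) ::
  (true, 1835, 283636) :: (true, 6517225, 1454831) :: (true, 54398144, 2223908) ::
  (true, 77722891, 2388415) :: (true, 25420621, 1910017) :: (true, 670612, 923197) ::
  (false, 2530, 302431) :: (false, 6099267, 1435673) :: (false, 48465927, 2173138) ::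
  (false, 67263385, 2320362) :: (false, 21263104, 1843000) :: (false, 511845, 874637) ::
  (true, 3381, 320498) :: (true, 5764168, 1419539) :: (true, 43649219, 2128116) ::
  (true, 58841927, 2259110) :: (true, 17969704, 1782002) :: (true, 393432, 829801) ::
  (false, 4408, 337960) :: (false, 5492252, 1405886) :: (false, 39670660, 2087824) ::
  (false, 51944274, 2203472) :: (false, 15317534, 1725988) :: (false, 303940, 788057) ::
  (true, 5631, 354918) :: (true, 5269604, 1394298) :: (true, 36336120, 2051482) ::
  (true, 46211288, 2152532) :: (true, 13151473, 1674152) :: (true, 235583, 748909) ::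
  (false, 7071, 371453) :: (false, 5086135, 1384451) :: (false, 33505559, 2018475) ::
  (false, 41384734, 2105562) :: (false, 11360698, 1625852) :: (false, 182928, 711961) ::
  (true, 8751, 387630) :: (true, 4934344, 1376087) :: (true, 31075590, 1988309) ::
  (true, 37275484, 2061981) :: (true, 9864354, 1580570) :: (true, 142097, 676889) ::
  (false, 10696, 403506) :: (false, 4808584, 1369000) :: (false, 28968731, 1960586) ::
  (false, 33741518, 2021310) :: (false, 8602281, 1537881) :: (false, 110279, 643427) ::
  (true, 12934, 419133) :: (true, 4704561, 1363025) :: (true, 27125790, 1934980) ::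
  (true, 30675064, 1983157) :: (true, 7528994, 1497433) :: (true, 85399, 611352) ::
  (false, 15495, 434553) :: (false, 4618868, 1358023) :: (false, 25500576, 1911217) ::
  r

def dat3_2 (r : Dat) : Dat :=
  (false, 27992857, 1947195) :: (false, 6609510, 1458928) :: (false, 65903, 580472) ::
  (true, 18413, 449806) :: (true, 4548875, 1353882) :: (true, 24056932, 1889070) ::
  (true, 25629391, 1913144) :: (true, 5816617, 1422113) :: (true, 50615, 550625) ::
  (false, 21723, 464927) :: (false, 4492443, 1350506) :: (false, 22765867, 1868344) ::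
  (false, 23532812, 1880766) :: (false, 5128875, 1386770) :: (false, 38634, 521668) ::
  (true, 25467, 479952) :: (true, 4447912, 1347818) :: (true, 21604236, 1848876) ::
  (true, 21661671, 1849858) :: (true, 4529220, 1352710) :: (true, 29263, 493476) ::
  (false, 29691, 494911) :: (false, 4413894, 1345750) :: (false, 20552922, 1830521) ::
  (false, 19982143, 1820239) :: (false, 4003928, 1319767) :: (false, 21960, 465937) ::
  (true, 34446, 509833) :: (true, 4389284, 1344246) :: (true, 19596218, 1813153) ::
  (true, 18466656, 1791751) :: (true, 3541796, 1287789) :: (true, 16295, 438949) ::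
  (false, 39788, 524748) :: (false, 4373178, 1343258) :: (false, 18721227, 1796664) ::
  (false, 17092450, 1764253) :: (false, 3133715, 1256643) :: (false, 11931, 412419) ::
  (true, 45783, 539687) :: (true, 4364866, 1342747) :: (true, 17917127, 1780958) ::
  (true, 15840687, 1737620) :: (true, 2772175, 1226208) :: (true, 8598, 386261) ::
  (false, 52504, 554676) :: (false, 4363712, 1342676) :: (false, 17174618, 1765946) ::
  (false, 14695484, 1711736) :: (false, 2450921, 1196371) :: (false, 6079, 360395) ::
  (true, 60034, 569745) :: (true, 4369289, 1343019) :: (true, 16485948, 1751551) ::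
  (true, 13643484, 1686495) :: (true, 2164743, 1167028) :: (true, 4203, 334744) ::
  (false, 68468, 584923) :: (false, 4381160, 1343748) :: (false, 15844425, 1737702) ::
  r

def dat3_3 (r : Dat) : Dat :=
  (false, 12673418, 1661800) :: (false, 1909238, 1138078) :: (false, 2827, 309235) ::
  (true, 77914, 600238) :: (true, 4399023, 1344842) :: (true, 15244060, 1724329) ::
  (true, 11775467, 1637554) :: (true, 1680705, 1109426) :: (true, 1840, 283792) ::
  (false, 88497, 615724) :: (false, 4422625, 1346282) :: (false, 14679909, 1711373) ::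
  (false, 10941418, 1613670) :: (false, 1475986, 1080977) :: (false, 1150, 258345) ::
  (true, 100361, 631413) :: (true, 4451841, 1348056) :: (true, 14147403, 1698773) ::
  (true, 10164068, 1590060) :: (true, 1292413, 1052641) :: (true, 684, 232820) ::
  (false, 113672, 647338) :: (false, 4486475, 1350147) :: (false, 13642553, 1686472) ::
  (false, 9437142, 1566636) :: (false, 1127676, 1024323) :: (false, 381, 207142) ::
  (true, 128627, 663539) :: (true, 4526459, 1352545) :: (true, 13161768, 1674414) ::
  (true, 8755252, 1543312) :: (true, 979805, 995928) :: (true, 195, 181233) ::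
  (false, 145450, 680053) :: (false, 4571785, 1355243) :: (false, 12701737, 1662542) ::
  (false, 8113627, 1519998) :: (false, 847098, 967357) :: (false, 89, 155010) ::
  (true, 164410, 696925) :: (true, 4622390, 1358230) :: (true, 12259375, 1650797) ::
  (true, 7508026, 1496598) :: (true, 728078, 938503) :: (true, 34, 128382) ::
  (false, 185829, 714205) :: (false, 4678353, 1361503) :: (false, 11831879, 1639120) ::
  (false, 6934830, 1473015) :: (false, 621478, 909254) :: (false, 10, 101254) ::
  (true, 210086, 731947) :: (true, 4739750, 1365058) :: (true, 11416639, 1627450) ::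
  (true, 6390836, 1449144) :: (true, 526201, 879489) :: (true, 2, 73521) ::
  (false, 237633, 750208) :: (false, 4806635, 1368889) :: (false, 11010890, 1615714) ::
  r

def dat3_4 (r : Dat) : Dat :=
  (false, 5873116, 1424865) :: (false, 441288, 849072) :: (false, 0, 0) ::
  (true, 269021, 769055) :: (true, 4879050, 1372989) :: (true, 10612029, 1603835) ::
  (true, 5379104, 1400045) :: (true, 365898, 817847) :: (false, 0, 0) ::
  (false, 304919, 788564) :: (false, 4957138, 1377356) :: (false, 10217427, 1591726) ::
  (false, 4906581, 1374535) :: (false, 299311, 785642) :: (false, 0, 0) ::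
  (true, 346146, 808820) :: (true, 5040926, 1381981) :: (true, 9824258, 1579283) ::
  (true, 4453525, 1348158) :: (true, 240890, 752253) :: (false, 0, 0) ::
  (false, 393721, 829923) :: (false, 5130429, 1386854) :: (false, 9429584, 1566385) ::
  (false, 4018253, 1320710) :: (false, 190081, 717444) :: (true, 3, 78954) ::
  (true, 448910, 851985) :: (true, 5225608, 1391962) :: (true, 9030152, 1552884) ::
  (true, 3599275, 1291942) :: (true, 146386, 680926) :: (false, 18, 113479) ::
  (false, 513336, 875146) :: (false, 5326311, 1397286) :: (false, 8622521, 1538604) ::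
  (false, 3195467, 1261557) :: (false, 109370, 642362) :: (true, 75, 149930) ::
  (true, 589038, 899557) :: (true, 5432044, 1402790) :: (true, 8202517, 1523314) ::
  (true, 2805956, 1229182) :: (true, 78623, 601327) :: (false, 239, 188665) ::
  (false, 678674, 925406) :: (false, 5541967, 1408422) :: (false, 7765329, 1506718) ::
  (false, 2430208, 1194342) :: (false, 53751, 557285) :: (true, 645, 230132) ::
  (true, 785750, 952921) :: (true, 5654743, 1414108) :: (true, 7305514, 1488436) ::
  (true, 2068237, 1156432) :: (true, 34355, 509564) :: (false, 1569, 274887) ::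
  (false, 914894, 982368) :: (false, 5767843, 1419720) :: (false, 6816326, 1467946) ::
  r

def dat3_5 (r : Dat) : Dat :=
  (false, 1720619, 1114646) :: (false, 19993, 457277) :: (true, 3551, 323649) ::
  (true, 1072378, 1014074) :: (true, 5877115, 1425059) :: (true, 6289589, 1444523) ::
  (true, 1388764, 1067888) :: (true, 10142, 399234) :: (false, 7652, 377365) ::
  (false, 1266834, 1048441) :: (false, 5975509, 1429799) :: (false, 5715323, 1417125) ::
  (false, 1075279, 1014622) :: (false, 4143, 333794) :: (true, 15993, 437312) ::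
  (true, 1510306, 1085958) :: (true, 6051094, 1433398) :: (true, 5081526, 1384200) ::
  (true, 784464, 952609) :: (true, 1156, 258605) :: (false, 32931, 505268) ::
  (false, 1819858, 1127217) :: (false, 6083013, 1434907) :: (false, 4374155, 1343318) ::
  (false, 523079, 878443) :: (false, 142, 170165) :: (true, 67803, 583782) ::
  (true, 2219498, 1172873) :: (true, 6033448, 1432561) :: (true, 3577930, 1290406) ::
  (true, 301108, 786583) :: (false, 0, 0) :: (false, 141908, 676709) ::
  (false, 2741957, 1223523) :: (false, 5831644, 1422847) :: (false, 2681573, 1218086) ::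
  (false, 132310, 667297) :: (true, 2, 72649) :: (true, 308027, 790165) ::
  (true, 3423750, 1279088) :: (true, 5338692, 1397935) :: (true, 1695124, 1111323) ::
  (true, 31690, 501403) :: (false, 1068, 254523) :: (false, 712382, 934421) ::
  (false, 4256635, 1336021) :: (false, 4272685, 1337027) :: (false, 708415, 933378) ::
  (false, 858, 243657) :: (true, 39082, 522872) :: (true, 1816075, 1126748) ::
  (true, 4841480, 1370868) :: (true, 2140791, 1164434) :: (true, 54630, 559096) ::
  (false, 1078, 254991) :: (false, 973617, 994667) :: (false, 4662996, 1360608) ::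
  (false, 1808641, 1125824) :: (false, 424, 211608) :: (true, 3320232, 1271258) ::
  r

def dat3 : Dat :=
  dat3_0 (dat3_1 (dat3_2 (dat3_3 (dat3_4 (dat3_5 [])))))

def grid3_0_0 (r : List (ℕ × ℕ)) : List (ℕ × ℕ) :=
  (124, 124) :: (248, 124) :: (372, 124) :: (496, 124) :: (620, 124) ::
  (744, 124) :: (868, 124) :: (992, 126) :: (1118, 126) :: (1244, 126) ::
  (1370, 126) :: (1496, 126) :: (1622, 126) :: (1738, 124) :: (1862, 124) ::
  (1986, 124) :: (2110, 124) :: (2234, 124) :: (2358, 124) ::
  r

def grid3_0 : List (ℕ × ℕ) :=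
  grid3_0_0 []

theorem seg3_0 : sgc 321449 77944629842 dat3 0 124 2358 grid3_0 = true := by
  decide +kernel

def grid3_1_0 (r : List (ℕ × ℕ)) : List (ℕ × ℕ) :=
  (2482, 124) :: (2606, 124) :: (2730, 124) :: (2854, 124) :: (2978, 124) ::
  (3102, 124) :: (3226, 124) :: (3350, 124) :: (3474, 126) :: (3600, 126) ::
  (3726, 126) :: (3852, 126) :: (3978, 126) :: (4104, 126) :: (4230, 126) ::
  (4346, 124) :: (4470, 124) :: (4594, 124) :: (4718, 124) ::
  r

def grid3_1 : List (ℕ × ℕ) :=
  grid3_1_0 []

theorem seg3_1 : sgc 321449 77944629842 dat3 2358 124 4718 grid3_1 = true := by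
  decide +kernel

def grid3_2_0 (r : List (ℕ × ℕ)) : List (ℕ × ℕ) :=
  (4842, 124) :: (4966, 124) :: (5090, 124) :: (5214, 124) :: (5338, 124) ::
  (5462, 124) :: (5586, 124) :: (5710, 124) :: (5834, 124) :: (5958, 126) ::
  (6084, 126) :: (6210, 126) :: (6336, 126) :: (6462, 126) :: (6588, 126) ::
  (6714, 126) :: (6840, 126) :: (6966, 126) :: (7082, 124) ::
  r

def grid3_2 : List (ℕ × ℕ) :=
  grid3_2_0 []

theorem seg3_2 : sgc 321449 77944629842 dat3 4718 124 7082 grid3_2 = true := by
  decide +kernel

def grid3_3_0 (r : List (ℕ × ℕ)) : List (ℕ × ℕ) :=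
  (7206, 124) :: (7330, 124) :: (7454, 124) :: (7578, 124) :: (7702, 124) ::
  (7826, 124) :: (7950, 124) :: (8074, 124) :: (8198, 124) :: (8322, 124) ::
  (8446, 126) :: (8572, 126) :: (8698, 126) :: (8824, 126) :: (8950, 126) ::
  (9076, 126) :: (9202, 126) :: (9328, 126) :: (9454, 126) ::
  r

def grid3_3 : List (ℕ × ℕ) :=
  grid3_3_0 []

theorem seg3_3 : sgc 321449 77944629842 dat3 7082 124 9454 grid3_3 = true := by
  decide +kernel

def grid3_4_0 (r : List (ℕ × ℕ)) : List (ℕ × ℕ) :=
  (9580, 126) :: (9706, 126) :: (9832, 126) :: (9948, 124) :: (10072, 124) ::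
  (10196, 124) :: (10320, 124) :: (10444, 124) :: (10568, 124) :: (10692, 124) ::
  (10816, 124) :: (10940, 124) :: (11064, 126) :: (11190, 126) :: (11316, 126) ::
  (11442, 126) :: (11568, 126) :: (11694, 126) :: (11820, 126) ::
  r

def grid3_4 : List (ℕ × ℕ) :=
  grid3_4_0 []

theorem seg3_4 : sgc 321449 77944629842 dat3 9454 126 11820 grid3_4 = true := by
  decide +kernel

def grid3_5_0 (r : List (ℕ × ℕ)) : List (ℕ × ℕ) :=
  (11946, 126) :: (12072, 126) :: (12198, 126) :: (12324, 126) :: (12450, 126) ::
  (12576, 126) :: (12692, 124) :: (12816, 124) :: (12940, 124) :: (13064, 124) ::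
  (13188, 124) :: (13312, 124) :: (13436, 124) :: (13560, 124) :: (13684, 126) ::
  (13810, 126) :: (13936, 126) :: (14062, 126) :: (14188, 126) ::
  r

def grid3_5 : List (ℕ × ℕ) :=
  grid3_5_0 []

theorem seg3_5 : sgc 321449 77944629842 dat3 11820 126 14188 grid3_5 = true := by
  decide +kernel

def grid3_6_0 (r : List (ℕ × ℕ)) : List (ℕ × ℕ) :=
  (14314, 126) :: (14440, 126) :: (14566, 126) :: (14692, 126) :: (14818, 126) ::
  (14944, 126) :: (15070, 126) :: (15196, 126) :: (15322, 126) :: (15438, 124) ::
  (15562, 124) :: (15686, 124) :: (15810, 124) :: (15934, 124) :: (16058, 124) ::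
  (16182, 124) :: (16306, 126) :: (16432, 126) :: (16558, 126) ::
  r

def grid3_6 : List (ℕ × ℕ) :=
  grid3_6_0 []

theorem seg3_6 : sgc 321449 77944629842 dat3 14188 126 16558 grid3_6 = true := by
  decide +kernel

def grid3_7_0 (r : List (ℕ × ℕ)) : List (ℕ × ℕ) :=
  (16684, 126) :: (16810, 126) :: (16936, 126) :: (17062, 126) :: (17188, 126) ::
  (17314, 126) :: (17440, 126) :: (17566, 126) :: (17692, 126) :: (17818, 126) ::
  (17944, 126) :: (18070, 126) :: (18196, 126) :: (18312, 124) :: (18436, 124) ::
  (18560, 124) :: (18684, 124) :: (18808, 124) :: (18932, 124) ::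
  r

def grid3_7 : List (ℕ × ℕ) :=
  grid3_7_0 []

theorem seg3_7 : sgc 321449 77944629842 dat3 16558 126 18932 grid3_7 = true := by
  decide +kernel

def grid3_8_0 (r : List (ℕ × ℕ)) : List (ℕ × ℕ) :=
  (19056, 126) :: (19182, 126) :: (19308, 126) :: (19434, 126) :: (19560, 126) ::
  (19686, 126) :: (19812, 128) :: (19940, 128) :: (20068, 128) :: (20196, 128) ::
  (20314, 126) :: (20440, 126) :: (20566, 126) :: (20692, 126) :: (20818, 126) ::
  (20944, 126) :: (21060, 124) :: (21184, 124) :: (21308, 124) ::
  r

def grid3_8 : List (ℕ × ℕ) :=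
  grid3_8_0 []

theorem seg3_8 : sgc 321449 77944629842 dat3 18932 124 21308 grid3_8 = true := by
  decide +kernel

def grid3_9_0 (r : List (ℕ × ℕ)) : List (ℕ × ℕ) :=
  (21432, 124) :: (21556, 124) :: (21680, 126) :: (21806, 126) :: (21932, 126) ::
  (22058, 126) :: (22184, 126) :: (22310, 128) :: (22438, 128) :: (22566, 128) ::
  (22694, 128) :: (22822, 128) :: (22950, 128) :: (23078, 128) :: (23206, 128) ::
  (23324, 126) :: (23450, 126) :: (23576, 126) :: (23702, 126) ::
  r

def grid3_9 : List (ℕ × ℕ) :=
  grid3_9_0 []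

theorem seg3_9 : sgc 321449 77944629842 dat3 21308 124 23702 grid3_9 = true := by
  decide +kernel

def grid3_10_0 (r : List (ℕ × ℕ)) : List (ℕ × ℕ) :=
  (23818, 124) :: (23942, 124) :: (24066, 124) :: (24190, 124) :: (24314, 124) ::
  (24438, 126) :: (24564, 126) :: (24690, 126) :: (24816, 126) :: (24942, 128) ::
  (25070, 128) :: (25198, 128) :: (25326, 128) :: (25454, 128) :: (25582, 128) ::
  (25710, 128) :: (25838, 128) :: (25966, 128) :: (26094, 128) ::
  r

def grid3_10 : List (ℕ × ℕ) :=
  grid3_10_0 []

theorem seg3_10 : sgc 321449 77944629842 dat3 23702 126 26094 grid3_10 = true := by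
  decide +kernel

def grid3_11_0 (r : List (ℕ × ℕ)) : List (ℕ × ℕ) :=
  (26212, 126) :: (26338, 126) :: (26464, 126) :: (26590, 126) :: (26706, 124) ::
  (26830, 124) :: (26954, 124) :: (27078, 124) :: (27202, 126) :: (27328, 126) ::
  (27454, 126) :: (27580, 128) :: (27708, 128) :: (27836, 128) :: (27964, 130) ::
  (28094, 130) :: (28224, 130) :: (28354, 130) :: (28484, 130) ::
  r

def grid3_11 : List (ℕ × ℕ) :=
  grid3_11_0 []

theorem seg3_11 : sgc 321449 77944629842 dat3 26094 128 28484 grid3_11 = true := by
  decide +kernel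

def grid3_12_0 (r : List (ℕ × ℕ)) : List (ℕ × ℕ) :=
  (28604, 128) :: (28732, 128) :: (28860, 128) :: (28988, 128) :: (29106, 126) ::
  (29232, 126) :: (29358, 126) :: (29474, 124) :: (29598, 124) :: (29722, 124) ::
  (29846, 124) :: (29970, 126) :: (30096, 126) :: (30222, 126) :: (30348, 128) ::
  (30476, 128) :: (30604, 130) :: (30734, 130) :: (30864, 130) ::
  r

def grid3_12 : List (ℕ × ℕ) :=
  grid3_12_0 []

theorem seg3_12 : sgc 321449 77944629842 dat3 28484 130 30864 grid3_12 = true := by
  decide +kernel

def grid3_13_0 (r : List (ℕ × ℕ)) : List (ℕ × ℕ) :=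
  (30994, 130) :: (31124, 130) :: (31254, 130) :: (31384, 130) :: (31514, 130) ::
  (31634, 128) :: (31762, 128) :: (31880, 126) :: (32006, 126) :: (32132, 126) ::
  (32248, 124) :: (32372, 124) :: (32496, 124) :: (32620, 124) :: (32744, 126) ::
  (32870, 126) :: (32996, 128) :: (33124, 128) :: (33252, 130) ::
  r

def grid3_13 : List (ℕ × ℕ) :=
  grid3_13_0 []

theorem seg3_13 : sgc 321449 77944629842 dat3 30864 130 33252 grid3_13 = true := by
  decide +kernel

def grid3_14_0 (r : List (ℕ × ℕ)) : List (ℕ × ℕ) :=
  (33382, 130) :: (33512, 132) :: (33644, 132) :: (33776, 132) :: (33908, 132) ::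
  (34040, 132) :: (34172, 132) :: (34294, 130) :: (34424, 130) :: (34544, 128) ::
  (34672, 128) :: (34790, 126) :: (34916, 126) :: (35032, 124) :: (35156, 124) ::
  (35280, 124) :: (35404, 124) :: (35528, 126) :: (35654, 126) ::
  r

def grid3_14 : List (ℕ × ℕ) :=
  grid3_14_0 []

theorem seg3_14 : sgc 321449 77944629842 dat3 33252 130 35654 grid3_14 = true := by
  decide +kernel

def grid3_15_0 (r : List (ℕ × ℕ)) : List (ℕ × ℕ) :=
  (35780, 128) :: (35908, 128) :: (36036, 130) :: (36166, 132) :: (36298, 132) ::
  (36430, 134) :: (36564, 134) :: (36698, 134) :: (36832, 134) :: (36956, 132) ::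
  (37088, 132) :: (37210, 130) :: (37340, 130) :: (37460, 120) :: (37578, 126) ::
  (37704, 126) :: (37830, 126) :: (37946, 124) :: (38070, 124) ::
  r

def grid3_15 : List (ℕ × ℕ) :=
  grid3_15_0 []

theorem seg3_15 : sgc 321449 77944629842 dat3 35654 126 38070 grid3_15 = true := by
  decide +kernel

def grid3_16_0 (r : List (ℕ × ℕ)) : List (ℕ × ℕ) :=
  (38194, 124) :: (38318, 126) :: (38444, 126) :: (38570, 128) :: (38698, 130) ::
  (38828, 132) :: (38960, 132) :: (39092, 134) :: (39226, 134) :: (39360, 136) ::
  (39496, 136) :: (39622, 126) :: (39748, 134) :: (39882, 134) :: (40006, 124) ::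
  (40128, 122) :: (40248, 128) :: (40376, 128) :: (40494, 126) ::
  r

def grid3_16 : List (ℕ × ℕ) :=
  grid3_16_0 []

theorem seg3_16 : sgc 321449 77944629842 dat3 38070 124 40494 grid3_16 = true := by
  decide +kernel

def grid3_17_0 (r : List (ℕ × ℕ)) : List (ℕ × ℕ) :=
  (40620, 126) :: (40736, 124) :: (40860, 124) :: (40984, 124) :: (41108, 126) ::
  (41234, 126) :: (41360, 128) :: (41488, 130) :: (41618, 132) :: (41750, 134) ::
  (41884, 136) :: (42020, 136) :: (42156, 138) :: (42294, 138) :: (42432, 138) ::
  (42560, 128) :: (42686, 134) :: (42820, 134) :: (42944, 124) ::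
  r

def grid3_17 : List (ℕ × ℕ) :=
  grid3_17_0 []

theorem seg3_17 : sgc 321449 77944629842 dat3 40494 126 42944 grid3_17 = true := by
  decide +kernel

def grid3_18_0 (r : List (ℕ × ℕ)) : List (ℕ × ℕ) :=
  (43066, 122) :: (43186, 120) :: (43304, 126) :: (43430, 126) :: (43546, 124) ::
  (43670, 124) :: (43794, 126) :: (43920, 126) :: (44046, 128) :: (44174, 130) ::
  (44304, 132) :: (44436, 134) :: (44570, 136) :: (44706, 138) :: (44844, 138) ::
  (44982, 140) :: (45122, 140) :: (45262, 140) :: (45392, 130) ::
  r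

def grid3_18 : List (ℕ × ℕ) :=
  grid3_18_0 []

theorem seg3_18 : sgc 321449 77944629842 dat3 42944 124 45392 grid3_18 = true := by
  decide +kernel

def grid3_19_0 (r : List (ℕ × ℕ)) : List (ℕ × ℕ) :=
  (45520, 128) :: (45646, 126) :: (45770, 124) :: (45892, 122) :: (46012, 120) ::
  (46130, 118) :: (46248, 118) :: (46364, 124) :: (46488, 124) :: (46612, 126) ::
  (46738, 126) :: (46864, 128) :: (46992, 130) :: (47122, 132) :: (47254, 136) ::
  (47390, 138) :: (47528, 140) :: (47668, 142) :: (47810, 142) ::
  r

def grid3_19 : List (ℕ × ℕ) :=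
  grid3_19_0 []

theorem seg3_19 : sgc 321449 77944629842 dat3 45392 130 47810 grid3_19 = true := by
  decide +kernel

def grid3_20_0 (r : List (ℕ × ℕ)) : List (ℕ × ℕ) :=
  (47952, 142) :: (48094, 142) :: (48226, 132) :: (48358, 132) :: (48488, 130) ::
  (48614, 126) :: (48738, 124) :: (48860, 122) :: (48980, 120) :: (49098, 118) ::
  (49214, 124) :: (49338, 124) :: (49462, 126) :: (49588, 126) :: (49714, 128) ::
  (49842, 132) :: (49974, 134) :: (50108, 138) :: (50246, 140) ::
  r

def grid3_20 : List (ℕ × ℕ) :=
  grid3_20_0 []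

theorem seg3_20 : sgc 321449 77944629842 dat3 47810 142 50246 grid3_20 = true := by
  decide +kernel

def grid3_21_0 (r : List (ℕ × ℕ)) : List (ℕ × ℕ) :=
  (50386, 144) :: (50530, 146) :: (50676, 146) :: (50822, 146) :: (50968, 146) ::
  (51102, 134) :: (51234, 132) :: (51366, 132) :: (51494, 128) :: (51620, 126) ::
  (51742, 122) :: (51862, 120) :: (51980, 118) :: (52096, 124) :: (52220, 124) ::
  (52344, 126) :: (52470, 128) :: (52598, 130) :: (52728, 134) ::
  r

def grid3_21 : List (ℕ × ℕ) :=
  grid3_21_0 []

theorem seg3_21 : sgc 321449 77944629842 dat3 50246 140 52728 grid3_21 = true := by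
  decide +kernel

def grid3_22_0 (r : List (ℕ × ℕ)) : List (ℕ × ℕ) :=
  (52862, 138) :: (53000, 142) :: (53142, 146) :: (53288, 148) :: (53436, 150) ::
  (53586, 150) :: (53736, 150) :: (53874, 138) :: (54010, 136) :: (54144, 134) ::
  (54276, 132) :: (54406, 130) :: (54532, 126) :: (54654, 122) :: (54772, 126) ::
  (54898, 126) :: (55014, 124) :: (55138, 126) :: (55264, 128) ::
  r

def grid3_22 : List (ℕ × ℕ) :=
  grid3_22_0 []

theorem seg3_22 : sgc 321449 77944629842 dat3 52728 134 55264 grid3_22 = true := by
  decide +kernel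

def grid3_23_0 (r : List (ℕ × ℕ)) : List (ℕ × ℕ) :=
  (55392, 130) :: (55522, 134) :: (55656, 138) :: (55794, 144) :: (55938, 148) ::
  (56086, 152) :: (56238, 154) :: (56392, 156) :: (56548, 156) :: (56692, 144) ::
  (56834, 142) :: (56974, 140) :: (57110, 136) :: (57242, 132) :: (57370, 128) ::
  (57494, 124) :: (57614, 120) :: (57732, 118) :: (57848, 124) ::
  r

def grid3_23 : List (ℕ × ℕ) :=
  grid3_23_0 []

theorem seg3_23 : sgc 321449 77944629842 dat3 55264 128 57848 grid3_23 = true := by
  decide +kernel

def grid3_24_0 (r : List (ℕ × ℕ)) : List (ℕ × ℕ) :=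
  (57972, 126) :: (58098, 128) :: (58226, 130) :: (58356, 136) :: (58492, 140) ::
  (58632, 146) :: (58778, 152) :: (58930, 156) :: (59086, 160) :: (59246, 162) ::
  (59408, 162) :: (59558, 150) :: (59706, 148) :: (59850, 144) :: (59990, 140) ::
  (60124, 134) :: (60254, 130) :: (60380, 126) :: (60500, 120) ::
  r

def grid3_24 : List (ℕ × ℕ) :=
  grid3_24_0 []

theorem seg3_24 : sgc 321449 77944629842 dat3 57848 124 60500 grid3_24 = true := by
  decide +kernel

def grid3_25_0 (r : List (ℕ × ℕ)) : List (ℕ × ℕ) :=
  (60618, 118) :: (60734, 124) :: (60858, 126) :: (60984, 128) :: (61112, 134) ::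
  (61246, 140) :: (61386, 146) :: (61532, 152) :: (61684, 160) :: (61844, 166) ::
  (62010, 170) :: (62180, 170) :: (62350, 170) :: (62508, 158) :: (62662, 154) ::
  (62810, 148) :: (62952, 142) :: (63086, 134) :: (63216, 130) ::
  r

def grid3_25 : List (ℕ × ℕ) :=
  grid3_25_0 []

theorem seg3_25 : sgc 321449 77944629842 dat3 60500 120 63216 grid3_25 = true := by
  decide +kernel

def grid3_26_0 (r : List (ℕ × ℕ)) : List (ℕ × ℕ) :=
  (63340, 124) :: (63458, 118) :: (63574, 124) :: (63698, 126) :: (63824, 128) ::
  (63952, 134) :: (64086, 140) :: (64226, 148) :: (64374, 158) :: (64532, 166) ::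
  (64698, 174) :: (64872, 178) :: (65050, 180) :: (65230, 180) :: (65396, 166) ::
  (65556, 160) :: (65712, 156) :: (65858, 146) :: (65996, 138) ::
  r

def grid3_26 : List (ℕ × ℕ) :=
  grid3_26_0 []

theorem seg3_26 : sgc 321449 77944629842 dat3 63216 130 65996 grid3_26 = true := by
  decide +kernel

def grid3_27_0 (r : List (ℕ × ℕ)) : List (ℕ × ℕ) :=
  (66128, 132) :: (66252, 124) :: (66370, 118) :: (66486, 124) :: (66610, 126) ::
  (66736, 132) :: (66868, 138) :: (67006, 148) :: (67154, 158) :: (67312, 170) ::
  (67482, 180) :: (67662, 190) :: (67852, 194) :: (68046, 194) :: (68226, 180) ::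
  (68402, 176) :: (68568, 166) :: (68726, 158) :: (68872, 146) ::
  r

def grid3_27 : List (ℕ × ℕ) :=
  grid3_27_0 []

theorem seg3_27 : sgc 321449 77944629842 dat3 65996 138 68872 grid3_27 = true := by
  decide +kernel

def grid3_28_0 (r : List (ℕ × ℕ)) : List (ℕ × ℕ) :=
  (69006, 134) :: (69134, 128) :: (69254, 120) :: (69370, 124) :: (69494, 128) ::
  (69622, 134) :: (69756, 142) :: (69898, 156) :: (70054, 170) :: (70224, 184) ::
  (70408, 198) :: (70606, 208) :: (70814, 208) :: (71010, 196) :: (71204, 194) ::
  (71390, 186) :: (71552, 162) :: (71700, 148) :: (71836, 136) ::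
  r

def grid3_28 : List (ℕ × ℕ) :=
  grid3_28_0 []

theorem seg3_28 : sgc 321449 77944629842 dat3 68872 146 71836 grid3_28 = true := by
  decide +kernel

def grid3_29_0 (r : List (ℕ × ℕ)) : List (ℕ × ℕ) :=
  (71970, 134) :: (72096, 126) :: (72214, 124) :: (72338, 126) :: (72464, 132) ::
  (72596, 144) :: (72740, 160) :: (72900, 178) :: (73078, 198) :: (73276, 218) ::
  (73494, 234) :: (73728, 234) :: (73950, 222) :: (74166, 216) :: (74356, 190) ::
  (74528, 172) :: (74684, 156) :: (74822, 138) :: (74954, 132) ::
  r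

def grid3_29 : List (ℕ × ℕ) :=
  grid3_29_0 []

theorem seg3_29 : sgc 321449 77944629842 dat3 71836 136 74954 grid3_29 = true := by
  decide +kernel

def grid3_30_0 (r : List (ℕ × ℕ)) : List (ℕ × ℕ) :=
  (75076, 126) :: (75202, 126) :: (75328, 134) :: (75462, 148) :: (75610, 170) ::
  (75780, 196) :: (75976, 226) :: (76202, 254) :: (76456, 276) :: (76732, 276) ::
  (76992, 260) :: (77218, 226) :: (77422, 204) :: (77584, 162) :: (77736, 152) ::
  (77866, 130) :: (77990, 126) :: (78116, 128) :: (78244, 142) ::
  r

def grid3_30 : List (ℕ × ℕ) :=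
  grid3_30_0 []

theorem seg3_30 : sgc 321449 77944629842 dat3 74954 132 78244 grid3_30 = true := by
  decide +kernel

def grid3_31_0 (r : List (ℕ × ℕ)) : List (ℕ × ℕ) :=
  (78386, 166) :: (78552, 202) :: (78754, 248) :: (79002, 296) :: (79298, 336) ::
  (79634, 336) :: (79932, 298) :: (80190, 258) :: (80410, 220) :: (80576, 166) ::
  (80720, 144) :: (80844, 128) :: (80972, 128) :: (81100, 148) :: (81248, 190) ::
  (81438, 256) :: (81694, 346) :: (82040, 444) :: (82484, 444) ::
  r

def grid3_31 : List (ℕ × ℕ) :=
  grid3_31_0 []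

theorem seg3_31 : sgc 321449 77944629842 dat3 78244 142 82484 grid3_31 = true := by
  decide +kernel

def grid3_32_0 (r : List (ℕ × ℕ)) : List (ℕ × ℕ) :=
  (82908, 424) :: (83234, 326) :: (83444, 210) :: (83602, 158) :: (83728, 126) ::
  (83854, 146) :: (84000, 224) :: (84224, 386) :: (84610, 676) :: (85286, 678) ::
  (85964, 678) :: (86120, 156) :: (86132, 12) ::
  r

def grid3_32 : List (ℕ × ℕ) :=
  grid3_32_0 []

theorem seg3_32 : sgc 321449 77944629842 dat3 82484 444 86132 grid3_32 = true := by
  decide +kernel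

theorem chk3 : chk 2 321449 77944629842 10000000 100000000000 4264 10000 86132 dat3 = true := by
  decide +kernel

theorem both3 : Both 3 (4264 / 10000) := by
  have h := chk_sound (by norm_num) (by norm_num) (by norm_num) (by norm_num) (by norm_num) chk3
    ((sgc_sound seg3_0).trans
    ((sgc_sound seg3_1).trans
    ((sgc_sound seg3_2).trans
    ((sgc_sound seg3_3).trans
    ((sgc_sound seg3_4).trans
    ((sgc_sound seg3_5).trans
    ((sgc_sound seg3_6).trans
    ((sgc_sound seg3_7).trans
    ((sgc_sound seg3_8).trans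
    ((sgc_sound seg3_9).trans
    ((sgc_sound seg3_10).trans
    ((sgc_sound seg3_11).trans
    ((sgc_sound seg3_12).trans
    ((sgc_sound seg3_13).trans
    ((sgc_sound seg3_14).trans
    ((sgc_sound seg3_15).trans
    ((sgc_sound seg3_16).trans
    ((sgc_sound seg3_17).trans
    ((sgc_sound seg3_18).trans
    ((sgc_sound seg3_19).trans
    ((sgc_sound seg3_20).trans
    ((sgc_sound seg3_21).trans
    ((sgc_sound seg3_22).trans
    ((sgc_sound seg3_23).trans
    ((sgc_sound seg3_24).trans
    ((sgc_sound seg3_25).trans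
    ((sgc_sound seg3_26).trans
    ((sgc_sound seg3_27).trans
    ((sgc_sound seg3_28).trans
    ((sgc_sound seg3_29).trans
    ((sgc_sound seg3_30).trans
    ((sgc_sound seg3_31).trans
    (sgc_sound seg3_32)))))))))))))))))))))))))))))))))
  exact_mod_cast h

end Pool.Agent.P.MP_62e163_co
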