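import Pool.Agent.P.MP_62e163_co.Chk

namespace Pool.Agent.P.MP_62e163_co

def dat4_0 (r : Dat) : Dat :=
  (false, 69700669147, 9497412) :: (false, 22008618984, 8055355) :: (false, 2378076342, 5861817) ::
  (false, 34433163, 3200976) :: (false, 20, 413867) :: (true, 2113756, 2148576) ::
  (true, 220530143, 4173452) :: (true, 1388282191, 5427998) :: (true, 2181457698, 5789994) ::
  (true, 1117378569, 5262250) :: (true, 155244640, 3969325) :: (true, 2036342, 2137154) ::
  (false, 0, 0) :: (false, 1068715, 1949115) :: (false, 77050478, 3591316) ::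
  (false, 460467940, 4636298) :: (false, 725647683, 4947541) :: (false, 374135875, 4500802) ::
  (false, 50888928, 3384680) :: (false, 576792, 1784737) :: (false, 0, 0) ::
  (true, 679583, 1827044) :: (true, 41781128, 3290659) :: (true, 239668940, 4223367) ::
  (true, 371133830, 4495625) :: (true, 188100585, 4079690) :: (true, 24655476, 3051821) ::
  (true, 244651, 1578934) :: (false, 0, 0) :: (false, 502518, 1749934) ::
  (false, 27434803, 3098746) :: (false, 151307124, 3954784) :: (false, 228993799, 4195966) ::
  (false, 113374897, 3795043) :: (false, 14263797, 2822312) :: (false, 124453, 1433605) ::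
  (false, 0, 0) :: (true, 406775, 1697883) :: (true, 20042564, 2962836) ::
  (true, 106365107, 3760599) :: (true, 157001998, 3975713) :: (true, 75741655, 3582537) ::
  (true, 9130479, 2648059) :: (true, 70075, 1320673) :: (false, 0, 0) ::
  (false, 349192, 1661261) :: (false, 15668972, 2860450) :: (false, 80070628, 3611096) ::
  (false, 115162933, 3803536) :: (false, 54066064, 3414090) :: (false, 6238262, 2507811) ::
  (false, 42045, 1227728) :: (false, 0, 0) :: (true, 312191, 1634891) ::
  (true, 12835670, 2780096) :: (true, 63198828, 3491069) :: (true, 88527193, 3663263) ::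
  (true, 40415401, 3275073) :: (true, 4459659, 2390406) :: (true, 26318, 1148250) ::
  r

def dat4_1 (r : Dat) : Dat :=
  (false, 0, 0) :: (false, 287462, 1615730) :: (false, 10878923, 2715176) ::
  (false, 51639292, 3391765) :: (false, 70432252, 3545534) :: (false, 31251858, 3156952) ::
  (false, 3295451, 2289297) :: (false, 16962, 1078408) :: (true, 1, 288528) ::
  (true, 270629, 1601862) :: (true, 9461913, 2661582) :: (true, 43321361, 3307721) ::
  (true, 57525028, 3444470) :: (true, 24798399, 3054342) :: (true, 2496962, 2200328) ::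
  (true, 11157, 1015764) :: (false, 3, 316442) :: (false, 259200, 1592018) ::
  (false, 8397696, 2616599) :: (false, 37103435, 3235313) :: (false, 47961344, 3356152) ::
  (false, 20080335, 2963633) :: (false, 1929105, 2120701) :: (false, 7441, 958671) ::
  (true, 5, 343197) :: (true, 251661, 1585319) :: (true, 7575244, 2578353) ::
  (true, 32311432, 3172025) :: (true, 40655982, 3277851) :: (true, 16526127, 2882297) ::
  (true, 1513457, 2048445) :: (true, 5009, 905962) :: (false, 9, 369045) ::
  (false, 247056, 1581142) :: (false, 6924833, 2545498) :: (false, 28525153, 3116047) ::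
  (false, 34934216, 3207589) :: (false, 13782140, 2808496) :: (false, 1202031, 1982124) ::
  (false, 3389, 856781) :: (true, 14, 394176) :: (true, 244750, 1579025) ::
  (true, 6400731, 2517039) :: (true, 25470401, 3066031) :: (true, 30357876, 3143890) ::
  (true, 11619752, 2740850) :: (true, 964134, 1920650) :: (true, 2297, 810478) ::
  (false, 22, 418738) :: (false, 244319, 1578628) :: (false, 5971892, 2492226) ::
  (false, 22961951, 3020954) :: (false, 26632012, 3085627) :: (false, 9885862, 2678300) ::
  (false, 779456, 1863185) :: (false, 1555, 766544) :: (true, 33, 442854) ::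
  (true, 245473, 1579691) :: (true, 5616531, 2470479) :: (true, 20870616, 2980021) ::
  r

def dat4_2 (r : Dat) : Dat :=
  (true, 23551694, 3031918) :: (true, 8474741, 2620015) :: (true, 634138, 1809068) ::
  (true, 1048, 724577) :: (false, 48, 466623) :: (false, 248010, 1582013) ::
  (false, 5318952, 2451341) :: (false, 19103749, 2942600) :: (false, 20970831, 2982061) ::
  (false, 7311396, 2565328) :: (false, 518468, 1757763) :: (false, 702, 684244) ::
  (true, 67, 490134) :: (true, 251792, 1585437) :: (true, 5067613, 2434448) ::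
  (true, 17593537, 2908184) :: (true, 18782744, 2935485) :: (true, 6341407, 2513693) ::
  (true, 425494, 1708831) :: (true, 465, 645271) :: (false, 94, 513464) ::
  (false, 256731, 1589843) :: (false, 4853842, 2419505) :: (false, 16289111, 2876355) ::
  (false, 16907973, 2891718) :: (false, 5524515, 2464656) :: (false, 350130, 1661898) ::
  (false, 305, 607420) :: (true, 128, 536690) :: (true, 262779, 1595140) ::
  (true, 4671115, 2406278) :: (true, 15152145, 2846777) :: (true, 15286746, 2850376) ::
  (true, 4830565, 2417844) :: (true, 288622, 1616660) :: (true, 196, 570494) ::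
  (false, 172, 559872) :: (false, 269904, 1601248) :: (false, 4514245, 2394564) ::
  (false, 14152554, 2819157) :: (false, 13872599, 2811122) :: (false, 4236338, 2372927) ::
  (false, 238117, 1572840) :: (false, 124, 534311) :: (true, 229, 583076) ::
  (true, 278110, 1608114) :: (true, 4379240, 2384200) :: (true, 13266941, 2793252) ::
  (true, 12629519, 2773673) :: (true, 3723912, 2329623) :: (true, 196445, 1530202) ::
  (true, 76, 498712) :: (false, 301, 606362) :: (false, 287415, 1615692) ::
  (false, 4262890, 2375046) :: (false, 12476561, 2768849) :: (false, 11528804, 2737775) ::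
  (false, 3279162, 2287677) :: (false, 161917, 1488526) :: (false, 45, 463542) ::
  r

def dat4_3 (r : Dat) : Dat :=
  (true, 393, 629801) :: (true, 297870, 1623960) :: (true, 4162735, 2366993) ::
  (true, 11766668, 2745774) :: (true, 10547908, 2703217) :: (true, 2891019, 2246874) ::
  (true, 133226, 1447624) :: (true, 26, 428669) :: (false, 508, 653449) ::
  (false, 309530, 1632893) :: (false, 4076681, 2359940) :: (false, 11124946, 2723864) ::
  (false, 9668321, 2669800) :: (false, 2550511, 2207008) :: (false, 109328, 1407313) ::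
  (false, 14, 393961) :: (true, 654, 677370) :: (true, 322475, 1642478) ::
  (true, 4003012, 2353800) :: (true, 10541273, 2702974) :: (true, 8874887, 2637340) ::
  (true, 2250375, 2167886) :: (true, 89394, 1367419) :: (true, 7, 359285) ::
  (false, 837, 701635) :: (false, 336810, 1652715) :: (false, 3940401, 2348505) ::
  (false, 10007313, 2682976) :: (false, 8155289, 2605673) :: (false, 1984714, 2129328) ::
  (false, 72756, 1327775) :: (false, 3, 324514) :: (true, 1066, 726317) ::
  (true, 352663, 1663610) :: (true, 3887712, 2343993) :: (true, 9516020, 2663751) ::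
  (true, 7499170, 2574638) :: (true, 1748670, 2091158) :: (true, 58873, 1288215) ::
  (true, 1, 289512) :: (false, 1353, 751495) :: (false, 370196, 1675181) ::
  (false, 3844061, 2340215) :: (false, 9061482, 2645191) :: (false, 6897970, 2544085) ::
  (false, 1538252, 2053206) :: (false, 47303, 1248573) :: (false, 0, 0) ::
  (true, 1713, 777256) :: (true, 389594, 1687448) :: (true, 3808683, 2337126) ::
  (true, 8638563, 2627191) :: (true, 6344463, 2513866) :: (true, 1350141, 2015301) ::
  (true, 37686, 1208681) :: (false, 0, 0) :: (false, 2165, 803686) ::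
  (false, 411070, 1700433) :: (false, 3780822, 2334676) :: (false, 8242533, 2609637) ::
  r

def dat4_4 (r : Dat) : Dat :=
  (false, 5832198, 2483813) :: (false, 1181488, 1977249) :: (false, 29716, 1168345) ::
  (false, 0, 0) :: (true, 2734, 830904) :: (true, 434919, 1714188) ::
  (true, 3760092, 2332843) :: (true, 7869602, 2592433) :: (true, 5356047, 2453776) ::
  (true, 1029978, 1938862) :: (true, 23145, 1127372) :: (false, 0, 0) ::
  (false, 3451, 859026) :: (false, 461465, 1728758) :: (false, 3745989, 2331591) ::
  (false, 7516089, 2575467) :: (false, 4911328, 2423578) :: (false, 893631, 1899927) ::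
  (false, 17763, 1085539) :: (false, 0, 0) :: (true, 4360, 888199) ::
  (true, 491130, 1744213) :: (true, 3738236, 2330901) :: (true, 7178868, 2558633) ::
  (true, 4494198, 2393042) :: (true, 770815, 1860220) :: (true, 13392, 1042612) ::
  (false, 0, 0) :: (false, 5517, 918568) :: (false, 524375, 1760610) ::
  (false, 3736328, 2330731) :: (false, 6854492, 2541788) :: (false, 4100926, 2361940) ::
  (false, 660073, 1819457) :: (false, 9880, 998290) :: (false, 0, 0) ::
  (true, 7000, 950339) :: (true, 561844, 1778055) :: (true, 3740089, 2331066) ::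
  (true, 6540131, 2524798) :: (true, 3728514, 2330034) :: (true, 560251, 1777334) ::
  (true, 7099, 952248) :: (false, 0, 0) :: (false, 8915, 983732) ::
  (false, 604295, 1796653) :: (false, 3749173, 2331874) :: (false, 6232657, 2507489) ::
  (false, 3374198, 2297033) :: (false, 470357, 1733478) :: (false, 4936, 904083) ::
  (false, 0, 0) :: (true, 11410, 1019023) :: (true, 652701, 1816540) ::
  (true, 3763264, 2333124) :: (true, 5929017, 2489662) :: (true, 3035556, 2262588) ::
  (true, 389583, 1687441) :: (true, 3294, 853316) :: (false, 0, 0) ::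
  r

def dat4_5 (r : Dat) : Dat :=
  (false, 14695, 1056539) :: (false, 708283, 1837872) :: (false, 3781831, 2334765) ::
  (false, 5625688, 2471054) :: (false, 2710352, 2226256) :: (false, 317258, 1638655) ::
  (false, 2085, 799337) :: (false, 0, 0) :: (true, 19080, 1096694) ::
  (true, 772629, 1860845) :: (true, 3804168, 2336730) :: (true, 5318800, 2451331) ::
  (true, 2396587, 2187469) :: (true, 252860, 1586396) :: (true, 1230, 741368) ::
  (false, 0, 0) :: (false, 25025, 1140017) :: (false, 847860, 1885710) ::
  (false, 3829379, 2338936) :: (false, 5004076, 2430064) :: (false, 2092664, 2145500) ::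
  (false, 196025, 1529735) :: (false, 661, 678414) :: (true, 1, 276499) ::
  (true, 33233, 1187166) :: (true, 936728, 1912754) :: (true, 3855655, 2341222) ::
  (true, 4675968, 2406635) :: (true, 1797105, 2099336) :: (true, 146497, 1467395) ::
  (true, 311, 609120) :: (false, 5, 342210) :: (false, 44829, 1239026) ::
  (false, 1043023, 1942351) :: (false, 3880230, 2343348) :: (false, 4327788, 2380178) ::
  (false, 1508942, 2047571) :: (false, 104160, 1397611) :: (false, 119, 531615) ::
  (true, 21, 415622) :: (true, 61672, 1296792) :: (true, 1171997, 1974972) ::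
  (true, 3898429, 2344915) :: (true, 3950995, 2349406) :: (true, 1227876, 1988157) ::
  (true, 69029, 1317837) :: (true, 33, 443228) :: (false, 77, 499102) ::
  (false, 86990, 1362103) :: (false, 1330920, 2011177) :: (false, 3901666, 2345193) ::
  (false, 3534101, 2312277) :: (false, 954627, 1917933) :: (false, 41203, 1224189) ::
  (false, 5, 339921) :: (true, 267, 596183) :: (true, 126734, 1437329) ::
  (true, 1530011, 2051631) :: (true, 3874021, 2342812) :: (true, 3061647, 2265356) ::
  r

def dat4_6 (r : Dat) : Dat :=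
  (true, 691815, 1831706) :: (true, 20810, 1110372) :: (false, 0, 0) ::
  (false, 931, 712446) :: (false, 192758, 1526066) :: (false, 1783345, 2097032) ::
  (false, 3784746, 2335022) :: (false, 2513420, 2202394) :: (false, 445840, 1720272) ::
  (false, 7813, 965360) :: (false, 0, 0) :: (true, 3403, 857316) ::
  (true, 310965, 1633972) :: (true, 2106879, 2147576) :: (true, 3568739, 2315501) ::
  (true, 1864702, 2110439) :: (true, 230030, 1565095) :: (true, 1565, 767282) ::
  (false, 0, 0) :: (false, 13941, 1048609) :: (false, 545418, 1770534) ::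
  (false, 2499648, 2200666) :: (false, 3078204, 2267102) :: (false, 1100927, 1957401) ::
  (false, 70362, 1321443) :: (false, 46, 464139) :: (true, 51, 471048) ::
  (true, 71807, 1325288) :: (true, 1074902, 1950723) :: (true, 2792251, 2235744) ::
  (true, 1957517, 2125135) :: (true, 307880, 1631646) :: (true, 2875, 836882) ::
  (false, 0, 0) :: (false, 14793, 1057534) :: (false, 587245, 1789322) ::
  (false, 2085036, 2144381) :: (false, 1284167, 2000929) :: (false, 65488, 1307961) ::
  r

def dat4 : Dat :=
  dat4_0 (dat4_1 (dat4_2 (dat4_3 (dat4_4 (dat4_5 (dat4_6 []))))))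

def grid4_0_0 (r : List (ℕ × ℕ)) : List (ℕ × ℕ) :=
  (158, 158) :: (314, 156) :: (468, 154) :: (616, 148) :: (758, 142) ::
  (894, 136) :: (1026, 132) :: (1156, 138) :: (1294, 138) :: (1432, 140) ::
  (1572, 144) :: (1716, 150) :: (1866, 156) :: (2022, 162) :: (2184, 166) ::
  (2350, 170) :: (2520, 170) ::
  r

def grid4_0 : List (ℕ × ℕ) :=
  grid4_0_0 []

theorem seg4_0 : sgc 313525 90193838150 dat4 0 158 2520 grid4_0 = true := by
  decide +kernel

def grid4_1_0 (r : List (ℕ × ℕ)) : List (ℕ × ℕ) :=
  (2678, 158) :: (2834, 156) :: (2986, 152) :: (3132, 146) :: (3272, 140) ::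
  (3406, 134) :: (3538, 138) :: (3676, 138) :: (3814, 138) :: (3952, 142) ::
  (4094, 148) :: (4242, 154) :: (4396, 160) :: (4556, 166) :: (4722, 168) ::
  (4890, 168) :: (5048, 158) ::
  r

def grid4_1 : List (ℕ × ℕ) :=
  grid4_1_0 []

theorem seg4_1 : sgc 313525 90193838150 dat4 2520 170 5048 grid4_1 = true := by
  decide +kernel

def grid4_2_0 (r : List (ℕ × ℕ)) : List (ℕ × ℕ) :=
  (5206, 158) :: (5360, 154) :: (5508, 148) :: (5650, 142) :: (5786, 136) ::
  (5918, 132) :: (6048, 138) :: (6186, 138) :: (6324, 140) :: (6464, 144) ::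
  (6608, 150) :: (6758, 156) :: (6914, 162) :: (7076, 168) :: (7244, 170) ::
  (7414, 170) :: (7572, 158) ::
  r

def grid4_2 : List (ℕ × ℕ) :=
  grid4_2_0 []

theorem seg4_2 : sgc 313525 90193838150 dat4 5048 158 7572 grid4_2 = true := by
  decide +kernel

def grid4_3_0 (r : List (ℕ × ℕ)) : List (ℕ × ℕ) :=
  (7728, 156) :: (7880, 152) :: (8026, 146) :: (8166, 140) :: (8300, 134) ::
  (8432, 138) :: (8570, 138) :: (8708, 138) :: (8846, 142) :: (8988, 148) ::
  (9136, 154) :: (9290, 160) :: (9450, 166) :: (9616, 170) :: (9786, 170) ::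
  (9944, 158) :: (10102, 158) ::
  r

def grid4_3 : List (ℕ × ℕ) :=
  grid4_3_0 []

theorem seg4_3 : sgc 313525 90193838150 dat4 7572 158 10102 grid4_3 = true := by
  decide +kernel

def grid4_4_0 (r : List (ℕ × ℕ)) : List (ℕ × ℕ) :=
  (10256, 154) :: (10404, 148) :: (10546, 142) :: (10682, 136) :: (10814, 132) ::
  (10944, 138) :: (11082, 138) :: (11220, 140) :: (11360, 144) :: (11504, 150) ::
  (11654, 158) :: (11812, 164) :: (11976, 168) :: (12144, 172) :: (12316, 172) ::
  (12474, 158) :: (12630, 156) ::
  r

def grid4_4 : List (ℕ × ℕ) :=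
  grid4_4_0 []

theorem seg4_4 : sgc 313525 90193838150 dat4 10102 158 12630 grid4_4 = true := by
  decide +kernel

def grid4_5_0 (r : List (ℕ × ℕ)) : List (ℕ × ℕ) :=
  (12782, 152) :: (12928, 146) :: (13068, 140) :: (13202, 134) :: (13334, 138) ::
  (13472, 138) :: (13610, 140) :: (13750, 144) :: (13894, 148) :: (14042, 156) ::
  (14198, 162) :: (14360, 168) :: (14528, 172) :: (14700, 172) :: (14858, 158) ::
  (15016, 158) :: (15170, 154) ::
  r

def grid4_5 : List (ℕ × ℕ) :=
  grid4_5_0 []

theorem seg4_5 : sgc 313525 90193838150 dat4 12630 156 15170 grid4_5 = true := by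
  decide +kernel

def grid4_6_0 (r : List (ℕ × ℕ)) : List (ℕ × ℕ) :=
  (15320, 150) :: (15462, 142) :: (15598, 136) :: (15730, 132) :: (15860, 138) ::
  (15998, 138) :: (16136, 142) :: (16278, 146) :: (16424, 152) :: (16576, 160) ::
  (16736, 166) :: (16902, 172) :: (17074, 172) :: (17234, 160) :: (17394, 160) ::
  (17552, 158) :: (17704, 152) ::
  r

def grid4_6 : List (ℕ × ℕ) :=
  grid4_6_0 []

theorem seg4_6 : sgc 313525 90193838150 dat4 15170 154 17704 grid4_6 = true := by
  decide +kernel

def grid4_7_0 (r : List (ℕ × ℕ)) : List (ℕ × ℕ) :=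
  (17850, 146) :: (17990, 140) :: (18124, 134) :: (18254, 138) :: (18392, 138) ::
  (18530, 140) :: (18670, 144) :: (18814, 150) :: (18964, 158) :: (19122, 164) ::
  (19286, 170) :: (19456, 174) :: (19630, 174) :: (19790, 160) :: (19948, 158) ::
  (20104, 156) :: (20254, 150) ::
  r

def grid4_7 : List (ℕ × ℕ) :=
  grid4_7_0 []

theorem seg4_7 : sgc 313525 90193838150 dat4 17704 152 20254 grid4_7 = true := by
  decide +kernel

def grid4_8_0 (r : List (ℕ × ℕ)) : List (ℕ × ℕ) :=
  (20396, 142) :: (20532, 136) :: (20664, 138) :: (20802, 138) :: (20940, 140) ::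
  (21080, 144) :: (21224, 150) :: (21374, 156) :: (21530, 164) :: (21694, 170) ::
  (21864, 176) :: (22040, 176) :: (22202, 162) :: (22362, 160) :: (22520, 158) ::
  (22672, 152) :: (22816, 144) ::
  r

def grid4_8 : List (ℕ × ℕ) :=
  grid4_8_0 []

theorem seg4_8 : sgc 313525 90193838150 dat4 20254 150 22816 grid4_8 = true := by
  decide +kernel

def grid4_9_0 (r : List (ℕ × ℕ)) : List (ℕ × ℕ) :=
  (22954, 138) :: (23086, 132) :: (23216, 138) :: (23354, 138) :: (23492, 142) ::
  (23634, 148) :: (23782, 154) :: (23936, 162) :: (24098, 170) :: (24268, 176) ::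
  (24444, 178) :: (24622, 178) :: (24786, 164) :: (24946, 160) :: (25100, 154) ::
  (25248, 148) :: (25388, 140) ::
  r

def grid4_9 : List (ℕ × ℕ) :=
  grid4_9_0 []

theorem seg4_9 : sgc 313525 90193838150 dat4 22816 144 25388 grid4_9 = true := by
  decide +kernel

def grid4_10_0 (r : List (ℕ × ℕ)) : List (ℕ × ℕ) :=
  (25520, 132) :: (25650, 138) :: (25788, 138) :: (25926, 142) :: (26068, 146) ::
  (26214, 154) :: (26368, 162) :: (26530, 170) :: (26700, 178) :: (26878, 180) ::
  (27058, 180) :: (27224, 166) :: (27386, 162) :: (27544, 158) :: (27694, 150) ::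
  (27834, 140) :: (27968, 134) ::
  r

def grid4_10 : List (ℕ × ℕ) :=
  grid4_10_0 []

theorem seg4_10 : sgc 313525 90193838150 dat4 25388 140 27968 grid4_10 = true := by
  decide +kernel

def grid4_11_0 (r : List (ℕ × ℕ)) : List (ℕ × ℕ) :=
  (28098, 138) :: (28236, 138) :: (28374, 142) :: (28516, 146) :: (28662, 154) ::
  (28816, 164) :: (28980, 172) :: (29152, 180) :: (29332, 182) :: (29514, 182) ::
  (29682, 168) :: (29846, 164) :: (30004, 158) :: (30154, 150) :: (30296, 142) ::
  (30430, 134) :: (30560, 138) ::
  r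

def grid4_11 : List (ℕ × ℕ) :=
  grid4_11_0 []

theorem seg4_11 : sgc 313525 90193838150 dat4 27968 134 30560 grid4_11 = true := by
  decide +kernel

def grid4_12_0 (r : List (ℕ × ℕ)) : List (ℕ × ℕ) :=
  (30698, 138) :: (30836, 142) :: (30978, 148) :: (31126, 156) :: (31282, 166) ::
  (31448, 176) :: (31624, 182) :: (31806, 186) :: (31992, 186) :: (32164, 172) ::
  (32330, 166) :: (32488, 158) :: (32640, 152) :: (32782, 142) :: (32916, 134) ::
  (33046, 138) :: (33184, 138) ::
  r

def grid4_12 : List (ℕ × ℕ) :=
  grid4_12_0 []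

theorem seg4_12 : sgc 313525 90193838150 dat4 30560 138 33184 grid4_12 = true := by
  decide +kernel

def grid4_13_0 (r : List (ℕ × ℕ)) : List (ℕ × ℕ) :=
  (33322, 142) :: (33464, 150) :: (33614, 160) :: (33774, 170) :: (33944, 180) ::
  (34124, 186) :: (34310, 186) :: (34486, 176) :: (34660, 174) :: (34828, 168) ::
  (34988, 160) :: (35140, 152) :: (35282, 142) :: (35416, 134) :: (35546, 138) ::
  (35684, 140) :: (35824, 144) ::
  r

def grid4_13 : List (ℕ × ℕ) :=
  grid4_13_0 []

theorem seg4_13 : sgc 313525 90193838150 dat4 33184 138 35824 grid4_13 = true := by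
  decide +kernel

def grid4_14_0 (r : List (ℕ × ℕ)) : List (ℕ × ℕ) :=
  (35968, 154) :: (36122, 164) :: (36286, 176) :: (36462, 186) :: (36648, 192) ::
  (36840, 192) :: (37020, 180) :: (37198, 178) :: (37368, 170) :: (37526, 158) ::
  (37676, 150) :: (37814, 138) :: (37946, 138) :: (38084, 138) :: (38222, 142) ::
  (38364, 150) :: (38514, 160) ::
  r

def grid4_14 : List (ℕ × ℕ) :=
  grid4_14_0 []

theorem seg4_14 : sgc 313525 90193838150 dat4 35824 144 38514 grid4_14 = true := by
  decide +kernel

def grid4_15_0 (r : List (ℕ × ℕ)) : List (ℕ × ℕ) :=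
  (38674, 172) :: (38846, 186) :: (39032, 196) :: (39228, 196) :: (39414, 186) ::
  (39600, 186) :: (39778, 178) :: (39946, 168) :: (40102, 156) :: (40246, 144) ::
  (40380, 134) :: (40510, 138) :: (40648, 140) :: (40788, 148) :: (40936, 158) ::
  (41094, 172) :: (41266, 186) ::
  r

def grid4_15 : List (ℕ × ℕ) :=
  grid4_15_0 []

theorem seg4_15 : sgc 313525 90193838150 dat4 38514 160 41266 grid4_15 = true := by
  decide +kernel

def grid4_16_0 (r : List (ℕ × ℕ)) : List (ℕ × ℕ) :=
  (41452, 200) :: (41652, 206) :: (41858, 206) :: (42050, 192) :: (42236, 186) ::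
  (42410, 174) :: (42570, 160) :: (42718, 148) :: (42854, 136) :: (42984, 138) ::
  (43122, 140) :: (43262, 148) :: (43410, 160) :: (43570, 176) :: (43746, 194) ::
  (43940, 208) :: (44148, 216) ::
  r

def grid4_16 : List (ℕ × ℕ) :=
  grid4_16_0 []

theorem seg4_16 : sgc 313525 90193838150 dat4 41266 186 44148 grid4_16 = true := by
  decide +kernel

def grid4_17_0 (r : List (ℕ × ℕ)) : List (ℕ × ℕ) :=
  (44364, 216) :: (44564, 200) :: (44756, 192) :: (44920, 164) :: (45070, 150) ::
  (45208, 138) :: (45344, 136) :: (45474, 138) :: (45612, 142) :: (45754, 150) ::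
  (45904, 166) :: (46070, 184) :: (46254, 204) :: (46458, 220) :: (46678, 220) ::
  (46890, 212) :: (47100, 210) ::
  r

def grid4_17 : List (ℕ × ℕ) :=
  grid4_17_0 []

theorem seg4_17 : sgc 313525 90193838150 dat4 44148 216 47100 grid4_17 = true := by
  decide +kernel

def grid4_18_0 (r : List (ℕ × ℕ)) : List (ℕ × ℕ) :=
  (47284, 184) :: (47452, 168) :: (47604, 152) :: (47740, 136) :: (47874, 138) ::
  (48012, 138) :: (48150, 146) :: (48296, 160) :: (48456, 180) :: (48636, 204) ::
  (48840, 226) :: (49066, 242) :: (49308, 242) :: (49534, 226) :: (49734, 200) ::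
  (49918, 184) :: (50080, 162) ::
  r

def grid4_18 : List (ℕ × ℕ) :=
  grid4_18_0 []

theorem seg4_18 : sgc 313525 90193838150 dat4 47100 210 50080 grid4_18 = true := by
  decide +kernel

def grid4_19_0 (r : List (ℕ × ℕ)) : List (ℕ × ℕ) :=
  (50222, 142) :: (50360, 138) :: (50490, 138) :: (50628, 146) :: (50774, 164) ::
  (50938, 188) :: (51126, 218) :: (51344, 248) :: (51592, 266) :: (51858, 266) ::
  (52104, 246) :: (52316, 212) :: (52502, 186) :: (52660, 158) :: (52796, 136) ::
  (52928, 138) :: (53066, 144) ::
  r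

def grid4_19 : List (ℕ × ℕ) :=
  grid4_19_0 []

theorem seg4_19 : sgc 313525 90193838150 dat4 50080 162 53066 grid4_19 = true := by
  decide +kernel

def grid4_20_0 (r : List (ℕ × ℕ)) : List (ℕ × ℕ) :=
  (53210, 162) :: (53372, 192) :: (53564, 232) :: (53796, 272) :: (54068, 300) ::
  (54368, 300) :: (54628, 260) :: (54846, 218) :: (55032, 186) :: (55186, 154) ::
  (55324, 138) :: (55456, 138) :: (55594, 152) :: (55746, 184) :: (55930, 234) ::
  (56164, 294) :: (56458, 348) ::
  r

def grid4_20 : List (ℕ × ℕ) :=
  grid4_20_0 []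

theorem seg4_20 : sgc 313525 90193838150 dat4 53066 144 56458 grid4_20 = true := by
  decide +kernel

def grid4_21_0 (r : List (ℕ × ℕ)) : List (ℕ × ℕ) :=
  (56806, 348) :: (57122, 316) :: (57384, 262) :: (57576, 192) :: (57724, 148) ::
  (57862, 138) :: (58000, 146) :: (58146, 186) :: (58332, 258) :: (58590, 360) ::
  (58950, 466) :: (59416, 466) :: (59776, 360) :: (60020, 244) :: (60188, 168) ::
  (60320, 138) :: (60458, 168) ::
  r

def grid4_21 : List (ℕ × ℕ) :=
  grid4_21_0 []

theorem seg4_21 : sgc 313525 90193838150 dat4 56458 348 60458 grid4_21 = true := by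
  decide +kernel

def grid4_22_0 (r : List (ℕ × ℕ)) : List (ℕ × ℕ) :=
  (60626, 278) :: (60904, 504) :: (61408, 746) :: (62154, 746) :: (62348, 194) ::
  (62364, 16) ::
  r

def grid4_22 : List (ℕ × ℕ) :=
  grid4_22_0 []

theorem seg4_22 : sgc 313525 90193838150 dat4 60458 168 62364 grid4_22 = true := by
  decide +kernel

theorem chk4 : chk 3 313525 90193838150 10000000 100000000000 3504 10000 62364 dat4 = true := by
  decide +kernel

theorem both4 : Both 4 (3504 / 10000) := by
  have h := chk_sound (by norm_num) (by norm_num) (by norm_num) (by norm_num) (by norm_num) chk4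
    ((sgc_sound seg4_0).trans
    ((sgc_sound seg4_1).trans
    ((sgc_sound seg4_2).trans
    ((sgc_sound seg4_3).trans
    ((sgc_sound seg4_4).trans
    ((sgc_sound seg4_5).trans
    ((sgc_sound seg4_6).trans
    ((sgc_sound seg4_7).trans
    ((sgc_sound seg4_8).trans
    ((sgc_sound seg4_9).trans
    ((sgc_sound seg4_10).trans
    ((sgc_sound seg4_11).trans
    ((sgc_sound seg4_12).trans
    ((sgc_sound seg4_13).trans
    ((sgc_sound seg4_14).trans
    ((sgc_sound seg4_15).trans
    ((sgc_sound seg4_16).trans
    ((sgc_sound seg4_17).trans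
    ((sgc_sound seg4_18).trans
    ((sgc_sound seg4_19).trans
    ((sgc_sound seg4_20).trans
    ((sgc_sound seg4_21).trans
    (sgc_sound seg4_22)))))))))))))))))))))))
  exact_mod_cast h

end Pool.Agent.P.MP_62e163_co
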