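import Pool.Agent.P.MP_62e163_co.T3

namespace Pool.Agent.P.MP_62e163_co

def dat5_0 (r : Dat) : Dat :=
  (false, 72884246373, 9654662) :: (false, 27069695951, 8648536) :: (false, 4405358981, 7068565) ::
  (false, 213927349, 5050832) :: (false, 954496, 2768198) :: (false, 0, 0) ::
  (true, 21091, 1812313) :: (true, 13949878, 3729228) :: (true, 270006932, 5183191) ::
  (true, 1110676154, 6065171) :: (true, 1607020359, 6319301) :: (true, 930687096, 5947186) ::
  (true, 197744250, 5006879) :: (true, 10326349, 3606660) :: (true, 31401, 1894258) ::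
  (false, 0, 0) :: (false, 16786, 1766921) :: (false, 5472038, 3360942) ::
  (false, 90556667, 4590712) :: (false, 356270779, 5345343) :: (false, 509125867, 5561639) ::
  (false, 292377656, 5229236) :: (false, 60643878, 4390681) :: (false, 2937616, 3136490) ::
  (false, 6708, 1595722) :: (false, 0, 0) :: (true, 12946, 1716664) ::
  (true, 3177939, 3164014) :: (true, 48264888, 4280698) :: (true, 182482485, 4962394) ::
  (true, 254140166, 5148430) :: (true, 142290748, 4827100) :: (true, 28427813, 4036189) ::
  (true, 1275113, 2858723) :: (true, 2265, 1414384) :: (false, 0, 0) ::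
  (false, 11087, 1687342) :: (false, 2219147, 3040252) :: (false, 31380226, 4080746) ::
  (false, 114109709, 4710162) :: (false, 154360395, 4870966) :: (false, 83904963, 4551962) ::
  (false, 16094102, 3788947) :: (false, 668481, 2660786) :: (false, 931, 1281331) ::
  (false, 0, 0) :: (true, 10203, 1671834) :: (true, 1719683, 2955326) ::
  (true, 22780007, 3938073) :: (true, 79713836, 4526119) :: (true, 104612292, 4664902) ::
  (true, 55113790, 4344280) :: (true, 10135372, 3599187) :: (true, 389622, 2505881) ::
  (true, 424, 1174183) :: (false, 0, 0) :: (false, 9853, 1665363) ::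
  (false, 1423937, 2894003) :: (false, 17733025, 3829994) :: (false, 59742934, 4383385) ::
  r

def dat5_1 (r : Dat) : Dat :=
  (false, 76022168, 4502335) :: (false, 38785059, 4177945) :: (false, 6831942, 3444860) ::
  (false, 242801, 2377601) :: (false, 204, 1083022) :: (false, 0, 0) ::
  (true, 9839, 1665103) :: (true, 1234043, 2848343) :: (true, 14483701, 3744821) ::
  (true, 46998776, 4268073) :: (true, 57972243, 4368756) :: (true, 28624349, 4039280) ::
  (true, 4825741, 3314332) :: (true, 158301, 2267244) :: (true, 102, 1002598) ::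
  (false, 0, 0) :: (false, 10066, 1669334) :: (false, 1105527, 2813750) ::
  (false, 12250987, 3675804) :: (false, 38302245, 4172134) :: (false, 45787249, 4255706) ::
  (false, 21869348, 3920262) :: (false, 3525756, 3200739) :: (false, 106539, 2169651) ::
  (false, 51, 929793) :: (false, 0, 0) :: (true, 10488, 1676957) ::
  (true, 1015598, 2787349) :: (true, 10641224, 3618717) :: (true, 32061987, 4090503) ::
  (true, 37136946, 4157836) :: (true, 17149682, 3815786) :: (true, 2641568, 3099688) ::
  (true, 73347, 2081500) :: (true, 26, 862588) :: (false, 0, 0) ::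
  (false, 11082, 1687254) :: (false, 951543, 2767245) :: (false, 9437213, 3570758) ::
  (false, 27406073, 4019807) :: (false, 30750036, 4071558) :: (false, 13722013, 3722410) ::
  (false, 2017222, 3008195) :: (false, 51319, 2000518) :: (false, 13, 799585) ::
  (false, 0, 0) :: (true, 11842, 1699747) :: (true, 905819, 2752145) ::
  (true, 8510664, 3529992) :: (true, 23822092, 3957694) :: (true, 25883609, 3994360) ::
  (true, 11154400, 3637704) :: (true, 1563097, 2924142) :: (true, 36311, 1925080) ::
  (true, 6, 739777) :: (false, 0, 0) :: (false, 12774, 1714103) ::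
  (false, 873677, 2741119) :: (false, 7781187, 3495019) :: (false, 20991338, 3902454) ::
  r

def dat5_2 (r : Dat) : Dat :=
  (false, 22077882, 3924398) :: (false, 9181550, 3559878) :: (false, 1224763, 2845955) ::
  (false, 25876, 1853965) :: (false, 3, 682393) :: (false, 0, 0) ::
  (true, 13887, 1730096) :: (true, 852040, 2733492) :: (true, 7196205, 3464800) ::
  (true, 18706312, 3852800) :: (true, 19035318, 3860271) :: (true, 7632841, 3487552) ::
  (true, 967637, 2772407) :: (true, 18508, 1786205) :: (true, 1, 626800) ::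
  (false, 0, 0) :: (false, 15204, 1747599) :: (false, 838929, 2728786) ::
  (false, 6720453, 3438568) :: (false, 16827950, 3807765) :: (false, 16557370, 3800913) ::
  (false, 6395203, 3419667) :: (false, 769053, 2702545) :: (false, 13246, 1721039) ::
  (false, 0, 0) :: (true, 1, 629537) :: (true, 16752, 1766523) ::
  (true, 832982, 2726630) :: (true, 6329060, 3415719) :: (true, 15258771, 3766575) ::
  (true, 14505959, 3745460) :: (true, 5390699, 3355354) :: (true, 613586, 2635573) ::
  (true, 9458, 1657817) :: (false, 0, 0) :: (false, 2, 668221) ::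
  (false, 18567, 1786835) :: (false, 833334, 2726758) :: (false, 6004321, 3395787) ::
  (false, 13929288, 3728616) :: (false, 12783157, 3693212) :: (false, 4564430, 3293894) ::
  (false, 490518, 2570827) :: (false, 6718, 1595989) :: (false, 0, 0) ::
  (true, 4, 707413) :: (true, 20697, 1808526) :: (true, 839413, 2728961) ::
  (true, 5733004, 3378385) :: (true, 12787893, 3693364) :: (true, 11317024, 3643559) ::
  (true, 3876563, 3234651) :: (true, 392173, 2507699) :: (true, 4732, 1535029) ::
  (false, 0, 0) :: (false, 7, 747345) :: (false, 23204, 1831646) ::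
  (false, 850966, 2733109) :: (false, 5505523, 3363221) :: (false, 11796398, 3660393) ::
  r

def dat5_3 (r : Dat) : Dat :=
  (false, 10054558, 3595987) :: (false, 3297908, 3177068) :: (false, 312997, 2445645) ::
  (false, 3293, 1474459) :: (false, 0, 0) :: (true, 11, 788251) ::
  (true, 26167, 1856270) :: (true, 867939, 2739113) :: (true, 5314490, 3350050) ::
  (true, 10925419, 3629330) :: (true, 8955352, 3550025) :: (true, 2806575, 3120627) ::
  (true, 248881, 2384144) :: (true, 2256, 1413801) :: (false, 0, 0) ::
  (false, 18, 830394) :: (false, 29692, 1882513) :: (false, 890482, 2746928) ::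
  (false, 5154257, 3338674) :: (false, 10151908, 3599839) :: (false, 7988256, 3505233) ::
  (false, 2385844, 3064818) :: (false, 196735, 2322667) :: (false, 1514, 1352557) ::
  (false, 0, 0) :: (true, 29, 874084) :: (true, 33916, 1910543) ::
  (true, 918997, 2756565) :: (true, 5020632, 3328944) :: (true, 9457879, 3571626) ::
  (true, 7129154, 3461198) :: (true, 2023005, 3009152) :: (true, 154230, 2260691) ::
  (true, 990, 1290219) :: (false, 0, 0) :: (false, 47, 919653) ::
  (false, 39022, 1940547) :: (false, 954015, 2768043) :: (false, 4909913, 3320706) ::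
  (false, 8827824, 3544372) :: (false, 6358203, 3417463) :: (false, 1707904, 2953070) ::
  (false, 119550, 2197608) :: (false, 626, 1226184) :: (false, 0, 0) ::
  (true, 74, 967527) :: (true, 45262, 1972794) :: (true, 996407, 2781447) ::
  (true, 4819350, 3313844) :: (true, 8249086, 3517769) :: (true, 5659582, 3373550) ::
  (true, 1432657, 2895967) :: (true, 91293, 2132739) :: (true, 379, 1159766) ::
  (false, 0, 0) :: (false, 117, 1018213) :: (false, 52980, 2007612) ::
  (false, 1047300, 2796885) :: (false, 4746379, 3308231) :: (false, 7710005, 3491452) ::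
  r

def dat5_4 (r : Dat) : Dat :=
  (false, 5019790, 3328882) :: (false, 1190886, 2837099) :: (false, 68348, 2065236) ::
  (false, 217, 1090087) :: (false, 0, 0) :: (true, 187, 1072398) ::
  (true, 62685, 2045484) :: (true, 1108469, 2814581) :: (true, 4689431, 3303797) ::
  (true, 7201010, 3465057) :: (true, 4428224, 3282825) :: (true, 977755, 2775613) ::
  (true, 49857, 1994106) :: (true, 115, 1016109) :: (false, 0, 0) ::
  (false, 302, 1130904) :: (false, 75103, 2086979) :: (false, 1182150, 2834779) ::
  (false, 4646480, 3300421) :: (false, 6711961, 3438085) :: (false, 3875258, 3234530) ::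
  (false, 789348, 2710378) :: (false, 35132, 1918033) :: (false, 55, 936452) ::
  (false, 0, 0) :: (true, 496, 1194825) :: (true, 91337, 2132853) ::
  (true, 1271408, 2857799) :: (true, 4614899, 3297921) :: (true, 6231675, 3409839) ::
  (true, 3352045, 3182821) :: (true, 622550, 2639824) :: (true, 23610, 1835182) ::
  (true, 22, 849186) :: (false, 0, 0) :: (false, 833, 1265714) ::
  (false, 113143, 2184198) :: (false, 1380791, 2884126) :: (false, 4591828, 3296085) ::
  (false, 5748233, 3379381) :: (false, 2850998, 3126077) :: (false, 475171, 2561763) ::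
  (false, 14847, 1742984) :: (false, 7, 751597) :: (false, 0, 0) ::
  (true, 1447, 1345754) :: (true, 143432, 2242531) :: (true, 1516858, 2914402) ::
  (true, 4572455, 3294537) :: (true, 5246674, 3345273) :: (true, 2365186, 3061858) ::
  (true, 345853, 2472921) :: (true, 8469, 1637603) :: (true, 1, 639640) ::
  (false, 0, 0) :: (false, 2631, 1438163) :: (false, 187316, 2310041) ::
  (false, 1689159, 2949451) :: (false, 4547298, 3292518) :: (false, 4705949, 3305088) ::
  r

def dat5_5 (r : Dat) : Dat :=
  (false, 1888051, 2986157) :: (false, 234097, 2367977) :: (false, 4150, 1512829) ::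
  (false, 0, 0) :: (false, 0, 0) :: (true, 5106, 1548082) ::
  (true, 254589, 2390159) :: (true, 1912500, 2990429) :: (true, 4497807, 3288517) ::
  (true, 4096042, 3254505) :: (true, 1414972, 2891973) :: (true, 140665, 2237683) ::
  (true, 1569, 1357903) :: (false, 0, 0) :: (false, 4, 707773) ::
  (false, 10903, 1684218) :: (false, 365879, 2488436) :: (false, 2208789, 3038672) ::
  (false, 4380801, 3278900) :: (false, 3368831, 3184588) :: (false, 945473, 2765278) ::
  (false, 67897, 2063719) :: (false, 356, 1151613) :: (false, 0, 0) ::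
  (true, 46, 918267) :: (true, 27060, 1863197) :: (true, 571343, 2614767) ::
  (true, 2605525, 3094960) :: (true, 4085068, 3253535) :: (true, 2446570, 3073389) ::
  (true, 493521, 2572571) :: (true, 20103, 1802684) :: (true, 21, 843820) ::
  (false, 0, 0) :: (false, 638, 1228662) :: (false, 87354, 2122312) ::
  (false, 1017659, 2787977) :: (false, 3074332, 3152383) :: (false, 3265798, 3173616) ::
  (false, 1225712, 2846200) :: (false, 121978, 2202523) :: (false, 1139, 1310400) ::
  (false, 0, 0) :: (true, 15, 810720) :: (true, 19537, 1796967) ::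
  (true, 489811, 2570415) :: (true, 2130595, 3026527) :: (true, 2559819, 3088880) ::
  (true, 809386, 2717938) :: (true, 34860, 1916382) ::
  r

def dat5 : Dat :=
  dat5_0 (dat5_1 (dat5_2 (dat5_3 (dat5_4 (dat5_5 [])))))

def grid5_0_0 (r : List (ℕ × ℕ)) : List (ℕ × ℕ) :=
  (160, 162) :: (322, 170) :: (492, 180) :: (672, 194) :: (866, 208) ::
  (1074, 224) :: (1298, 236) :: (1534, 242) :: (1776, 242) :: (2002, 226) ::
  (2220, 218) :: (2430, 210) :: (2626, 196) :: (2808, 182) :: (2976, 168) ::
  (3134, 158) :: (3286, 160) :: (3446, 162) :: (3608, 166) :: (3774, 176) ::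
  r

def grid5_0 : List (ℕ × ℕ) :=
  grid5_0_0 []

theorem seg5_0 : sgc 375845 101328484268 dat5 0 160 3774 grid5_0 = true := by
  decide +kernel

def grid5_1_0 (r : List (ℕ × ℕ)) : List (ℕ × ℕ) :=
  (3950, 190) :: (4140, 204) :: (4344, 220) :: (4564, 234) :: (4798, 242) ::
  (5040, 242) :: (5266, 226) :: (5488, 222) :: (5700, 212) :: (5900, 200) ::
  (6086, 186) :: (6258, 172) :: (6418, 160) :: (6572, 160) :: (6732, 160) ::
  (6892, 166) :: (7058, 174) :: (7232, 186) :: (7418, 202) :: (7620, 218) ::
  r

def grid5_1 : List (ℕ × ℕ) :=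
  grid5_1_0 []

theorem seg5_1 : sgc 375845 101328484268 dat5 3774 176 7620 grid5_1 = true := by
  decide +kernel

def grid5_2_0 (r : List (ℕ × ℕ)) : List (ℕ × ℕ) :=
  (7838, 232) :: (8070, 242) :: (8312, 242) :: (8540, 228) :: (8766, 226) ::
  (8982, 216) :: (9186, 204) :: (9376, 190) :: (9552, 176) :: (9714, 162) ::
  (9870, 156) :: (10020, 160) :: (10180, 164) :: (10344, 172) :: (10516, 184) ::
  (10700, 198) :: (10898, 214) :: (11112, 230) :: (11342, 242) :: (11584, 242) ::
  r

def grid5_2 : List (ℕ × ℕ) :=
  grid5_2_0 []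

theorem seg5_2 : sgc 375845 101328484268 dat5 7620 218 11584 grid5_2 = true := by
  decide +kernel

def grid5_3_0 (r : List (ℕ × ℕ)) : List (ℕ × ℕ) :=
  (11814, 230) :: (12042, 228) :: (12262, 220) :: (12472, 210) :: (12666, 194) ::
  (12846, 180) :: (13012, 166) :: (13170, 158) :: (13320, 160) :: (13480, 162) ::
  (13642, 170) :: (13812, 182) :: (13994, 196) :: (14190, 212) :: (14402, 230) ::
  (14632, 242) :: (14874, 250) :: (15124, 250) :: (15356, 232) :: (15580, 224) ::
  r

def grid5_3 : List (ℕ × ℕ) :=
  grid5_3_0 []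

theorem seg5_3 : sgc 375845 101328484268 dat5 11584 242 15580 grid5_3 = true := by
  decide +kernel

def grid5_4_0 (r : List (ℕ × ℕ)) : List (ℕ × ℕ) :=
  (15792, 212) :: (15976, 184) :: (16146, 170) :: (16316, 170) :: (16474, 158) ::
  (16626, 160) :: (16786, 162) :: (16948, 168) :: (17116, 180) :: (17296, 196) ::
  (17492, 212) :: (17704, 230) :: (17934, 244) :: (18178, 254) :: (18432, 254) ::
  (18668, 236) :: (18898, 230) :: (19114, 216) :: (19300, 186) :: (19472, 172) ::
  r

def grid5_4 : List (ℕ × ℕ) :=
  grid5_4_0 []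

theorem seg5_4 : sgc 375845 101328484268 dat5 15580 224 19472 grid5_4 = true := by
  decide +kernel

def grid5_5_0 (r : List (ℕ × ℕ)) : List (ℕ × ℕ) :=
  (19644, 172) :: (19802, 158) :: (19954, 160) :: (20114, 162) :: (20276, 168) ::
  (20444, 180) :: (20624, 196) :: (20820, 214) :: (21034, 234) :: (21268, 248) ::
  (21516, 258) :: (21774, 258) :: (22014, 240) :: (22248, 234) :: (22468, 220) ::
  (22656, 188) :: (22828, 172) :: (23000, 172) :: (23158, 158) :: (23310, 160) ::
  r

def grid5_5 : List (ℕ × ℕ) :=
  grid5_5_0 []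

theorem seg5_5 : sgc 375845 101328484268 dat5 19472 172 23310 grid5_5 = true := by
  decide +kernel

def grid5_6_0 (r : List (ℕ × ℕ)) : List (ℕ × ℕ) :=
  (23470, 162) :: (23632, 170) :: (23802, 184) :: (23986, 202) :: (24188, 222) ::
  (24410, 240) :: (24650, 256) :: (24906, 256) :: (25152, 246) :: (25398, 246) ::
  (25636, 238) :: (25840, 204) :: (26028, 188) :: (26200, 172) :: (26370, 170) ::
  (26528, 158) :: (26678, 160) :: (26838, 164) :: (27002, 174) :: (27176, 188) ::
  r

def grid5_6 : List (ℕ × ℕ) :=
  grid5_6_0 []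

theorem seg5_6 : sgc 375845 101328484268 dat5 23310 160 27176 grid5_6 = true := by
  decide +kernel

def grid5_7_0 (r : List (ℕ × ℕ)) : List (ℕ × ℕ) :=
  (27364, 208) :: (27572, 230) :: (27802, 252) :: (28054, 268) :: (28322, 268) ::
  (28576, 254) :: (28828, 252) :: (29066, 238) :: (29270, 204) :: (29456, 186) ::
  (29624, 168) :: (29790, 166) :: (29944, 160) :: (30104, 162) :: (30266, 168) ::
  (30434, 182) :: (30616, 202) :: (30818, 226) :: (31044, 250) :: (31294, 272) ::
  r

def grid5_7 : List (ℕ × ℕ) :=
  grid5_7_0 []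

theorem seg5_7 : sgc 375845 101328484268 dat5 27176 188 31294 grid5_7 = true := by
  decide +kernel

def grid5_8_0 (r : List (ℕ × ℕ)) : List (ℕ × ℕ) :=
  (31566, 284) :: (31850, 284) :: (32114, 264) :: (32348, 234) :: (32564, 216) ::
  (32760, 196) :: (32936, 176) :: (33094, 158) :: (33252, 158) :: (33402, 160) ::
  (33562, 166) :: (33728, 180) :: (33908, 200) :: (34108, 226) :: (34334, 254) ::
  (34588, 278) :: (34866, 296) :: (35162, 296) :: (35438, 276) :: (35682, 244) ::
  r

def grid5_8 : List (ℕ × ℕ) :=
  grid5_8_0 []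

theorem seg5_8 : sgc 375845 101328484268 dat5 31294 272 35682 grid5_8 = true := by
  decide +kernel

def grid5_9_0 (r : List (ℕ × ℕ)) : List (ℕ × ℕ) :=
  (35908, 226) :: (36112, 204) :: (36294, 182) :: (36454, 160) :: (36612, 158) ::
  (36762, 160) :: (36922, 168) :: (37090, 184) :: (37274, 208) :: (37482, 238) ::
  (37720, 270) :: (37990, 298) :: (38288, 298) :: (38580, 292) :: (38872, 292) ::
  (39126, 254) :: (39356, 230) :: (39558, 202) :: (39734, 176) :: (39890, 156) ::
  r

def grid5_9 : List (ℕ × ℕ) :=
  grid5_9_0 []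

theorem seg5_9 : sgc 375845 101328484268 dat5 35682 244 39890 grid5_9 = true := by
  decide +kernel

def grid5_10_0 (r : List (ℕ × ℕ)) : List (ℕ × ℕ) :=
  (40044, 160) :: (40204, 164) :: (40368, 178) :: (40546, 204) :: (40750, 236) ::
  (40986, 274) :: (41260, 312) :: (41572, 336) :: (41908, 336) :: (42224, 316) ::
  (42498, 274) :: (42742, 244) :: (42938, 196) :: (43120, 182) :: (43278, 158) ::
  (43432, 160) :: (43592, 168) :: (43760, 188) :: (43948, 220) :: (44168, 264) ::
  r

def grid5_10 : List (ℕ × ℕ) :=
  grid5_10_0 []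

theorem seg5_10 : sgc 375845 101328484268 dat5 39890 156 44168 grid5_10 = true := by
  decide +kernel

def grid5_11_0 (r : List (ℕ × ℕ)) : List (ℕ × ℕ) :=
  (44432, 312) :: (44744, 354) :: (45098, 354) :: (45446, 348) :: (45762, 316) ::
  (46024, 262) :: (46248, 224) :: (46434, 186) :: (46604, 170) :: (46762, 160) ::
  (46922, 166) :: (47088, 190) :: (47278, 230) :: (47508, 284) :: (47792, 348) ::
  (48140, 406) :: (48546, 406) :: (48944, 398) :: (49262, 318) :: (49536, 274) ::
  r

def grid5_11 : List (ℕ × ℕ) :=
  grid5_11_0 []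

theorem seg5_11 : sgc 375845 101328484268 dat5 44168 264 49536 grid5_11 = true := by
  decide +kernel

def grid5_12_0 (r : List (ℕ × ℕ)) : List (ℕ × ℕ) :=
  (49758, 222) :: (49934, 176) :: (50090, 162) :: (50252, 166) :: (50418, 194) ::
  (50612, 248) :: (50860, 326) :: (51186, 420) :: (51606, 500) :: (52106, 500) ::
  (52516, 410) :: (52844, 328) :: (53100, 256) :: (53288, 188) :: (53442, 162) ::
  (53604, 170) :: (53774, 218) :: (53992, 310) :: (54302, 450) :: (54752, 618) ::
  r

def grid5_12 : List (ℕ × ℕ) :=
  grid5_12_0 []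

theorem seg5_12 : sgc 375845 101328484268 dat5 49536 274 54752 grid5_12 = true := by
  decide +kernel

def grid5_13_0 (r : List (ℕ × ℕ)) : List (ℕ × ℕ) :=
  (55370, 618) :: (55932, 562) :: (56304, 372) :: (56558, 254) :: (56730, 172) ::
  (56902, 180) :: (57082, 290) :: (57372, 532) :: (57904, 984) :: (58888, 984) ::
  (59440, 552) :: (59528, 88) ::
  r

def grid5_13 : List (ℕ × ℕ) :=
  grid5_13_0 []

theorem seg5_13 : sgc 375845 101328484268 dat5 54752 618 59528 grid5_13 = true := by
  decide +kernel

theorem chk5 : chk 4 375845 101328484268 10000000 100000000000 3026 10000 59528 dat5 = true := by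
  decide +kernel

theorem both5 : Both 5 (3026 / 10000) := by
  have h := chk_sound (by norm_num) (by norm_num) (by norm_num) (by norm_num) (by norm_num) chk5
    ((sgc_sound seg5_0).trans
    ((sgc_sound seg5_1).trans
    ((sgc_sound seg5_2).trans
    ((sgc_sound seg5_3).trans
    ((sgc_sound seg5_4).trans
    ((sgc_sound seg5_5).trans
    ((sgc_sound seg5_6).trans
    ((sgc_sound seg5_7).trans
    ((sgc_sound seg5_8).trans
    ((sgc_sound seg5_9).trans
    ((sgc_sound seg5_10).trans
    ((sgc_sound seg5_11).trans
    ((sgc_sound seg5_12).trans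
    (sgc_sound seg5_13))))))))))))))
  exact_mod_cast h

end Pool.Agent.P.MP_62e163_co
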