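import Pool.Agent.P.MP_62e163_co.T4

namespace Pool.Agent.P.MP_62e163_co

def dat6_0 (r : Dat) : Dat :=
  (false, 75552632160, 9748365) :: (false, 31724147371, 9008901) :: (false, 6753275887, 7826944) ::
  (false, 593757933, 6274814) :: (false, 13456855, 4447191) :: (false, 19528, 2455058) ::
  (false, 0, 0) :: (true, 115, 1540345) :: (true, 515966, 3306201) ::
  (true, 29542798, 4776744) :: (true, 284888453, 5869577) :: (true, 916187602, 6527184) ::
  (true, 1262745378, 6720357) :: (true, 803503898, 6449772) :: (true, 225273040, 5745624) ::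
  (true, 22788744, 4665344) :: (true, 488135, 3289577) :: (true, 381, 1716673) ::
  (false, 0, 0) :: (false, 152, 1578930) :: (false, 235533, 3078707) ::
  (false, 10404079, 4344378) :: (false, 91583136, 5294213) :: (false, 284471220, 5868795) ::
  (false, 386539898, 6034677) :: (false, 243442950, 5786284) :: (false, 67005436, 5145938) ::
  (false, 6492042, 4162051) :: (false, 124613, 2905582) :: (false, 66, 1465037) ::
  (false, 0, 0) :: (true, 136, 1563973) :: (true, 144999, 2945881) ::
  (true, 5693264, 4112669) :: (true, 47461586, 4987114) :: (true, 142846397, 5512540) ::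
  (true, 189666696, 5656459) :: (true, 116793687, 5412548) :: (true, 31225003, 4800853) ::
  (true, 2884976, 3866212) :: (true, 50186, 2675012) :: (true, 19, 1310528) ::
  (false, 0, 0) :: (false, 129, 1556140) :: (false, 105699, 2862423) ::
  (false, 3791940, 3963495) :: (false, 30161094, 4785747) :: (false, 88004904, 5275066) ::
  (false, 113936791, 5400376) :: (false, 68401820, 5155596) :: (false, 17721271, 4559887) ::
  (false, 1560674, 3656187) :: (false, 24710, 2508142) :: (false, 7, 1195646) ::
  (false, 0, 0) :: (true, 129, 1555765) :: (true, 85076, 2806496) ::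
  (true, 2819359, 3858134) :: (true, 21462804, 4639989) :: (true, 60733376, 5100166) ::
  r

def dat6_1 (r : Dat) : Dat :=
  (true, 76611390, 5208995) :: (true, 44792038, 4960937) :: (true, 11234941, 4374828) ::
  (true, 942892, 3492472) :: (true, 13603, 2375673) :: (true, 2, 1101923) ::
  (false, 0, 0) :: (false, 133, 1560872) :: (false, 73002, 2767717) ::
  (false, 2248225, 3779549) :: (false, 16409609, 4528121) :: (false, 45044954, 4963477) ::
  (false, 55345373, 5057274) :: (false, 31495859, 4804624) :: (false, 7644153, 4224324) ::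
  (false, 611119, 3357465) :: (false, 8031, 2264537) :: (false, 1, 1021220) ::
  (false, 0, 0) :: (true, 142, 1569972) :: (true, 65483, 2740502) ::
  (true, 1881461, 3718850) :: (true, 13182434, 4438869) :: (true, 35111603, 4852327) ::
  (true, 42012329, 4932127) :: (true, 23262453, 4674078) :: (true, 5460579, 4097097) ::
  (true, 415614, 3241829) :: (true, 4968, 2167791) :: (false, 0, 0) ::
  (false, 0, 0) :: (false, 155, 1582078) :: (false, 60675, 2721570) ::
  (false, 1631009, 3670868) :: (false, 10979232, 4365681) :: (false, 28379648, 4759333) ::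
  (false, 33064314, 4825898) :: (false, 17807603, 4561902) :: (false, 4041046, 3986487) ::
  (false, 292595, 3140027) :: (false, 3174, 2081307) :: (false, 0, 0) ::
  (false, 0, 0) :: (true, 171, 1596530) :: (true, 57626, 2708843) ::
  (true, 1452331, 3632351) :: (true, 9398674, 4304425) :: (true, 23578797, 4679821) ::
  (true, 26744238, 4733722) :: (true, 14005521, 4463377) :: (true, 3070879, 3888223) ::
  (true, 211319, 3048495) :: (true, 2075, 2002413) :: (false, 0, 0) ::
  (false, 0, 0) :: (false, 192, 1612895) :: (false, 55806, 2700953) ::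
  (false, 1320821, 3601143) :: (false, 8220957, 4252353) :: (false, 20017155, 4610668) ::
  r

def dat6_2 (r : Dat) : Dat :=
  (false, 22099205, 4652331) :: (false, 11248734, 4375316) :: (false, 2381635, 3799408) ::
  (false, 155576, 2964797) :: (false, 1378, 1929275) :: (false, 0, 0) ::
  (false, 0, 0) :: (true, 217, 1630890) :: (true, 54906, 2696963) ::
  (true, 1221923, 3575754) :: (true, 7316835, 4207551) :: (true, 17290068, 4549687) ::
  (true, 18574642, 4579425) :: (true, 9185695, 4295465) :: (true, 1876636, 3717982) ::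
  (true, 116208, 2887195) :: (true, 924, 1860572) :: (false, 0, 0) ::
  (false, 0, 0) :: (false, 247, 1650318) :: (false, 54737, 2696205) ::
  (false, 1146524, 3555110) :: (false, 6605786, 4168628) :: (false, 15146916, 4495280) ::
  (false, 15828949, 4513315) :: (false, 7601169, 4222159) :: (false, 1497195, 3642411) ::
  (false, 87743, 2814384) :: (false, 624, 1795304) :: (false, 0, 0) ::
  (false, 0, 0) :: (true, 283, 1671062) :: (true, 55184, 2698203) ::
  (true, 1088704, 3538425) :: (true, 6035545, 4134555) :: (true, 13425534, 4446249) ::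
  (true, 13642037, 4452720) :: (true, 6357352, 4154126) :: (true, 1206079, 3571514) ::
  (true, 66767, 2745343) :: (true, 422, 1732675) :: (false, 0, 0) ::
  (false, 0, 0) :: (false, 327, 1693067) :: (false, 56187, 2702624) ::
  (false, 1044514, 3525121) :: (false, 5570949, 4104557) :: (false, 12017285, 4401683) ::
  (false, 11867264, 4396659) :: (false, 5362863, 4090377) :: (false, 978813, 3504363) ::
  (false, 51071, 2679267) :: (false, 285, 1672045) :: (false, 0, 0) ::
  (false, 0, 0) :: (true, 380, 1716310) :: (true, 57715, 2709224) ::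
  (true, 1011219, 3514755) :: (true, 5187443, 4078029) :: (true, 10846599, 4360860) ::
  r

def dat6_3 (r : Dat) : Dat :=
  (true, 10403157, 4344343) :: (true, 4554986, 4030111) :: (true, 798757, 3440196) ::
  (true, 39180, 2615482) :: (true, 192, 1612873) :: (false, 0, 0) ::
  (false, 0, 0) :: (false, 444, 1740805) :: (false, 59765, 2717833) ::
  (false, 986921, 3506992) :: (false, 4867483, 4054495) :: (false, 9859534, 4323198) ::
  (false, 9177700, 4295125) :: (false, 3889546, 3972663) :: (false, 654310, 3378373) ::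
  (false, 30083, 2553412) :: (false, 128, 1554681) :: (false, 0, 0) ::
  (false, 0, 0) :: (true, 522, 1766590) :: (true, 62354, 2728332) ::
  (true, 970251, 3501565) :: (true, 4598063, 4033561) :: (true, 9016330, 4288204) ::
  (true, 8138251, 4248446) :: (true, 3334490, 3917443) :: (true, 537142, 3318312) ::
  (true, 23068, 2492520) :: (true, 84, 1497012) :: (false, 0, 0) ::
  (false, 0, 0) :: (false, 618, 1793761) :: (false, 65529, 2740677) ::
  (false, 960333, 3498296) :: (false, 4369773, 4014931) :: (false, 8287829, 4255486) ::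
  (false, 7246255, 4203845) :: (false, 2866472, 3863951) :: (false, 441236, 3259507) ::
  (false, 17629, 2432327) :: (false, 54, 1439443) :: (false, 0, 0) ::
  (false, 0, 0) :: (true, 736, 1822426) :: (true, 69355, 2754851) ::
  (true, 956571, 3497048) :: (true, 4175357, 3998354) :: (true, 7651522, 4224694) ::
  (true, 6472286, 4160898) :: (true, 2467904, 3811718) :: (true, 362116, 3201473) ::
  (true, 13396, 2372364) :: (true, 34, 1381551) :: (false, 0, 0) ::
  (false, 0, 0) :: (false, 882, 1852735) :: (false, 73926, 2770884) ::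
  (false, 958604, 3497723) :: (false, 4009137, 3983615) :: (false, 7089792, 4195511) ::
  r

def dat6_4 (r : Dat) : Dat :=
  (false, 5793570, 4119204) :: (false, 2125314, 3760281) :: (false, 296399, 3143717) ::
  (false, 10095, 2312137) :: (false, 21, 1322872) :: (false, 0, 0) ::
  (false, 0, 0) :: (true, 1067, 1884900) :: (true, 79379, 2788868) ::
  (true, 966384, 3500294) :: (true, 3867000, 3970564) :: (true, 6589141, 4167672) ::
  (true, 5192665, 4078402) :: (true, 1828497, 3709209) :: (true, 241538, 3085762) ::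
  (true, 7524, 2251157) :: (true, 13, 1262938) :: (false, 0, 0) ::
  (false, 0, 0) :: (false, 1300, 1919153) :: (false, 85886, 2808915) ::
  (false, 979963, 3504737) :: (false, 3745360, 3959044) :: (false, 6138150, 4140896) ::
  (false, 4655275, 4038098) :: (false, 1569303, 3658020) :: (false, 195545, 3027070) ::
  (false, 5525, 2188859) :: (false, 7, 1201195) :: (false, 0, 0) ::
  (false, 0, 0) :: (true, 1601, 1955806) :: (true, 93685, 2831199) ::
  (true, 999643, 3511078) :: (true, 3641394, 3948925) :: (true, 5727313, 4114899) ::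
  (true, 4169847, 3997874) :: (true, 1341294, 3606182) :: (true, 156867, 2967025) ::
  (true, 3981, 2124588) :: (true, 4, 1136989) :: (false, 0, 0) ::
  (false, 0, 0) :: (false, 1995, 1995255) :: (false, 103104, 2855962) ::
  (false, 1025950, 3519379) :: (false, 3552674, 3940080) :: (false, 5348343, 4089369) ::
  (false, 3726661, 3957243) :: (false, 1139276, 3553061) :: (false, 124285, 2904886) ::
  (false, 2797, 2057538) :: (false, 2, 1069498) :: (false, 0, 0) ::
  (true, 1, 1051287) :: (true, 2519, 2038043) :: (true, 114609, 2883560) ::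
  (true, 1059806, 3529782) :: (true, 3477423, 3932419) :: (true, 4994227, 4063981) ::
  r

def dat6_5 (r : Dat) : Dat :=
  (true, 3317834, 3915660) :: (true, 959204, 3497922) :: (true, 96853, 2839769) ::
  (true, 1903, 1986731) :: (false, 0, 0) :: (false, 0, 0) ::
  (false, 3, 1110702) :: (false, 3234, 2084849) :: (false, 128858, 2914445) ::
  (false, 1102466, 3542468) :: (false, 3413836, 3925827) :: (false, 4658066, 4038318) ::
  (false, 2936361, 3872422) :: (false, 797772, 3439810) :: (false, 73820, 2770523) ::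
  (false, 1240, 1910893) :: (false, 0, 0) :: (false, 0, 0) ::
  (true, 5, 1175678) :: (true, 4235, 2136568) :: (true, 146811, 2949208) ::
  (true, 1155617, 3557664) :: (true, 3359745, 3920131) :: (true, 4332398, 4011797) ::
  (true, 2575639, 3826553) :: (true, 652244, 3377402) :: (true, 54591, 2695551) ::
  (true, 762, 1828247) :: (false, 0, 0) :: (false, 0, 0) ::
  (false, 11, 1247809) :: (false, 5684, 2194484) :: (false, 169949, 2988709) ::
  (false, 1221821, 3575727) :: (false, 3312860, 3915126) :: (false, 4009336, 3983633) ::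
  (false, 2229705, 3776708) :: (false, 520539, 3308854) :: (false, 38709, 2612609) ::
  (false, 432, 1736286) :: (false, 0, 0) :: (false, 0, 0) ::
  (true, 22, 1329364) :: (true, 7872, 2260423) :: (true, 200655, 3034177) ::
  (true, 1304808, 3597152) :: (true, 3270010, 3910495) :: (true, 3679459, 3952660) ::
  (true, 1892884, 3720897) :: (true, 401197, 3231441) :: (true, 25842, 2518382) ::
  (true, 217, 1631301) :: (false, 0, 0) :: (false, 0, 0) ::
  (false, 48, 1423684) :: (false, 11359, 2337047) :: (false, 242902, 3087342) ::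
  (false, 1409759, 3622540) :: (false, 3224965, 3905567) :: (false, 3329232, 3916881) ::
  r

def dat6_6 (r : Dat) : Dat :=
  (false, 1559008, 3655832) :: (false, 293295, 3140709) :: (false, 15746, 2407476) ::
  (false, 91, 1507271) :: (false, 0, 0) :: (false, 0, 0) ::
  (true, 112, 1536170) :: (true, 17337, 2428640) :: (true, 303990, 3150952) ::
  (true, 1544635, 3652755) :: (true, 3166538, 3899081) :: (true, 2939498, 3872798) ::
  (true, 1222156, 3575816) :: (true, 196901, 3028973) :: (true, 8270, 2270591) ::
  (true, 27, 1353815) :: (false, 0, 0) :: (false, 0, 0) ::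
  (false, 293, 1676077) :: (false, 28691, 2542434) :: (false, 398470, 3229438) ::
  (false, 1720633, 3688763) :: (false, 3069411, 3888054) :: (false, 2478716, 3813233) ::
  (false, 876924, 3469519) :: (false, 113538, 2881102) :: (false, 3314, 2089483) ::
  (false, 4, 1150584) :: (false, 0, 0) :: (false, 0, 0) ::
  (true, 929, 1861342) :: (true, 53837, 2692146) :: (true, 559417, 3330592) ::
  (true, 1949779, 3730928) :: (true, 2868994, 3864260) :: (true, 1891687, 3720683) ::
  (true, 522659, 3310077) :: (true, 47469, 2661514) :: (true, 731, 1821282) ::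
  (false, 0, 0) :: (false, 0, 0) :: (false, 7, 1202442) ::
  (false, 4172, 2133675) :: (false, 125952, 2908407) :: (false, 875618, 3469049) ::
  (false, 2207061, 3773205) :: (false, 2364556, 3796923) :: (false, 1082860, 3536694) ::
  (false, 183761, 3010014) :: (false, 7647, 2254474) :: (false, 22, 1325412) ::
  (false, 0, 0) :: (false, 0, 0) :: (true, 523, 1766879) ::
  (true, 41476, 2629058) :: (true, 471566, 3279266) :: (true, 1564981, 3657103) ::
  (true, 1886236, 3719707) :: (true, 811579, 3445180) :: (true, 94943, 2834634) ::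
  r

def dat6 : Dat :=
  dat6_0 (dat6_1 (dat6_2 (dat6_3 (dat6_4 (dat6_5 (dat6_6 []))))))

def grid6_0_0 (r : List (ℕ × ℕ)) : List (ℕ × ℕ) :=
  (92, 94) :: (186, 98) :: (284, 106) :: (390, 114) :: (504, 126) ::
  (630, 138) :: (768, 150) :: (918, 160) :: (1078, 166) :: (1244, 166) ::
  (1398, 154) :: (1550, 152) :: (1694, 144) :: (1826, 132) :: (1938, 112) ::
  (2050, 112) ::
  r

def grid6_0 : List (ℕ × ℕ) :=
  grid6_0_0 []

theorem seg6_0 : sgc 325949 111837332358 dat6 0 92 2050 grid6_0 = true := by
  decide +kernel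

def grid6_1_0 (r : List (ℕ × ℕ)) : List (ℕ × ℕ) :=
  (2146, 96) :: (2242, 96) :: (2330, 88) :: (2416, 92) :: (2508, 94) ::
  (2602, 100) :: (2702, 106) :: (2808, 116) :: (2924, 128) :: (3052, 140) ::
  (3192, 152) :: (3344, 160) :: (3504, 166) :: (3670, 166) :: (3826, 156) ::
  (3976, 150) ::
  r

def grid6_1 : List (ℕ × ℕ) :=
  grid6_1_0 []

theorem seg6_1 : sgc 325949 111837332358 dat6 2050 112 3976 grid6_1 = true := by
  decide +kernel

def grid6_2_0 (r : List (ℕ × ℕ)) : List (ℕ × ℕ) :=
  (4118, 142) :: (4250, 132) :: (4362, 112) :: (4472, 110) :: (4574, 102) ::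
  (4668, 94) :: (4756, 92) :: (4848, 92) :: (4940, 96) :: (5036, 102) ::
  (5138, 110) :: (5248, 120) :: (5368, 132) :: (5500, 144) :: (5644, 156) ::
  (5800, 164) ::
  r

def grid6_2 : List (ℕ × ℕ) :=
  grid6_2_0 []

theorem seg6_2 : sgc 325949 111837332358 dat6 3976 150 5800 grid6_2 = true := by
  decide +kernel

def grid6_3_0 (r : List (ℕ × ℕ)) : List (ℕ × ℕ) :=
  (5964, 168) :: (6132, 168) :: (6288, 156) :: (6438, 150) :: (6578, 140) ::
  (6698, 120) :: (6806, 108) :: (6914, 108) :: (7014, 100) :: (7106, 92) ::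
  (7192, 92) :: (7284, 94) :: (7378, 98) :: (7476, 104) :: (7580, 114) ::
  (7694, 124) ::
  r

def grid6_3 : List (ℕ × ℕ) :=
  grid6_3_0 []

theorem seg6_3 : sgc 325949 111837332358 dat6 5800 164 7694 grid6_3 = true := by
  decide +kernel

def grid6_4_0 (r : List (ℕ × ℕ)) : List (ℕ × ℕ) :=
  (7818, 138) :: (7956, 150) :: (8106, 160) :: (8266, 168) :: (8434, 168) ::
  (8592, 158) :: (8748, 156) :: (8896, 148) :: (9032, 136) :: (9148, 116) ::
  (9254, 106) :: (9352, 98) :: (9448, 96) :: (9538, 90) :: (9624, 92) ::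
  (9716, 94) ::
  r

def grid6_4 : List (ℕ × ℕ) :=
  grid6_4_0 []

theorem seg6_4 : sgc 325949 111837332358 dat6 7694 124 9716 grid6_4 = true := by
  decide +kernel

def grid6_5_0 (r : List (ℕ × ℕ)) : List (ℕ × ℕ) :=
  (9810, 100) :: (9910, 106) :: (10016, 118) :: (10134, 130) :: (10264, 142) ::
  (10406, 156) :: (10562, 166) :: (10728, 172) :: (10900, 172) :: (11058, 158) ::
  (11214, 156) :: (11360, 146) :: (11484, 124) :: (11596, 112) :: (11700, 104) ::
  (11802, 102) ::
  r

def grid6_5 : List (ℕ × ℕ) :=
  grid6_5_0 []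

theorem seg6_5 : sgc 325949 111837332358 dat6 9716 94 11802 grid6_5 = true := by
  decide +kernel

def grid6_6_0 (r : List (ℕ × ℕ)) : List (ℕ × ℕ) :=
  (11896, 94) :: (11984, 92) :: (12076, 92) :: (12168, 96) :: (12264, 102) ::
  (12366, 112) :: (12478, 124) :: (12602, 138) :: (12740, 152) :: (12892, 164) ::
  (13056, 172) :: (13228, 172) :: (13390, 162) :: (13550, 160) :: (13704, 154) ::
  (13836, 132) ::
  r

def grid6_6 : List (ℕ × ℕ) :=
  grid6_6_0 []

theorem seg6_6 : sgc 325949 111837332358 dat6 11802 102 13836 grid6_6 = true := by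
  decide +kernel

def grid6_7_0 (r : List (ℕ × ℕ)) : List (ℕ × ℕ) :=
  (13956, 120) :: (14064, 108) :: (14170, 106) :: (14268, 98) :: (14358, 90) ::
  (14444, 92) :: (14536, 94) :: (14630, 100) :: (14730, 108) :: (14838, 120) ::
  (14958, 134) :: (15092, 148) :: (15240, 162) :: (15402, 174) :: (15576, 180) ::
  (15756, 180) ::
  r

def grid6_7 : List (ℕ × ℕ) :=
  grid6_7_0 []

theorem seg6_7 : sgc 325949 111837332358 dat6 13836 132 15756 grid6_7 = true := by
  decide +kernel

def grid6_8_0 (r : List (ℕ × ℕ)) : List (ℕ × ℕ) :=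
  (15922, 166) :: (16080, 158) :: (16216, 136) :: (16340, 124) :: (16452, 112) ::
  (16554, 102) :: (16654, 100) :: (16746, 92) :: (16832, 92) :: (16924, 94) ::
  (17018, 100) :: (17118, 108) :: (17226, 120) :: (17346, 134) :: (17480, 150) ::
  (17630, 166) ::
  r

def grid6_8 : List (ℕ × ℕ) :=
  grid6_8_0 []

theorem seg6_8 : sgc 325949 111837332358 dat6 15756 180 17630 grid6_8 = true := by
  decide +kernel

def grid6_9_0 (r : List (ℕ × ℕ)) : List (ℕ × ℕ) :=
  (17796, 178) :: (17974, 184) :: (18158, 184) :: (18328, 170) :: (18492, 164) ::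
  (18632, 140) :: (18760, 128) :: (18874, 114) :: (18976, 102) :: (19076, 100) ::
  (19168, 92) :: (19254, 92) :: (19346, 94) :: (19440, 100) :: (19540, 110) ::
  (19650, 124) ::
  r

def grid6_9 : List (ℕ × ℕ) :=
  grid6_9_0 []

theorem seg6_9 : sgc 325949 111837332358 dat6 17630 166 19650 grid6_9 = true := by
  decide +kernel

def grid6_10_0 (r : List (ℕ × ℕ)) : List (ℕ × ℕ) :=
  (19774, 140) :: (19914, 156) :: (20070, 174) :: (20244, 186) :: (20430, 186) ::
  (20608, 178) :: (20784, 176) :: (20950, 166) :: (21092, 142) :: (21218, 126) ::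
  (21330, 112) :: (21430, 100) :: (21528, 98) :: (21618, 94) :: (21712, 94) ::
  (21806, 98) ::
  r

def grid6_10 : List (ℕ × ℕ) :=
  grid6_10_0 []

theorem seg6_10 : sgc 325949 111837332358 dat6 19650 124 21806 grid6_10 = true := by
  decide +kernel

def grid6_11_0 (r : List (ℕ × ℕ)) : List (ℕ × ℕ) :=
  (21904, 106) :: (22010, 120) :: (22130, 136) :: (22266, 154) :: (22420, 174) ::
  (22594, 190) :: (22784, 200) :: (22984, 200) :: (23170, 186) :: (23332, 162) ::
  (23482, 150) :: (23616, 134) :: (23734, 118) :: (23838, 104) :: (23930, 92) ::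
  (24020, 90) ::
  r

def grid6_11 : List (ℕ × ℕ) :=
  grid6_11_0 []

theorem seg6_11 : sgc 325949 111837332358 dat6 21806 98 24020 grid6_11 = true := by
  decide +kernel

def grid6_12_0 (r : List (ℕ × ℕ)) : List (ℕ × ℕ) :=
  (24106, 92) :: (24198, 96) :: (24294, 106) :: (24400, 120) :: (24520, 138) ::
  (24658, 158) :: (24816, 180) :: (24996, 198) :: (25194, 210) :: (25404, 210) ::
  (25598, 194) :: (25770, 172) :: (25926, 156) :: (26062, 136) :: (26182, 120) ::
  (26284, 102) ::
  r

def grid6_12 : List (ℕ × ℕ) :=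
  grid6_12_0 []

theorem seg6_12 : sgc 325949 111837332358 dat6 24020 90 26284 grid6_12 = true := by
  decide +kernel

def grid6_13_0 (r : List (ℕ × ℕ)) : List (ℕ × ℕ) :=
  (26374, 90) :: (26464, 92) :: (26556, 94) :: (26650, 100) :: (26750, 114) ::
  (26864, 130) :: (26994, 154) :: (27148, 178) :: (27326, 202) :: (27528, 220) ::
  (27748, 220) :: (27958, 210) :: (28144, 186) :: (28316, 172) :: (28464, 148) ::
  (28582, 118) ::
  r

def grid6_13 : List (ℕ × ℕ) :=
  grid6_13_0 []

theorem seg6_13 : sgc 325949 111837332358 dat6 26284 102 28582 grid6_13 = true := by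
  decide +kernel

def grid6_14_0 (r : List (ℕ × ℕ)) : List (ℕ × ℕ) :=
  (28690, 108) :: (28784, 94) :: (28876, 94) :: (28970, 94) :: (29064, 102) ::
  (29166, 116) :: (29282, 138) :: (29420, 164) :: (29584, 194) :: (29778, 222) ::
  (30000, 242) :: (30242, 242) :: (30468, 226) :: (30664, 196) :: (30822, 158) ::
  (30956, 134) ::
  r

def grid6_14 : List (ℕ × ℕ) :=
  grid6_14_0 []

theorem seg6_14 : sgc 325949 111837332358 dat6 28582 118 30956 grid6_14 = true := by
  decide +kernel

def grid6_15_0 (r : List (ℕ × ℕ)) : List (ℕ × ℕ) :=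
  (31068, 112) :: (31172, 104) :: (31260, 88) :: (31348, 92) :: (31440, 98) ::
  (31538, 112) :: (31650, 136) :: (31786, 166) :: (31952, 202) :: (32154, 240) ::
  (32394, 266) :: (32660, 266) :: (32894, 234) :: (33110, 216) :: (33282, 172) ::
  (33424, 142) ::
  r

def grid6_15 : List (ℕ × ℕ) :=
  grid6_15_0 []

theorem seg6_15 : sgc 325949 111837332358 dat6 30956 134 33424 grid6_15 = true := by
  decide +kernel

def grid6_16_0 (r : List (ℕ × ℕ)) : List (ℕ × ℕ) :=
  (33536, 112) :: (33630, 94) :: (33724, 94) :: (33818, 96) :: (33914, 110) ::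
  (34024, 134) :: (34158, 170) :: (34328, 216) :: (34544, 266) :: (34810, 306) ::
  (35116, 306) :: (35382, 266) :: (35604, 222) :: (35772, 168) :: (35904, 132) ::
  (36016, 112) ::
  r

def grid6_16 : List (ℕ × ℕ) :=
  grid6_16_0 []

theorem seg6_16 : sgc 325949 111837332358 dat6 33424 142 36016 grid6_16 = true := by
  decide +kernel

def grid6_17_0 (r : List (ℕ × ℕ)) : List (ℕ × ℕ) :=
  (36112, 96) :: (36200, 94) :: (36294, 106) :: (36400, 136) :: (36536, 182) ::
  (36718, 244) :: (36962, 318) :: (37280, 346) :: (37626, 346) :: (37920, 294) ::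
  (38150, 230) :: (38308, 158) :: (38422, 114) :: (38520, 98) :: (38610, 94) ::
  (38704, 116) ::
  r

def grid6_17 : List (ℕ × ℕ) :=
  grid6_17_0 []

theorem seg6_17 : sgc 325949 111837332358 dat6 36016 112 38704 grid6_17 = true := by
  decide +kernel

def grid6_18_0 (r : List (ℕ × ℕ)) : List (ℕ × ℕ) :=
  (38820, 162) :: (38982, 242) :: (39224, 358) :: (39582, 482) :: (40064, 482) ::
  (40436, 372) :: (40678, 242) :: (40818, 140) :: (40912, 102) :: (41014, 102) ::
  (41116, 164) :: (41280, 304) :: (41584, 580) :: (42164, 598) :: (42762, 598) ::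
  (42900, 138) ::
  r

def grid6_18 : List (ℕ × ℕ) :=
  grid6_18_0 []

theorem seg6_18 : sgc 325949 111837332358 dat6 38704 116 42900 grid6_18 = true := by
  decide +kernel

def grid6_19_0 (r : List (ℕ × ℕ)) : List (ℕ × ℕ) :=
  (42912, 12) ::
  r

def grid6_19 : List (ℕ × ℕ) :=
  grid6_19_0 []

theorem seg6_19 : sgc 325949 111837332358 dat6 42900 138 42912 grid6_19 = true := by
  decide +kernel

theorem chk6 : chk 5 325949 111837332358 10000000 100000000000 2697 10000 42912 dat6 = true := by
  decide +kernel

theorem both6 : Both 6 (2697 / 10000) := by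
  have h := chk_sound (by norm_num) (by norm_num) (by norm_num) (by norm_num) (by norm_num) chk6
    ((sgc_sound seg6_0).trans
    ((sgc_sound seg6_1).trans
    ((sgc_sound seg6_2).trans
    ((sgc_sound seg6_3).trans
    ((sgc_sound seg6_4).trans
    ((sgc_sound seg6_5).trans
    ((sgc_sound seg6_6).trans
    ((sgc_sound seg6_7).trans
    ((sgc_sound seg6_8).trans
    ((sgc_sound seg6_9).trans
    ((sgc_sound seg6_10).trans
    ((sgc_sound seg6_11).trans
    ((sgc_sound seg6_12).trans
    ((sgc_sound seg6_13).trans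
    ((sgc_sound seg6_14).trans
    ((sgc_sound seg6_15).trans
    ((sgc_sound seg6_16).trans
    ((sgc_sound seg6_17).trans
    ((sgc_sound seg6_18).trans
    (sgc_sound seg6_19))))))))))))))))))))
  exact_mod_cast h

end Pool.Agent.P.MP_62e163_co
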