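import Pool.Agent.P.MP_62e163_co.T5

namespace Pool.Agent.P.MP_62e163_co

def dat7_0 (r : Dat) : Dat :=
  (false, 77760169281, 9808367) :: (false, 35900751096, 9242239) :: (false, 9261778823, 8327506) ::
  (false, 1177844382, 7105950) :: (false, 57527612, 5633259) :: (false, 621360, 3976381) ::
  (false, 300, 2210352) :: (false, 0, 0) :: (false, 0, 0) ::
  (true, 12635, 2946812) :: (true, 2086502, 4364709) :: (true, 44491138, 5522998) ::
  (true, 286439278, 6373634) :: (true, 778955980, 6883490) :: (true, 1035369518, 7035825) ::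
  (true, 705099248, 6830945) :: (true, 239285452, 6286055) :: (true, 36046213, 5434293) ::
  (true, 1841676, 4323004) :: (true, 16745, 3011345) :: (true, 3, 1567329) ::
  (false, 0, 0) :: (false, 0, 0) :: (false, 7064, 2817912) ::
  (false, 802731, 4055495) :: (false, 14808826, 5074867) :: (false, 89437693, 5827759) ::
  (false, 236102434, 6279583) :: (false, 309058280, 6411006) :: (false, 208036417, 6218749) ::
  (false, 69473245, 5715614) :: (false, 10154843, 4929706) :: (false, 487598, 3902918) ::
  (false, 3838, 2688747) :: (false, 0, 0) :: (false, 0, 0) ::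
  (true, 1, 1429376) :: (true, 4670, 2729625) :: (true, 456015, 3882865) ::
  (true, 7836835, 4832420) :: (true, 45463530, 5532191) :: (true, 116856524, 5948875) ::
  (true, 149774364, 6063536) :: (true, 98778146, 5872460) :: (true, 32192512, 5387233) ::
  (true, 4544915, 4634080) :: (true, 205875, 3652456) :: (true, 1436, 2493008) ::
  (false, 0, 0) :: (false, 0, 0) :: (false, 1, 1435217) ::
  (false, 3575, 2674131) :: (false, 312707, 3771804) :: (false, 5079534, 4673893) ::
  (false, 28441585, 5336140) :: (false, 71219334, 5726538) :: (false, 89260093, 5826868) ::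
  (false, 57565061, 5633541) :: (false, 18278382, 5157708) :: (false, 2491182, 4424634) ::
  r

def dat7_1 (r : Dat) : Dat :=
  (false, 106690, 3472362) :: (false, 665, 2349751) :: (false, 0, 0) ::
  (false, 0, 0) :: (true, 1, 1444383) :: (true, 3000, 2638263) ::
  (true, 238760, 3694329) :: (true, 3686840, 4560090) :: (true, 19964066, 5192826) ::
  (true, 48717622, 5561688) :: (true, 59680211, 5649200) :: (true, 37610388, 5452079) ::
  (true, 11628149, 4981349) :: (true, 1529733, 4261729) :: (true, 61994, 3330341) ::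
  (true, 346, 2234803) :: (false, 0, 0) :: (false, 0, 0) ::
  (false, 1, 1456692) :: (false, 2673, 2614999) :: (false, 195303, 3637675) ::
  (false, 2875733, 4473763) :: (false, 15076117, 5081855) :: (false, 35860829, 5432138) ::
  (false, 42931247, 5507856) :: (false, 26428991, 5306100) :: (false, 7953584, 4837920) ::
  (false, 1009784, 4127717) :: (false, 38729, 3211977) :: (false, 194, 2137405) ::
  (false, 0, 0) :: (false, 0, 0) :: (true, 1, 1471521) ::
  (true, 2486, 2600399) :: (true, 167568, 3595068) :: (true, 2357373, 4405883) ::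
  (true, 11973774, 4992585) :: (true, 27767129, 5326298) :: (true, 32482384, 5390949) ::
  (true, 19529282, 5184038) :: (true, 5719093, 4716725) :: (true, 700537, 4013236) ::
  (true, 25419, 3109607) :: (true, 114, 2051840) :: (false, 0, 0) ::
  (false, 0, 0) :: (false, 1, 1488360) :: (false, 2384, 2592097) ::
  (false, 148892, 3562537) :: (false, 2003995, 4351184) :: (false, 9866767, 4918805) ::
  (false, 22309486, 5237386) :: (false, 25499261, 5291503) :: (false, 14969368, 5079078) ::
  (false, 4264582, 4611441) :: (false, 503788, 3912737) :: (false, 17282, 3018674) ::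
  (false, 69, 1974708) :: (false, 0, 0) :: (false, 0, 0) ::
  r

def dat7_2 (r : Dat) : Dat :=
  (true, 2, 1506839) :: (true, 2343, 2588576) :: (true, 135880, 3537564) ::
  (true, 1751449, 4306332) :: (true, 8361793, 4856582) :: (true, 18435040, 5161095) ::
  (true, 20585000, 5205075) :: (true, 11796718, 4986867) :: (true, 3268264, 4518013) ::
  (true, 372159, 3822643) :: (true, 12058, 2936235) :: (true, 43, 1903804) ::
  (false, 0, 0) :: (false, 0, 0) :: (false, 2, 1526714) ::
  (false, 2346, 2588838) :: (false, 126655, 3518484) :: (false, 1564554, 4269114) ::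
  (false, 7244434, 4803290) :: (false, 15572767, 5094541) :: (false, 16985026, 5128674) ::
  (false, 9499268, 4904464) :: (false, 2558294, 4433691) :: (false, 280620, 3740522) ::
  (false, 8576, 2860274) :: (false, 27, 1837613) :: (false, 0, 0) ::
  (false, 0, 0) :: (true, 2, 1547821) :: (true, 2385, 2592190) ::
  (true, 120102, 3504136) :: (true, 1422544, 4237980) :: (true, 6388967, 4757084) ::
  (true, 13389506, 5035688) :: (true, 14261395, 5060184) :: (true, 7781297, 4829777) ::
  (true, 2036107, 4356508) :: (true, 214972, 3664624) :: (true, 6187, 2789336) ::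
  (true, 17, 1775029) :: (false, 0, 0) :: (false, 0, 0) ::
  (false, 3, 1570063) :: (false, 2458, 2598153) :: (false, 115535, 3493701) ::
  (false, 1312532, 4211822) :: (false, 5717675, 4716635) :: (false, 11680209, 4983061) ::
  (false, 12145538, 4998058) :: (false, 6462422, 4761269) :: (false, 1642017, 4285013) ::
  (false, 166710, 3593649) :: (false, 4510, 2722330) :: (false, 11, 1715215) ::
  (false, 0, 0) :: (false, 0, 0) :: (true, 4, 1593390) ::
  (true, 2561, 2606390) :: (true, 112510, 3486579) :: (true, 1226139, 4189820) ::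
  r

def dat7_3 (r : Dat) : Dat :=
  (true, 5180175, 4680952) :: (true, 10312404, 4935548) :: (true, 10465003, 4941128) ::
  (true, 5427426, 4697771) :: (true, 1338165, 4218093) :: (true, 130503, 3526594) ::
  (true, 3311, 2658407) :: (true, 7, 1657514) :: (false, 0, 0) ::
  (false, 0, 0) :: (false, 5, 1617782) :: (false, 2695, 2616657) ::
  (false, 110737, 3482322) :: (false, 1157700, 4171350) :: (false, 4742414, 4649268) ::
  (false, 9197138, 4892285) :: (false, 9104411, 4888473) :: (false, 4599711, 4638354) ::
  (false, 1099578, 4154855) :: (false, 102872, 3462643) :: (false, 2442, 2596865) ::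
  (false, 4, 1601368) :: (false, 0, 0) :: (false, 0, 0) ::
  (true, 6, 1643268) :: (true, 2863, 2628804) :: (true, 110033, 3480614) ::
  (true, 1103348, 4155949) :: (true, 4380967, 4621002) :: (true, 8273191, 4852604) ::
  (true, 7984736, 4839375) :: (true, 3927035, 4582283) :: (true, 909341, 4094584) ::
  (true, 81490, 3401134) :: (true, 1804, 2537127) :: (true, 2, 1546307) ::
  (false, 0, 0) :: (false, 0, 0) :: (false, 7, 1669898) ::
  (false, 3066, 2642735) :: (false, 110284, 3481223) :: (false, 1060358, 4143263) ::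
  (false, 4079157, 4595699) :: (false, 7497046, 4815971) :: (false, 7049993, 4793248) ::
  (false, 3372662, 4528954) :: (false, 755656, 4036686) :: (false, 64753, 3341513) ::
  (false, 1333, 2478702) :: (false, 1, 1491929) :: (false, 0, 0) ::
  (false, 0, 0) :: (true, 9, 1697730) :: (true, 3311, 2658383) ::
  (true, 111416, 3483960) :: (true, 1026702, 4132996) :: (true, 3824501, 4572967) ::
  (true, 6836476, 4781922) :: (true, 6259149, 4749578) :: (true, 2909854, 4477824) ::
  r

def dat7_4 (r : Dat) : Dat :=
  (true, 630019, 3980616) :: (true, 51518, 3283258) :: (true, 982, 2421116) ::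
  (true, 1, 1437827) :: (false, 0, 0) :: (false, 0, 0) ::
  (false, 12, 1726880) :: (false, 3604, 2675755) :: (false, 113414, 3488726) ::
  (false, 1001004, 4124945) :: (false, 3608012, 4552515) :: (false, 6267943, 4750091) ::
  (false, 5582202, 4707943) :: (false, 2519169, 4428438) :: (false, 526282, 3925906) ::
  (false, 40971, 3225910) :: (false, 719, 2363941) :: (false, 0, 0) ::
  (false, 0, 0) :: (false, 0, 0) :: (true, 15, 1757480) ::
  (true, 3953, 2694883) :: (true, 116291, 3495454) :: (true, 982253, 4118949) ::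
  (true, 3422772, 4534095) :: (true, 5773380, 4720154) :: (true, 4996347, 4667960) ::
  (true, 2185950, 4380370) :: (true, 439866, 3872111) :: (true, 32511, 3169024) ::
  (true, 523, 2306753) :: (false, 0, 0) :: (false, 0, 0) ::
  (false, 0, 0) :: (false, 19, 1789696) :: (false, 4372, 2715843) ::
  (false, 120095, 3504120) :: (false, 969740, 4114889) :: (false, 3263415, 4517497) ::
  (false, 5338738, 4691821) :: (false, 4483956, 4629269) :: (false, 1899001, 4333209) ::
  (false, 367304, 3818784) :: (false, 25690, 3112141) :: (false, 376, 2249101) ::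
  (false, 0, 0) :: (false, 0, 0) :: (false, 0, 0) ::
  (true, 24, 1823760) :: (true, 4877, 2738773) :: (true, 124928, 3514770) ::
  (true, 963089, 4112711) :: (true, 3125988, 4502571) :: (true, 4953273, 4664852) ::
  (true, 4031609, 4591556) :: (true, 1649836, 4286579) :: (true, 305988, 3765507) ::
  (true, 20174, 3054819) :: (true, 267, 2190542) :: (false, 0, 0) ::
  r

def dat7_5 (r : Dat) : Dat :=
  (false, 0, 0) :: (false, 0, 0) :: (false, 31, 1859908) ::
  (false, 5490, 2763820) :: (false, 130913, 3527446) :: (false, 961990, 4112350) ::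
  (false, 3006965, 4489146) :: (false, 4607749, 4638977) :: (false, 3628071, 4554457) ::
  (false, 1431559, 4240040) :: (false, 253846, 3711782) :: (false, 15704, 2996525) ::
  (false, 186, 2130530) :: (false, 0, 0) :: (false, 0, 0) ::
  (false, 0, 0) :: (true, 41, 1898485) :: (true, 6242, 2791223) ::
  (true, 138249, 3542272) :: (true, 966427, 4113806) :: (true, 2903685, 4477093) ::
  (true, 4294711, 4613939) :: (true, 3264401, 4517602) :: (true, 1238760, 4193122) ::
  (true, 209274, 3657060) :: (true, 12080, 2936653) :: (true, 126, 2068433) ::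
  (false, 0, 0) :: (false, 0, 0) :: (false, 0, 0) ::
  (false, 55, 1939939) :: (false, 7175, 2821319) :: (false, 147224, 3559452) ::
  (false, 976656, 4117139) :: (false, 2814170, 4466322) :: (false, 4008238, 4589503) ::
  (false, 2933503, 4480613) :: (false, 1067225, 4145321) :: (false, 171033, 3600733) ::
  (false, 9148, 2874522) :: (false, 83, 2003528) :: (false, 0, 0) ::
  (false, 0, 0) :: (false, 0, 0) :: (true, 74, 1984798) ::
  (true, 8354, 2854504) :: (true, 158218, 3579225) :: (true, 993036, 4122410) ::
  (true, 2736437, 4456709) :: (true, 3742553, 4565354) :: (true, 2629001, 4442999) ::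
  (true, 913395, 4095985) :: (true, 138119, 3542014) :: (true, 6786, 2809245) ::
  (true, 53, 1934866) :: (false, 0, 0) :: (false, 0, 0) ::
  (false, 0, 0) :: (false, 101, 2033786) :: (false, 9868, 2891331) ::
  r

def dat7_6 (r : Dat) : Dat :=
  (false, 171780, 3601940) :: (false, 1016240, 4129741) :: (false, 2668753, 4448131) ::
  (false, 3492387, 4541123) :: (false, 2345341, 4404149) :: (false, 774362, 4044286) ::
  (false, 109736, 3479890) :: (false, 4898, 2739665) :: (false, 32, 1861203) ::
  (false, 0, 0) :: (false, 0, 0) :: (false, 0, 0) ::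
  (true, 143, 2087885) :: (true, 11863, 2932566) :: (true, 188724, 3628099) ::
  (true, 1047347, 4139330) :: (true, 2609537, 4440460) :: (true, 3252650, 4516349) ::
  (true, 2077632, 4363279) :: (true, 647784, 3989140) :: (true, 85272, 3413022) ::
  (true, 3407, 2664246) :: (true, 18, 1780874) :: (false, 0, 0) ::
  (false, 0, 0) :: (false, 0, 0) :: (false, 207, 2148421) ::
  (false, 14566, 2979238) :: (false, 210247, 3658365) :: (false, 1087822, 4151421) ::
  (false, 2556741, 4433484) :: (false, 3017458, 4490349) :: (false, 1820977, 4319247) ::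
  (false, 531662, 3928979) :: (false, 64241, 3339473) :: (false, 2252, 2580764) ::
  (false, 9, 1691465) :: (false, 0, 0) :: (false, 0, 0) ::
  (false, 0, 0) :: (true, 313, 2217343) :: (true, 18369, 3032873) ::
  (true, 238259, 3693732) :: (true, 1139953, 4166396) :: (true, 2507966, 4426920) ::
  (true, 2780196, 4462151) :: (true, 1570692, 4270400) :: (true, 424480, 3861520) ::
  (true, 46303, 3256411) :: (true, 1384, 2485951) :: (true, 4, 1589427) ::
  (false, 0, 0) :: (false, 0, 0) :: (false, 0, 0) ::
  (false, 496, 2297506) :: (false, 23977, 3095671) :: (false, 275845, 3735588) ::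
  (false, 1206795, 4184698) :: (false, 2458735, 4420174) :: (false, 2531361, 4430083) ::
  r

def dat7_7 (r : Dat) : Dat :=
  (false, 1321379, 4213999) :: (false, 325018, 3783024) :: (false, 31228, 3159224) ::
  (false, 762, 2374507) :: (false, 1, 1468994) :: (false, 0, 0) ::
  (false, 0, 0) :: (true, 1, 1492956) :: (true, 846, 2393553) ::
  (true, 32803, 3171210) :: (true, 328548, 3786169) :: (true, 1293111, 4206995) ::
  (true, 2401572, 4412183) :: (true, 2257715, 4391268) :: (true, 1067355, 4145360) ::
  (true, 232758, 3687101) :: (true, 18940, 3040021) :: (true, 351, 2237338) ::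
  (false, 0, 0) :: (false, 0, 0) :: (false, 0, 0) ::
  (false, 5, 1631509) :: (false, 1597, 2513412) :: (false, 48012, 3265503) ::
  (false, 407009, 3849056) :: (false, 1405261, 4233997) :: (false, 2319958, 4400464) ::
  (false, 1937133, 4339841) :: (false, 802019, 4055218) :: (false, 148194, 3561250) ::
  (false, 9523, 2883419) :: (false, 117, 2056736) :: (false, 0, 0) ::
  (false, 0, 0) :: (false, 0, 0) :: (true, 23, 1815407) ::
  (true, 3544, 2672340) :: (true, 78039, 3389830) :: (true, 534178, 3930406) ::
  (true, 1548523, 4265733) :: (true, 2171398, 4378120) :: (true, 1528506, 4261466) ::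
  (true, 518873, 3921627) :: (true, 74043, 3376151) :: (true, 3231, 2653409) ::
  (true, 19, 1791166) :: (false, 0, 0) :: (false, 0, 0) ::
  (false, 0, 0) :: (false, 142, 2087195) :: (false, 10534, 2905886) ::
  (false, 152649, 3569373) :: (false, 767858, 4041663) :: (false, 1701328, 4296725) ::
  (false, 1824861, 4319955) :: (false, 952021, 4109056) :: (false, 222470, 3674302) ::
  (false, 18788, 3038135) :: (false, 345, 2234144) :: (false, 0, 0) ::
  r

def dat7_8 (r : Dat) : Dat :=
  (false, 0, 0) :: (false, 0, 0) :: (true, 10, 1702113) ::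
  (true, 2358, 2589905) :: (true, 61856, 3329772) :: (true, 445101, 3875636) ::
  (true, 1228892, 4190543) :: (true, 1470102, 4248714) :: (true, 756589, 4037069) ::
  (true, 145442, 3556118) ::
  r

def dat7 : Dat :=
  dat7_0 (dat7_1 (dat7_2 (dat7_3 (dat7_4 (dat7_5 (dat7_6 (dat7_7 (dat7_8 []))))))))

def grid7_0_0 (r : List (ℕ × ℕ)) : List (ℕ × ℕ) :=
  (108, 110) :: (218, 114) :: (332, 122) :: (454, 132) :: (586, 144) ::
  (730, 152) :: (882, 160) :: (1042, 160) :: (1190, 148) :: (1334, 144) ::
  (1472, 138) :: (1600, 128) :: (1718, 118) :: (1828, 110) ::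
  r

def grid7_0 : List (ℕ × ℕ) :=
  grid7_0_0 []

theorem seg7_0 : sgc 316367 121672664940 dat7 0 108 1828 grid7_0 = true := by
  decide +kernel

def grid7_1_0 (r : List (ℕ × ℕ)) : List (ℕ × ℕ) :=
  (1932, 108) :: (2040, 108) :: (2148, 112) :: (2260, 118) :: (2378, 126) ::
  (2504, 138) :: (2642, 148) :: (2790, 156) :: (2946, 160) :: (3106, 160) ::
  (3254, 148) :: (3396, 142) :: (3530, 134) :: (3654, 124) ::
  r

def grid7_1 : List (ℕ × ℕ) :=
  grid7_1_0 []

theorem seg7_1 : sgc 316367 121672664940 dat7 1828 110 3654 grid7_1 = true := by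
  decide +kernel

def grid7_2_0 (r : List (ℕ × ℕ)) : List (ℕ × ℕ) :=
  (3768, 114) :: (3874, 106) :: (3976, 108) :: (4084, 108) :: (4192, 114) ::
  (4306, 122) :: (4428, 132) :: (4560, 142) :: (4702, 152) :: (4854, 160) ::
  (5014, 160) :: (5164, 150) :: (5310, 146) :: (5450, 140) ::
  r

def grid7_2 : List (ℕ × ℕ) :=
  grid7_2_0 []

theorem seg7_2 : sgc 316367 121672664940 dat7 3654 124 5450 grid7_2 = true := by
  decide +kernel

def grid7_3_0 (r : List (ℕ × ℕ)) : List (ℕ × ℕ) :=
  (5572, 122) :: (5694, 122) :: (5806, 112) :: (5912, 108) :: (6020, 108) ::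
  (6128, 110) :: (6238, 116) :: (6354, 126) :: (6480, 136) :: (6616, 148) ::
  (6764, 158) :: (6922, 162) :: (7084, 162) :: (7234, 150) ::
  r

def grid7_3 : List (ℕ × ℕ) :=
  grid7_3_0 []

theorem seg7_3 : sgc 316367 121672664940 dat7 5450 140 7234 grid7_3 = true := by
  decide +kernel

def grid7_4_0 (r : List (ℕ × ℕ)) : List (ℕ × ℕ) :=
  (7380, 146) :: (7516, 136) :: (7642, 126) :: (7758, 116) :: (7864, 106) ::
  (7966, 108) :: (8074, 108) :: (8182, 114) :: (8296, 122) :: (8418, 132) ::
  (8550, 144) :: (8694, 154) :: (8848, 162) :: (9010, 162) ::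
  r

def grid7_4 : List (ℕ × ℕ) :=
  grid7_4_0 []

theorem seg7_4 : sgc 316367 121672664940 dat7 7234 150 9010 grid7_4 = true := by
  decide +kernel

def grid7_5_0 (r : List (ℕ × ℕ)) : List (ℕ × ℕ) :=
  (9164, 154) :: (9314, 150) :: (9456, 142) :: (9588, 132) :: (9710, 122) ::
  (9822, 112) :: (9928, 108) :: (10036, 108) :: (10144, 112) :: (10256, 118) ::
  (10374, 128) :: (10502, 140) :: (10642, 152) :: (10794, 162) ::
  r

def grid7_5 : List (ℕ × ℕ) :=
  grid7_5_0 []

theorem seg7_5 : sgc 316367 121672664940 dat7 9010 162 10794 grid7_5 = true := by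
  decide +kernel

def grid7_6_0 (r : List (ℕ × ℕ)) : List (ℕ × ℕ) :=
  (10956, 162) :: (11112, 156) :: (11266, 154) :: (11414, 148) :: (11550, 136) ::
  (11666, 116) :: (11782, 116) :: (11888, 106) :: (11990, 108) :: (12098, 110) ::
  (12208, 116) :: (12324, 126) :: (12450, 138) :: (12588, 150) ::
  r

def grid7_6 : List (ℕ × ℕ) :=
  grid7_6_0 []

theorem seg7_6 : sgc 316367 121672664940 dat7 10794 162 12588 grid7_6 = true := by
  decide +kernel

def grid7_7_0 (r : List (ℕ × ℕ)) : List (ℕ × ℕ) :=
  (12738, 162) :: (12900, 170) :: (13070, 170) :: (13228, 158) :: (13380, 152) ::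
  (13522, 142) :: (13644, 122) :: (13754, 110) :: (13864, 110) :: (13968, 108) ::
  (14076, 108) :: (14184, 114) :: (14298, 124) :: (14422, 136) ::
  r

def grid7_7 : List (ℕ × ℕ) :=
  grid7_7_0 []

theorem seg7_7 : sgc 316367 121672664940 dat7 12588 150 14422 grid7_7 = true := by
  decide +kernel

def grid7_8_0 (r : List (ℕ × ℕ)) : List (ℕ × ℕ) :=
  (14558, 150) :: (14708, 164) :: (14872, 172) :: (15044, 172) :: (15206, 162) ::
  (15364, 158) :: (15500, 136) :: (15624, 124) :: (15738, 114) :: (15850, 112) ::
  (15954, 108) :: (16062, 108) :: (16170, 114) :: (16284, 124) ::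
  r

def grid7_8 : List (ℕ × ℕ) :=
  grid7_8_0 []

theorem seg7_8 : sgc 316367 121672664940 dat7 14422 136 16284 grid7_8 = true := by
  decide +kernel

def grid7_9_0 (r : List (ℕ × ℕ)) : List (ℕ × ℕ) :=
  (16408, 136) :: (16544, 152) :: (16696, 166) :: (16862, 178) :: (17040, 178) ::
  (17206, 166) :: (17368, 162) :: (17508, 140) :: (17636, 128) :: (17750, 114) ::
  (17862, 112) :: (17966, 108) :: (18074, 108) :: (18182, 114) ::
  r

def grid7_9 : List (ℕ × ℕ) :=
  grid7_9_0 []

theorem seg7_9 : sgc 316367 121672664940 dat7 16284 124 18182 grid7_9 = true := by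
  decide +kernel

def grid7_10_0 (r : List (ℕ × ℕ)) : List (ℕ × ℕ) :=
  (18296, 126) :: (18422, 140) :: (18562, 158) :: (18720, 174) :: (18894, 184) ::
  (19078, 184) :: (19250, 172) :: (19404, 154) :: (19546, 142) :: (19674, 128) ::
  (19788, 114) :: (19898, 110) :: (20002, 108) :: (20110, 110) ::
  r

def grid7_10 : List (ℕ × ℕ) :=
  grid7_10_0 []

theorem seg7_10 : sgc 316367 121672664940 dat7 18182 114 20110 grid7_10 = true := by
  decide +kernel

def grid7_11_0 (r : List (ℕ × ℕ)) : List (ℕ × ℕ) :=
  (20220, 118) :: (20338, 132) :: (20470, 150) :: (20620, 170) :: (20790, 186) ::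
  (20976, 186) :: (21158, 182) :: (21338, 180) :: (21492, 154) :: (21632, 140) ::
  (21754, 122) :: (21862, 108) :: (21968, 108) :: (22076, 108) ::
  r

def grid7_11 : List (ℕ × ℕ) :=
  grid7_11_0 []

theorem seg7_11 : sgc 316367 121672664940 dat7 20110 110 22076 grid7_11 = true := by
  decide +kernel

def grid7_12_0 (r : List (ℕ × ℕ)) : List (ℕ × ℕ) :=
  (22184, 116) :: (22300, 130) :: (22430, 150) :: (22580, 172) :: (22752, 192) ::
  (22944, 206) :: (23150, 206) :: (23340, 190) :: (23504, 164) :: (23650, 146) ::
  (23776, 126) :: (23884, 108) :: (23990, 108) :: (24098, 110) ::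
  r

def grid7_12 : List (ℕ × ℕ) :=
  grid7_12_0 []

theorem seg7_12 : sgc 316367 121672664940 dat7 22076 108 24098 grid7_12 = true := by
  decide +kernel

def grid7_13_0 (r : List (ℕ × ℕ)) : List (ℕ × ℕ) :=
  (24208, 120) :: (24328, 138) :: (24466, 162) :: (24628, 188) :: (24816, 212) ::
  (25028, 212) :: (25236, 208) :: (25422, 186) :: (25590, 168) :: (25722, 132) ::
  (25844, 122) :: (25950, 106) :: (26054, 108) :: (26162, 116) ::
  r

def grid7_13 : List (ℕ × ℕ) :=
  grid7_13_0 []

theorem seg7_13 : sgc 316367 121672664940 dat7 24098 110 26162 grid7_13 = true := by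
  decide +kernel

def grid7_14_0 (r : List (ℕ × ℕ)) : List (ℕ × ℕ) :=
  (26278, 132) :: (26410, 158) :: (26568, 190) :: (26758, 224) :: (26982, 226) ::
  (27208, 226) :: (27414, 206) :: (27586, 172) :: (27732, 146) :: (27854, 122) ::
  (27962, 108) :: (28066, 108) :: (28174, 118) :: (28292, 140) ::
  r

def grid7_14 : List (ℕ × ℕ) :=
  grid7_14_0 []

theorem seg7_14 : sgc 316367 121672664940 dat7 26162 116 28292 grid7_14 = true := by
  decide +kernel

def grid7_15_0 (r : List (ℕ × ℕ)) : List (ℕ × ℕ) :=
  (28432, 176) :: (28608, 218) :: (28826, 260) :: (29086, 260) :: (29344, 258) ::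
  (29550, 206) :: (29722, 172) :: (29856, 134) :: (29962, 106) :: (30068, 108) ::
  (30176, 120) :: (30296, 152) :: (30448, 202) :: (30650, 264) ::
  r

def grid7_15 : List (ℕ × ℕ) :=
  grid7_15_0 []

theorem seg7_15 : sgc 316367 121672664940 dat7 28292 140 30650 grid7_15 = true := by
  decide +kernel

def grid7_16_0 (r : List (ℕ × ℕ)) : List (ℕ × ℕ) :=
  (30914, 320) :: (31234, 320) :: (31496, 262) :: (31700, 204) :: (31844, 144) ::
  (31956, 112) :: (32058, 108) :: (32166, 126) :: (32292, 174) :: (32466, 256) ::
  (32722, 366) :: (33088, 384) :: (33472, 384) :: (33716, 244) ::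
  r

def grid7_16 : List (ℕ × ℕ) :=
  grid7_16_0 []

theorem seg7_16 : sgc 316367 121672664940 dat7 30650 264 33716 grid7_16 = true := by
  decide +kernel

def grid7_17_0 (r : List (ℕ × ℕ)) : List (ℕ × ℕ) :=
  (33872, 156) :: (33986, 116) :: (34102, 124) :: (34226, 208) :: (34434, 392) ::
  (34826, 612) :: (35438, 612) :: (35630, 192) :: (35646, 16) ::
  r

def grid7_17 : List (ℕ × ℕ) :=
  grid7_17_0 []

theorem seg7_17 : sgc 316367 121672664940 dat7 33716 244 35646 grid7_17 = true := by
  decide +kernel

theorem chk7 : chk 6 316367 121672664940 10000000 100000000000 2452 10000 35646 dat7 = true := by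
  decide +kernel

theorem both7 : Both 7 (2452 / 10000) := by
  have h := chk_sound (by norm_num) (by norm_num) (by norm_num) (by norm_num) (by norm_num) chk7
    ((sgc_sound seg7_0).trans
    ((sgc_sound seg7_1).trans
    ((sgc_sound seg7_2).trans
    ((sgc_sound seg7_3).trans
    ((sgc_sound seg7_4).trans
    ((sgc_sound seg7_5).trans
    ((sgc_sound seg7_6).trans
    ((sgc_sound seg7_7).trans
    ((sgc_sound seg7_8).trans
    ((sgc_sound seg7_9).trans
    ((sgc_sound seg7_10).trans
    ((sgc_sound seg7_11).trans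
    ((sgc_sound seg7_12).trans
    ((sgc_sound seg7_13).trans
    ((sgc_sound seg7_14).trans
    ((sgc_sound seg7_15).trans
    ((sgc_sound seg7_16).trans
    (sgc_sound seg7_17))))))))))))))))))
  exact_mod_cast h

end Pool.Agent.P.MP_62e163_co
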