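import Pool.Agent.P.MP_62e163_co.T6

namespace Pool.Agent.P.MP_62e163_co

def dat8_0 (r : Dat) : Dat :=
  (false, 79609835062, 9849128) :: (false, 39646478734, 9401857) :: (false, 11838946199, 8674029) ::
  (false, 1950208157, 7691400) :: (false, 152180640, 6488694) :: (false, 4209162, 5108339) ::
  (false, 22006, 3598905) :: (false, 3, 2013333) :: (false, 0, 0) ::
  (false, 0, 0) :: (true, 218, 2646344) :: (true, 102856, 3988553) ::
  (true, 4695243, 5145693) :: (true, 57291298, 6079566) :: (true, 281540324, 6760353) ::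
  (true, 677107007, 7167656) :: (true, 874935894, 7291190) :: (true, 627117345, 7131101) ::
  (true, 244946990, 6697892) :: (true, 48445467, 6011971) :: (true, 4141572, 5102829) ::
  (true, 110595, 4007890) :: (true, 436, 2771071) :: (false, 0, 0) ::
  (false, 0, 0) :: (false, 0, 0) :: (false, 156, 2587480) ::
  (false, 44619, 3772551) :: (false, 1661667, 4801419) :: (false, 18397456, 5636167) ::
  (false, 86023245, 6246562) :: (false, 201440727, 6611142) :: (false, 256185424, 6717953) ::
  (false, 181327386, 6564942) :: (false, 69769775, 6159959) :: (false, 13475803, 5520397) ::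
  (false, 1104571, 4672467) :: (false, 27205, 3650147) :: (false, 89, 2493845) ::
  (false, 0, 0) :: (false, 0, 0) :: (false, 0, 0) ::
  (true, 111, 2530693) :: (true, 26530, 3644038) :: (true, 904405, 4610601) ::
  (true, 9522581, 5394075) :: (true, 43108072, 5965368) :: (true, 98605705, 6303670) ::
  (true, 122987261, 6397211) :: (true, 85425521, 6243659) :: (true, 32175565, 5850169) ::
  (true, 6044191, 5233062) :: (true, 475484, 4417153) :: (true, 10925, 3434768) ::
  (true, 31, 2324470) :: (false, 0, 0) :: (false, 0, 0) ::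
  (false, 0, 0) :: (false, 90, 2494936) :: (false, 18800, 3561319) ::
  r

def dat8_1 (r : Dat) : Dat :=
  (false, 599667, 4486015) :: (false, 6060792, 5234019) :: (false, 26657861, 5777257) ::
  (false, 59604635, 6095631) :: (false, 72856911, 6177765) :: (false, 49598143, 6021403) ::
  (false, 18265699, 5633467) :: (false, 3335789, 5029752) :: (false, 252180, 4234292) ::
  (false, 5431, 3278405) :: (false, 13, 2199465) :: (false, 0, 0) ::
  (false, 0, 0) :: (false, 0, 0) :: (true, 79, 2473158) ::
  (true, 14769, 3504489) :: (true, 444525, 4397371) :: (true, 4328373, 5117859) ::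
  (true, 18524284, 5638749) :: (true, 40500170, 5940602) :: (true, 48505334, 6012466) ::
  (true, 32349663, 5852274) :: (true, 11644203, 5466894) :: (true, 2067279, 4871843) ::
  (true, 150278, 4090657) :: (true, 3039, 3153973) :: (true, 6, 2098321) ::
  (false, 0, 0) :: (false, 0, 0) :: (false, 0, 0) ::
  (false, 73, 2460723) :: (false, 12406, 3463990) :: (false, 353884, 4331026) ::
  (false, 3326142, 5028781) :: (false, 13862015, 5530806) :: (false, 29641427, 5818262) ::
  (false, 34781109, 5880617) :: (false, 22720837, 5716036) :: (false, 7991936, 5331427) ::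
  (false, 1379223, 4742154) :: (false, 96427, 3971429) :: (false, 1833, 3049392) ::
  (false, 3, 2011941) :: (false, 0, 0) :: (false, 0, 0) ::
  (false, 0, 0) :: (true, 70, 2454859) :: (true, 10919, 3434637) ::
  (true, 296002, 4279763) :: (true, 2688726, 4957961) :: (true, 10917498, 5443458) ::
  (true, 22835824, 5717960) :: (true, 26251449, 5771343) :: (true, 16794786, 5602024) ::
  (true, 5771866, 5217003) :: (true, 968126, 4631576) :: (true, 65091, 3868729) ::
  (true, 1162, 2958237) :: (true, 2, 1935503) :: (false, 0, 0) ::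
  r

def dat8_2 (r : Dat) : Dat :=
  (false, 0, 0) :: (false, 0, 0) :: (false, 70, 2453850) ::
  (false, 9947, 3413347) :: (false, 256724, 4239336) :: (false, 2255500, 4900227) ::
  (false, 8925912, 5370856) :: (false, 18264289, 5633438) :: (false, 20568722, 5678241) ::
  (false, 12885691, 5503942) :: (false, 4325938, 5117667) :: (false, 705059, 4534698) ::
  (false, 45573, 3777872) :: (false, 764, 2876683) :: (false, 1, 1866138) ::
  (false, 0, 0) :: (false, 0, 0) :: (false, 0, 0) ::
  (true, 71, 2456583) :: (true, 9303, 3398161) :: (true, 228915, 4207057) ::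
  (true, 1946339, 4852303) :: (true, 7508472, 5309294) :: (true, 15030263, 5560721) ::
  (true, 16580443, 5597229) :: (true, 10169538, 5417764) :: (true, 3334267, 5029599) ::
  (true, 527877, 4448042) :: (true, 32785, 3695832) :: (true, 515, 2802250) ::
  (false, 0, 0) :: (false, 0, 0) :: (false, 0, 0) ::
  (false, 0, 0) :: (false, 74, 2462321) :: (false, 8886, 3387776) ::
  (false, 208648, 4181137) :: (false, 1717466, 4812003) :: (false, 6459345, 5256289) ::
  (false, 12648738, 5497136) :: (false, 13665985, 5525557) :: (false, 8204590, 5340769) ::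
  (false, 2626352, 4950209) :: (false, 403729, 4369241) :: (false, 24077, 3620547) ::
  (false, 354, 2733243) :: (false, 0, 0) :: (false, 0, 0) ::
  (false, 0, 0) :: (false, 0, 0) :: (true, 77, 2470549) ::
  (true, 8634, 3381284) :: (true, 193598, 4160321) :: (true, 1543137, 4777789) ::
  (true, 5658168, 5210088) :: (true, 10837568, 5440792) :: (true, 11465872, 5461272) ::
  (true, 6736200, 5271016) :: (true, 2104499, 4877642) :: (true, 313948, 4296590) ::
  r

def dat8_3 (r : Dat) : Dat :=
  (true, 17963, 3550520) :: (true, 247, 2668426) :: (false, 0, 0) ::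
  (false, 0, 0) :: (false, 0, 0) :: (false, 0, 0) ::
  (false, 83, 2480922) :: (false, 8511, 3378050) :: (false, 182330, 4143722) ::
  (false, 1407436, 4748560) :: (false, 5030832, 5169430) :: (false, 9423603, 5390319) ::
  (false, 9760269, 5402948) :: (false, 5609414, 5207083) :: (false, 1709597, 4810530) ::
  (false, 247344, 4228829) :: (false, 13563, 3484641) :: (false, 174, 2606871) ::
  (false, 0, 0) :: (false, 0, 0) :: (false, 0, 0) ::
  (false, 0, 0) :: (true, 89, 2493196) :: (true, 8494, 3377613) ::
  (true, 173911, 4130683) :: (true, 1300042, 4723499) :: (true, 4529364, 5133369) ::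
  (true, 8295246, 5344683) :: (true, 8408288, 5349508) :: (true, 4725375, 5147888) ::
  (true, 1404190, 4747829) :: (true, 196880, 4164986) :: (true, 10334, 3422047) ::
  (true, 123, 2547854) :: (false, 0, 0) :: (false, 0, 0) ::
  (false, 0, 0) :: (false, 0, 0) :: (false, 97, 2507203) ::
  (false, 8571, 3379630) :: (false, 167717, 4120709) :: (false, 1213972, 4701978) ::
  (false, 4121469, 5101174) :: (false, 7377686, 5303078) :: (false, 7315806, 5300101) ::
  (false, 4018417, 5092570) :: (false, 1163550, 4688699) :: (false, 157958, 4104273) ::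
  (false, 7925, 3362029) :: (false, 88, 2490768) :: (false, 0, 0) ::
  (false, 0, 0) :: (false, 0, 0) :: (false, 0, 0) ::
  (true, 106, 2522850) :: (true, 8733, 3383873) :: (true, 163336, 4113444) ::
  (true, 1144468, 4683533) :: (true, 3784947, 5072289) :: (true, 6619586, 5264883) ::
  r

def dat8_4 (r : Dat) : Dat :=
  (true, 6418508, 5254067) :: (true, 3443834, 5040452) :: (true, 970939, 4632472) ::
  (true, 127491, 4046058) :: (true, 6104, 3304010) :: (true, 62, 2435115) ::
  (false, 0, 0) :: (false, 0, 0) :: (false, 0, 0) ::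
  (false, 0, 0) :: (false, 118, 2540085) :: (false, 8981, 3390173) ::
  (false, 160483, 4108615) :: (false, 1088123, 4667796) :: (false, 3503976, 5046273) ::
  (false, 5984420, 5229596) :: (false, 5670806, 5210863) :: (false, 2970140, 4990972) ::
  (false, 814662, 4578591) :: (false, 103341, 3989805) :: (false, 4712, 3247498) ::
  (false, 44, 2380458) :: (false, 0, 0) :: (false, 0, 0) ::
  (false, 0, 0) :: (false, 0, 0) :: (true, 132, 2558887) ::
  (true, 9314, 3398413) :: (true, 158965, 4106011) :: (true, 1042459, 4654474) ::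
  (true, 3266874, 5022757) :: (true, 5445418, 5196793) :: (true, 5039467, 5170021) ::
  (true, 2574565, 4943641) :: (true, 686309, 4526557) :: (true, 83987, 3935027) ::
  (true, 3639, 3192033) :: (true, 31, 2326387) :: (false, 0, 0) ::
  (false, 0, 0) :: (false, 0, 0) :: (false, 0, 0) ::
  (false, 148, 2579287) :: (false, 9739, 3408534) :: (false, 158662, 4105489) ::
  (false, 1005687, 4643344) :: (false, 3065078, 5001452) :: (false, 4982787, 5166124) ::
  (false, 4500084, 5131150) :: (false, 2240407, 4898034) :: (false, 579763, 4475931) ::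
  (false, 68333, 3881286) :: (false, 2806, 3137196) :: (false, 22, 2272510) ::
  (false, 0, 0) :: (false, 0, 0) :: (false, 0, 0) ::
  (false, 0, 0) :: (true, 169, 2601353) :: (true, 10265, 3420523) ::
  r

def dat8_5 (r : Dat) : Dat :=
  (true, 159515, 4106958) :: (true, 976512, 4634240) :: (true, 2892096, 4982120) ::
  (true, 4581550, 5137291) :: (true, 4034188, 5093900) :: (true, 1955167, 4853767) ::
  (true, 490481, 4426307) :: (true, 55573, 3828168) :: (true, 2156, 3082577) ::
  (true, 15, 2218441) :: (false, 0, 0) :: (false, 0, 0) ::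
  (false, 0, 0) :: (false, 0, 0) :: (false, 193, 2625191) ::
  (false, 10909, 3434412) :: (false, 161514, 4110369) :: (false, 953991, 4627037) ::
  (false, 2742950, 4964565) :: (false, 4230172, 5110035) :: (false, 3627663, 5057957) ::
  (false, 1709320, 4810478) :: (false, 415033, 4377292) :: (false, 45103, 3775262) ::
  (false, 1647, 3027763) :: (false, 10, 2163776) :: (false, 0, 0) ::
  (false, 0, 0) :: (false, 0, 0) :: (false, 0, 0) ::
  (true, 224, 2650957) :: (true, 11689, 3450278) :: (true, 164697, 4115720) ::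
  (true, 937475, 4621653) :: (true, 2613798, 4948628) :: (true, 3919602, 5084124) ::
  (true, 3269500, 5023026) :: (true, 1495543, 4767821) :: (true, 350798, 4328498) ::
  (true, 36467, 3722152) :: (true, 1248, 2972326) :: (true, 7, 2108092) ::
  (false, 0, 0) :: (false, 0, 0) :: (false, 0, 0) ::
  (false, 0, 0) :: (false, 262, 2678834) :: (false, 12635, 3468225) ::
  (false, 169141, 4123031) :: (false, 926485, 4618021) :: (false, 2501457, 4934156) ::
  (false, 3642365, 5059321) :: (false, 2950748, 4988793) :: (false, 1307982, 4725417) ::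
  (false, 295720, 4279491) :: (false, 29315, 3668367) :: (false, 936, 2915773) ::
  (false, 4, 2050892) :: (false, 0, 0) :: (false, 0, 0) ::
  r

def dat8_6 (r : Dat) : Dat :=
  (false, 0, 0) :: (false, 0, 0) :: (true, 310, 2709085) ::
  (true, 13786, 3488426) :: (true, 174984, 4132377) :: (true, 920757, 4616112) ::
  (true, 2403353, 4921013) :: (true, 3392319, 5035390) :: (true, 2664151, 4954927) ::
  (true, 1141960, 4682848) :: (true, 248182, 4229783) :: (true, 23370, 3613362) ::
  (true, 691, 2857521) :: (true, 3, 1991576) :: (false, 0, 0) ::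
  (false, 0, 0) :: (false, 0, 0) :: (false, 1, 1866404) ::
  (false, 372, 2742080) :: (false, 15196, 3511150) :: (false, 182457, 4143914) ::
  (false, 920311, 4615963) :: (false, 2317651, 4909115) :: (false, 3164650, 5012123) ::
  (false, 2404013, 4921103) :: (false, 993852, 4639681) :: (false, 206942, 4178849) ::
  (false, 18425, 3556537) :: (false, 501, 2796916) :: (false, 1, 1929461) ::
  (false, 0, 0) :: (false, 0, 0) :: (false, 0, 0) ::
  (true, 1, 1911754) :: (true, 453, 2778254) :: (true, 16943, 3536713) ::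
  (true, 191862, 4157823) :: (true, 925234, 4617605) :: (true, 2242493, 4898338) ::
  (true, 2954743, 4989243) :: (true, 2165185, 4886895) :: (true, 860563, 4595353) ::
  (true, 170978, 4126002) :: (true, 14309, 3497106) :: (true, 354, 2733103) ::
  (true, 1, 1863648) :: (false, 0, 0) :: (false, 0, 0) ::
  (false, 0, 0) :: (false, 2, 1961212) :: (false, 561, 2818208) ::
  (false, 19139, 3565564) :: (false, 203644, 4174375) :: (false, 935852, 4621119) ::
  (false, 2176284, 4888561) :: (false, 2758381, 4966422) :: (false, 1943153, 4851773) ::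
  (false, 739516, 4549146) :: (false, 139473, 4070359) :: (false, 10891, 3434049) ::
  r

def dat8_7 (r : Dat) : Dat :=
  (false, 242, 2664953) :: (false, 0, 0) :: (false, 0, 0) ::
  (false, 0, 0) :: (false, 0, 0) :: (true, 3, 2015785) ::
  (true, 710, 2862791) :: (true, 21956, 3598352) :: (true, 218481, 4193993) ::
  (true, 952863, 4626672) :: (true, 2117734, 4879681) :: (true, 2571762, 4943282) ::
  (true, 1734068, 4815090) :: (true, 628665, 4500160) :: (true, 111801, 4010790) ::
  (true, 8068, 3366041) :: (true, 159, 2590997) :: (false, 0, 0) ::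
  (false, 0, 0) :: (false, 0, 0) :: (false, 0, 0) ::
  (false, 5, 2076794) :: (false, 923, 2913107) :: (false, 25656, 3635912) ::
  (false, 237328, 4217191) :: (false, 977100, 4634426) :: (false, 2064976, 4871481) ::
  (false, 2390244, 4919219) :: (false, 1533813, 4775859) :: (false, 526101, 4447043) ::
  (false, 87442, 3945617) :: (false, 5756, 3291128) :: (false, 98, 2509064) ::
  (false, 0, 0) :: (false, 0, 0) :: (false, 0, 0) ::
  (false, 0, 0) :: (true, 9, 2146220) :: (true, 1239, 2970828) ::
  (true, 30681, 3679524) :: (true, 261720, 4244787) :: (true, 1010042, 4644682) ::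
  (true, 2016107, 4863709) :: (true, 2208876, 4893408) :: (true, 1338486, 4732685) ::
  (true, 430319, 4387860) :: (true, 66027, 3872412) :: (true, 3893, 3206460) ::
  (true, 55, 2415978) :: (false, 0, 0) :: (false, 0, 0) ::
  (false, 0, 0) :: (false, 0, 0) :: (false, 16, 2226991) ::
  (false, 1736, 3038412) :: (false, 37798, 3731052) :: (false, 294121, 4277944) ::
  (false, 1053713, 4657807) :: (false, 1967936, 4855874) :: (false, 2020838, 4864469) ::
  r

def dat8_8 (r : Dat) : Dat :=
  (false, 1143625, 4683303) :: (false, 340011, 4319494) :: (false, 47305, 3787281) ::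
  (false, 2432, 3107478) :: (false, 27, 2306656) :: (false, 0, 0) ::
  (false, 0, 0) :: (false, 0, 0) :: (false, 0, 0) ::
  (true, 31, 2323791) :: (true, 2581, 3119787) :: (true, 48474, 3793450) ::
  (true, 338781, 4318451) :: (true, 1110996, 4674274) :: (true, 1914800, 4847021) ::
  (true, 1816110, 4829952) :: (true, 943913, 4623762) :: (true, 254201, 4236546) ::
  (true, 31181, 3683495) :: (true, 1339, 2986299) :: (true, 11, 2172303) ::
  (false, 0, 0) :: (false, 0, 0) :: (false, 0, 0) ::
  (false, 0, 0) :: (false, 66, 2444741) :: (false, 4181, 3221716) ::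
  (false, 65852, 3871729) :: (false, 403684, 4369209) :: (false, 1185608, 4694573) ::
  (false, 1844756, 4834994) :: (false, 1578062, 4784923) :: (false, 732617, 4546304) ::
  (false, 172546, 4128514) :: (false, 17772, 3547999) :: (false, 590, 2827636) ::
  (false, 3, 1995838) :: (false, 0, 0) :: (false, 0, 0) ::
  (false, 0, 0) :: (false, 0, 0) :: (true, 173, 2605640) ::
  (true, 7757, 3357236) :: (true, 97849, 3975305) :: (true, 505493, 4435212) ::
  (true, 1279828, 4718567) :: (true, 1728000, 4813965) :: (true, 1275332, 4717460) ::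
  (true, 501284, 4432740) :: (true, 96271, 3971000) :: (true, 7528, 3350522) ::
  (true, 163, 2595973) :: (false, 0, 0) :: (false, 0, 0) ::
  (false, 0, 0) :: (false, 0, 0) :: (false, 3, 2015545) ::
  (false, 643, 2843703) :: (false, 18429, 3556589) :: (false, 170362, 4125009) ::
  r

def dat8_9 (r : Dat) : Dat :=
  (false, 683854, 4525476) :: (false, 1375046, 4741195) :: (false, 1472009, 4762782) ::
  (false, 842047, 4588694) :: (false, 244313, 4225355) :: (false, 31626, 3686973) ::
  (false, 1399, 2995036) :: (false, 11, 2177529) :: (false, 0, 0) ::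
  (false, 0, 0) :: (false, 0, 0) :: (false, 0, 0) ::
  (true, 98, 2508881) :: (true, 5591, 3284746) :: (true, 78790, 3918305) ::
  (true, 418118, 4379454) :: (true, 1009243, 4644437) :: (true, 1194325, 4696866) ::
  (true, 690638, 4528455) :: (true, 179536, 4139459) ::
  r

def dat8 : Dat :=
  dat8_0 (dat8_1 (dat8_2 (dat8_3 (dat8_4 (dat8_5 (dat8_6 (dat8_7 (dat8_8 (dat8_9 [])))))))))

def grid8_0_0 (r : List (ℕ × ℕ)) : List (ℕ × ℕ) :=
  (138, 140) :: (278, 146) :: (424, 156) :: (580, 166) :: (746, 172) ::
  (918, 172) :: (1078, 160) :: (1234, 156) :: (1382, 148) :: (1522, 140) ::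
  (1654, 138) :: (1792, 138) ::
  r

def grid8_0 : List (ℕ × ℕ) :=
  grid8_0_0 []

theorem seg8_0 : sgc 313205 130949773070 dat8 0 138 1792 grid8_0 = true := by
  decide +kernel

def grid8_1_0 (r : List (ℕ × ℕ)) : List (ℕ × ℕ) :=
  (1930, 142) :: (2072, 150) :: (2222, 160) :: (2382, 168) :: (2550, 168) ::
  (2710, 160) :: (2868, 158) :: (3022, 154) :: (3168, 146) :: (3304, 136) ::
  (3434, 138) :: (3572, 140) ::
  r

def grid8_1 : List (ℕ × ℕ) :=
  grid8_1_0 []

theorem seg8_1 : sgc 313205 130949773070 dat8 1792 138 3572 grid8_1 = true := by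
  decide +kernel

def grid8_2_0 (r : List (ℕ × ℕ)) : List (ℕ × ℕ) :=
  (3712, 146) :: (3858, 154) :: (4012, 164) :: (4176, 172) :: (4348, 172) ::
  (4508, 160) :: (4666, 158) :: (4818, 152) :: (4960, 142) :: (5092, 132) ::
  (5222, 138) :: (5360, 142) ::
  r

def grid8_2 : List (ℕ × ℕ) :=
  grid8_2_0 []

theorem seg8_2 : sgc 313205 130949773070 dat8 3572 140 5360 grid8_2 = true := by
  decide +kernel

def grid8_3_0 (r : List (ℕ × ℕ)) : List (ℕ × ℕ) :=
  (5502, 150) :: (5652, 160) :: (5812, 168) :: (5980, 174) :: (6154, 174) ::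
  (6314, 160) :: (6470, 156) :: (6618, 148) :: (6756, 138) :: (6888, 138) ::
  (7026, 140) :: (7166, 146) ::
  r

def grid8_3 : List (ℕ × ℕ) :=
  grid8_3_0 []

theorem seg8_3 : sgc 313205 130949773070 dat8 5360 142 7166 grid8_3 = true := by
  decide +kernel

def grid8_4_0 (r : List (ℕ × ℕ)) : List (ℕ × ℕ) :=
  (7312, 156) :: (7468, 166) :: (7634, 174) :: (7808, 174) :: (7970, 162) ::
  (8130, 160) :: (8284, 154) :: (8426, 142) :: (8560, 134) :: (8690, 138) ::
  (8828, 142) :: (8970, 150) ::
  r

def grid8_4 : List (ℕ × ℕ) :=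
  grid8_4_0 []

theorem seg8_4 : sgc 313205 130949773070 dat8 7166 146 8970 grid8_4 = true := by
  decide +kernel

def grid8_5_0 (r : List (ℕ × ℕ)) : List (ℕ × ℕ) :=
  (9120, 162) :: (9282, 172) :: (9454, 178) :: (9632, 178) :: (9796, 164) ::
  (9954, 158) :: (10102, 148) :: (10240, 138) :: (10372, 138) :: (10510, 140) ::
  (10650, 148) :: (10798, 158) ::
  r

def grid8_5 : List (ℕ × ℕ) :=
  grid8_5_0 []

theorem seg8_5 : sgc 313205 130949773070 dat8 8970 150 10798 grid8_5 = true := by
  decide +kernel

def grid8_6_0 (r : List (ℕ × ℕ)) : List (ℕ × ℕ) :=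
  (10956, 170) :: (11126, 178) :: (11304, 178) :: (11470, 166) :: (11632, 162) ::
  (11786, 154) :: (11928, 142) :: (12060, 138) :: (12198, 138) :: (12336, 146) ::
  (12482, 156) :: (12638, 168) ::
  r

def grid8_6 : List (ℕ × ℕ) :=
  grid8_6_0 []

theorem seg8_6 : sgc 313205 130949773070 dat8 10798 158 12638 grid8_6 = true := by
  decide +kernel

def grid8_7_0 (r : List (ℕ × ℕ)) : List (ℕ × ℕ) :=
  (12806, 180) :: (12986, 180) :: (13156, 170) :: (13322, 166) :: (13480, 158) ::
  (13626, 146) :: (13760, 134) :: (13890, 138) :: (14028, 144) :: (14172, 154) ::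
  (14326, 168) :: (14494, 180) ::
  r

def grid8_7 : List (ℕ × ℕ) :=
  grid8_7_0 []

theorem seg8_7 : sgc 313205 130949773070 dat8 12638 168 14494 grid8_7 = true := by
  decide +kernel

def grid8_8_0 (r : List (ℕ × ℕ)) : List (ℕ × ℕ) :=
  (14674, 180) :: (14848, 174) :: (15020, 172) :: (15184, 164) :: (15324, 140) ::
  (15462, 138) :: (15594, 138) :: (15732, 142) :: (15874, 152) :: (16026, 168) ::
  (16194, 182) :: (16376, 192) ::
  r

def grid8_8 : List (ℕ × ℕ) :=
  grid8_8_0 []

theorem seg8_8 : sgc 313205 130949773070 dat8 14494 180 16376 grid8_8 = true := by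
  decide +kernel

def grid8_9_0 (r : List (ℕ × ℕ)) : List (ℕ × ℕ) :=
  (16568, 192) :: (16746, 178) :: (16902, 156) :: (17046, 144) :: (17188, 142) ::
  (17320, 138) :: (17458, 142) :: (17600, 154) :: (17754, 170) :: (17924, 188) ::
  (18112, 198) :: (18310, 198) ::
  r

def grid8_9 : List (ℕ × ℕ) :=
  grid8_9_0 []

theorem seg8_9 : sgc 313205 130949773070 dat8 16376 192 18310 grid8_9 = true := by
  decide +kernel

def grid8_10_0 (r : List (ℕ × ℕ)) : List (ℕ × ℕ) :=
  (18494, 184) :: (18652, 158) :: (18798, 146) :: (18940, 142) :: (19072, 138) ::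
  (19210, 144) :: (19354, 158) :: (19512, 178) :: (19690, 198) :: (19888, 198) ::
  (20080, 192) :: (20270, 190) ::
  r

def grid8_10 : List (ℕ × ℕ) :=
  grid8_10_0 []

theorem seg8_10 : sgc 313205 130949773070 dat8 18310 198 20270 grid8_10 = true := by
  decide +kernel

def grid8_11_0 (r : List (ℕ × ℕ)) : List (ℕ × ℕ) :=
  (20432, 162) :: (20578, 146) :: (20718, 140) :: (20848, 138) :: (20986, 148) ::
  (21134, 168) :: (21302, 192) :: (21494, 214) :: (21708, 214) :: (21914, 206) ::
  (22094, 180) :: (22254, 160) ::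
  r

def grid8_11 : List (ℕ × ℕ) :=
  grid8_11_0 []

theorem seg8_11 : sgc 313205 130949773070 dat8 20270 190 22254 grid8_11 = true := by
  decide +kernel

def grid8_12_0 (r : List (ℕ × ℕ)) : List (ℕ × ℕ) :=
  (22394, 140) :: (22528, 138) :: (22666, 144) :: (22810, 164) :: (22974, 192) ::
  (23166, 222) :: (23388, 222) :: (23608, 220) :: (23804, 196) :: (23964, 160) ::
  (24114, 150) :: (24252, 138) ::
  r

def grid8_12 : List (ℕ × ℕ) :=
  grid8_12_0 []

theorem seg8_12 : sgc 313205 130949773070 dat8 22254 160 24252 grid8_12 = true := by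
  decide +kernel

def grid8_13_0 (r : List (ℕ × ℕ)) : List (ℕ × ℕ) :=
  (24390, 144) :: (24534, 168) :: (24702, 204) :: (24906, 244) :: (25150, 246) ::
  (25396, 246) :: (25594, 198) :: (25764, 170) :: (25900, 136) :: (26034, 138) ::
  (26172, 156) :: (26328, 196) ::
  r

def grid8_13 : List (ℕ × ℕ) :=
  grid8_13_0 []

theorem seg8_13 : sgc 313205 130949773070 dat8 24252 138 26328 grid8_13 = true := by
  decide +kernel

def grid8_14_0 (r : List (ℕ × ℕ)) : List (ℕ × ℕ) :=
  (26524, 254) :: (26778, 282) :: (27060, 282) :: (27302, 242) :: (27488, 186) ::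
  (27630, 142) :: (27760, 138) :: (27898, 164) :: (28062, 230) :: (28292, 328) ::
  (28620, 346) :: (28966, 346) ::
  r

def grid8_14 : List (ℕ × ℕ) :=
  grid8_14_0 []

theorem seg8_14 : sgc 313205 130949773070 dat8 26328 196 28966 grid8_14 = true := by
  decide +kernel

def grid8_15_0 (r : List (ℕ × ℕ)) : List (ℕ × ℕ) :=
  (29190, 224) :: (29348, 158) :: (29490, 142) :: (29632, 214) :: (29846, 396) ::
  (30242, 484) :: (30726, 484) :: (30848, 122) ::
  r

def grid8_15 : List (ℕ × ℕ) :=
  grid8_15_0 []

theorem seg8_15 : sgc 313205 130949773070 dat8 28966 346 30848 grid8_15 = true := by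
  decide +kernel

theorem chk8 : chk 7 313205 130949773070 10000000 100000000000 2261 10000 30848 dat8 = true := by
  decide +kernel

theorem both8 : Both 8 (2261 / 10000) := by
  have h := chk_sound (by norm_num) (by norm_num) (by norm_num) (by norm_num) (by norm_num) chk8
    ((sgc_sound seg8_0).trans
    ((sgc_sound seg8_1).trans
    ((sgc_sound seg8_2).trans
    ((sgc_sound seg8_3).trans
    ((sgc_sound seg8_4).trans
    ((sgc_sound seg8_5).trans
    ((sgc_sound seg8_6).trans
    ((sgc_sound seg8_7).trans
    ((sgc_sound seg8_8).trans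
    ((sgc_sound seg8_9).trans
    ((sgc_sound seg8_10).trans
    ((sgc_sound seg8_11).trans
    ((sgc_sound seg8_12).trans
    ((sgc_sound seg8_13).trans
    ((sgc_sound seg8_14).trans
    (sgc_sound seg8_15))))))))))))))))
  exact_mod_cast h

end Pool.Agent.P.MP_62e163_co
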