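import Pool.Agent.P.MP_62e163_co.T7

namespace Pool.Agent.P.MP_62e163_co

def dat9_0 (r : Dat) : Dat :=
  (false, 81178987087, 9878094) :: (false, 43011534476, 9515819) :: (false, 14421826795, 8923405) ::
  (false, 2885619618, 8117566) :: (false, 311327506, 7121020) :: (false, 15186075, 5961824) ::
  (false, 241229, 4672558) :: (false, 617, 3289378) :: (false, 0, 0) ::
  (false, 0, 0) :: (false, 0, 0) :: (true, 2, 2394752) ::
  (true, 3735, 3656601) :: (true, 357955, 4782302) :: (true, 8012265, 5741752) ::
  (true, 67712741, 6509818) :: (true, 273554969, 7067046) :: (true, 598595965, 7400195) ::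
  (true, 756135262, 7502599) :: (true, 564004618, 7374329) :: (true, 245467409, 7022152) ::
  (true, 59313546, 6459301) :: (true, 7184863, 5705056) :: (true, 360300, 4784139) ::
  (true, 5141, 3725963) :: (true, 8, 2563738) :: (false, 0, 0) ::
  (false, 0, 0) :: (false, 0, 0) :: (false, 2, 2386475) ::
  (false, 1875, 3511361) :: (false, 137687, 4520943) :: (false, 2696948, 5385522) ::
  (false, 21198611, 6079956) :: (false, 82178802, 6584386) :: (false, 175448383, 6884797) ::
  (false, 218054055, 6973406) :: (false, 160512062, 6848857) :: (false, 68854641, 6516225) ::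
  (false, 16306243, 5986835) :: (false, 1913426, 5277880) :: (false, 90909, 4411884) ::
  (false, 1174, 3415988) :: (false, 1, 2321119) :: (false, 0, 0) ::
  (false, 0, 0) :: (false, 0, 0) :: (true, 2, 2352415) ::
  (true, 1174, 3416020) :: (true, 77506, 4370683) :: (true, 1428377, 5187890) ::
  (true, 10797716, 5843413) :: (true, 40727910, 6318033) :: (true, 85136022, 6598093) ::
  (true, 103910454, 6675893) :: (true, 75159671, 6549896) :: (true, 31628317, 6224753) ::
  (true, 7316192, 5711138) :: (true, 831573, 5025400) :: (true, 37667, 4189051) ::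
  r

def dat9_1 (r : Dat) : Dat :=
  (true, 448, 3228091) :: (false, 0, 0) :: (false, 0, 0) ::
  (false, 0, 0) :: (false, 0, 0) :: (false, 1, 2330858) ::
  (false, 862, 3354531) :: (false, 52695, 4272603) :: (false, 926588, 5057484) ::
  (false, 6781863, 5685717) :: (false, 24961881, 6138682) :: (false, 51130743, 6403141) ::
  (false, 61267354, 6471627) :: (false, 43511480, 6342651) :: (false, 17948857, 6020731) ::
  (false, 4054427, 5516237) :: (false, 446765, 4845056) :: (false, 19351, 4028101) ::
  (false, 214, 3090655) :: (false, 0, 0) :: (false, 0, 0) ::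
  (false, 0, 0) :: (false, 0, 0) :: (true, 1, 2319159) ::
  (true, 698, 3313099) :: (true, 39938, 4203505) :: (true, 673658, 4963529) ::
  (true, 4786413, 5570356) :: (true, 17211415, 6005891) :: (true, 34559731, 6257293) ::
  (true, 40653783, 6317356) :: (true, 28341966, 6184711) :: (true, 11458223, 5863857) ::
  (true, 2527546, 5365010) :: (true, 270145, 4703779) :: (true, 11204, 3900675) ::
  (true, 115, 2980484) :: (false, 0, 0) :: (false, 0, 0) ::
  (false, 0, 0) :: (false, 0, 0) :: (false, 1, 2314409) ::
  (false, 602, 3284585) :: (false, 32467, 4152601) :: (false, 526762, 4892229) ::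
  (false, 3638240, 5481204) :: (false, 12789509, 5901894) :: (false, 25180041, 6141825) ::
  (false, 29078446, 6194051) :: (false, 19898204, 6057357) :: (false, 7883440, 5736280) ::
  (false, 1698193, 5240962) :: (false, 176082, 4586831) :: (false, 6996, 3794121) ::
  (false, 67, 2887247) :: (false, 0, 0) :: (false, 0, 0) ::
  (false, 0, 0) :: (false, 0, 0) :: (true, 1, 2314685) ::
  r

def dat9_2 (r : Dat) : Dat :=
  (true, 544, 3265002) :: (true, 27712, 4114100) :: (true, 433215, 4836286) ::
  (true, 2911037, 5409776) :: (true, 10007737, 5817356) :: (true, 19321855, 6046893) ::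
  (true, 21905328, 6091696) :: (true, 14712130, 5950715) :: (true, 5711499, 5628557) ::
  (true, 1201377, 5135342) :: (true, 120847, 4486383) :: (true, 4600, 3701711) ::
  (true, 41, 2805459) :: (false, 0, 0) :: (false, 0, 0) ::
  (false, 0, 0) :: (false, 0, 0) :: (false, 1, 2318746) ::
  (false, 508, 3251945) :: (false, 24518, 4084570) :: (false, 369711, 4791401) ::
  (false, 2418322, 5351087) :: (false, 8132693, 5746793) :: (false, 15398870, 5966706) ::
  (false, 17138096, 6004383) :: (false, 11296142, 5858945) :: (false, 4296587, 5535093) ::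
  (false, 882364, 5042956) :: (false, 86091, 4397776) :: (false, 3139, 3619436) ::
  (false, 26, 2731848) :: (false, 0, 0) :: (false, 0, 0) ::
  (false, 0, 0) :: (false, 0, 0) :: (true, 1, 2325772) ::
  (true, 487, 3243869) :: (true, 22297, 4061826) :: (true, 324576, 4754844) ::
  (true, 2067429, 5301968) :: (true, 6802129, 5686715) :: (true, 12631182, 5897571) ::
  (true, 13799362, 5928337) :: (true, 8925097, 5778309) :: (true, 3325448, 5452296) ::
  (true, 666609, 4960459) :: (true, 63068, 4318003) :: (true, 2202, 3544702) ::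
  (true, 17, 2664294) :: (false, 0, 0) :: (false, 0, 0) ::
  (false, 0, 0) :: (false, 0, 0) :: (false, 1, 2335219) ::
  (false, 477, 3239754) :: (false, 20727, 4044416) :: (false, 291416, 4724797) ::
  (false, 1807941, 5260304) :: (false, 5819857, 5634783) :: (false, 10598299, 5837009) ::
  r

def dat9_3 (r : Dat) : Dat :=
  (false, 11364247, 5861017) :: (false, 7211199, 5706284) :: (false, 2631409, 5377734) ::
  (false, 514725, 4885581) :: (false, 47201, 4245018) :: (false, 1576, 3475740) ::
  (false, 11, 2601344) :: (false, 0, 0) :: (false, 0, 0) ::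
  (false, 0, 0) :: (false, 0, 0) :: (true, 1, 2346702) ::
  (true, 475, 3238875) :: (true, 19615, 4031317) :: (true, 266454, 4699974) ::
  (true, 1610255, 5224595) :: (true, 5071397, 5589339) :: (true, 9055835, 5783254) ::
  (true, 9529082, 5800609) :: (true, 5931076, 5641061) :: (true, 2119001, 5309658) ::
  (true, 404313, 4816684) :: (true, 35916, 4177335) :: (true, 1146, 3411255) ::
  (true, 7, 2541933) :: (false, 0, 0) :: (false, 0, 0) ::
  (false, 0, 0) :: (false, 0, 0) :: (false, 2, 2359973) ::
  (false, 479, 3240742) :: (false, 18843, 4021812) :: (false, 247365, 4679467) ::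
  (false, 1456173, 5193775) :: (false, 4486466, 5549191) :: (false, 7854357, 5735033) ::
  (false, 8108741, 5745796) :: (false, 4949116, 5581320) :: (false, 1730566, 5246787) ::
  (false, 321933, 4752558) :: (false, 27684, 4113855) :: (false, 844, 3350288) ::
  (false, 5, 2485258) :: (false, 0, 0) :: (false, 0, 0) ::
  (false, 0, 0) :: (false, 0, 0) :: (true, 2, 2374862) ::
  (true, 490, 3244998) :: (true, 18338, 4015380) :: (true, 232641, 4662605) ::
  (true, 1333893, 5167047) :: (true, 4019720, 5513448) :: (true, 6897738, 5691386) ::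
  (true, 6984722, 5695583) :: (true, 4178956, 5526062) :: (true, 1429571, 5188145) ::
  (true, 259137, 4692282) :: (true, 21554, 4053734) :: (true, 626, 3292095) ::
  r

def dat9_4 (r : Dat) : Dat :=
  (true, 3, 2430699) :: (false, 0, 0) :: (false, 0, 0) ::
  (false, 0, 0) :: (false, 0, 0) :: (false, 2, 2391244) ::
  (false, 507, 3251374) :: (false, 18047, 4011616) :: (false, 221257, 4648865) ::
  (false, 1235416, 5143789) :: (false, 3640543, 5481408) :: (false, 6121463, 5651555) ::
  (false, 6077787, 5649175) :: (false, 3563117, 5474481) :: (false, 1191851, 5132938) ::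
  (false, 210379, 4635099) :: (false, 16909, 3996271) :: (false, 468, 3236051) ::
  (false, 2, 2377722) :: (false, 0, 0) :: (false, 0, 0) ::
  (false, 0, 0) :: (false, 0, 0) :: (true, 3, 2409075) ::
  (true, 529, 3259709) :: (true, 17943, 4010250) :: (true, 212535, 4637880) ::
  (true, 1155327, 5123549) :: (true, 3328083, 5452550) :: (true, 5481506, 5614965) ::
  (true, 5334058, 5605966) :: (true, 3062634, 5425955) :: (true, 1001114, 5080551) ::
  (true, 171940, 4580413) :: (true, 13339, 3940911) :: (true, 350, 3181655) ::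
  (true, 1, 2325894) :: (false, 0, 0) :: (false, 0, 0) ::
  (false, 0, 0) :: (false, 0, 0) :: (false, 3, 2428321) ::
  (false, 558, 3269875) :: (false, 18005, 4011064) :: (false, 205986, 4629349) ::
  (false, 1089697, 5105953) :: (false, 3067272, 5426438) :: (false, 4946328, 5581135) ::
  (false, 4715136, 5565442) :: (false, 2649937, 5379954) :: (false, 845891, 5030449) ::
  (false, 141229, 4527704) :: (false, 10562, 3887160) :: (false, 263, 3128456) ::
  (false, 1, 2274819) :: (false, 0, 0) :: (false, 0, 0) ::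
  (false, 0, 0) :: (false, 0, 0) :: (true, 4, 2449002) ::
  r

def dat9_5 (r : Dat) : Dat :=
  (true, 594, 3281807) :: (true, 18224, 4013913) :: (true, 201273, 4623051) ::
  (true, 1035712, 5090715) :: (true, 2847240, 5402729) :: (true, 4493123, 5549675) ::
  (true, 4193300, 5527176) :: (true, 2305202, 5336029) :: (true, 717996, 4982175) ::
  (true, 116408, 4476517) :: (true, 8379, 3834582) :: (true, 197, 3076045) ::
  (false, 0, 0) :: (false, 0, 0) :: (false, 0, 0) ::
  (false, 0, 0) :: (false, 0, 0) :: (false, 4, 2471176) ::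
  (false, 637, 3295491) :: (false, 18598, 4018714) :: (false, 198177, 4618837) ::
  (false, 991348, 5077622) :: (false, 2660011, 5381155) :: (false, 4105103, 5520269) ::
  (false, 3748237, 5490816) :: (false, 2013946, 5293800) :: (false, 611478, 4935334) ::
  (false, 96150, 4426455) :: (false, 6649, 3782785) :: (false, 147, 3024049) ::
  (false, 0, 0) :: (false, 0, 0) :: (false, 0, 0) ::
  (false, 0, 0) :: (false, 0, 0) :: (true, 5, 2494920) ::
  (true, 690, 3310940) :: (true, 19132, 4025412) :: (true, 196544, 4616589) ::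
  (true, 955063, 5066497) :: (true, 2499454, 5361484) :: (true, 3769414, 5492636) ::
  (true, 3364513, 5456043) :: (true, 1765261, 5252917) :: (true, 521886, 4889553) ::
  (true, 79474, 4377135) :: (true, 5269, 3731387) :: (true, 110, 2972098) ::
  (false, 0, 0) :: (false, 0, 0) :: (false, 0, 0) ::
  (false, 0, 0) :: (false, 0, 0) :: (false, 6, 2520350) ::
  (false, 754, 3328205) :: (false, 19838, 4033995) :: (false, 196283, 4616229) ::
  (false, 925697, 5057198) :: (false, 2360809, 5343516) :: (false, 3476093, 5466524) ::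
  r

def dat9_6 (r : Dat) : Dat :=
  (false, 3030163, 5422554) :: (false, 1550767, 5213039) :: (false, 445838, 4844464) ::
  (false, 65639, 4328167) :: (false, 4162, 3679991) :: (false, 81, 2919795) ::
  (false, 0, 0) :: (false, 0, 0) :: (false, 0, 0) ::
  (false, 0, 0) :: (false, 0, 0) :: (true, 8, 2547641) ::
  (true, 831, 3347400) :: (true, 20735, 4044511) :: (true, 197377, 4617738) ::
  (true, 902461, 5049641) :: (true, 2240497, 5327100) :: (true, 3217485, 5441721) ::
  (true, 2736058, 5390085) :: (true, 1364087, 5173855) :: (true, 380769, 4799715) ::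
  (true, 54089, 4279171) :: (true, 3271, 3628196) :: (true, 59, 2866735) ::
  (false, 0, 0) :: (false, 0, 0) :: (false, 0, 0) ::
  (false, 0, 0) :: (false, 0, 0) :: (false, 9, 2577010) ::
  (false, 926, 3368679) :: (false, 21855, 4057045) :: (false, 199857, 4621131) ::
  (false, 884776, 5043766) :: (false, 2135678, 5312107) :: (false, 2987462, 5418029) ::
  (false, 2474929, 5358375) :: (false, 1200192, 5135044) :: (false, 324685, 4754938) ::
  (false, 44395, 4229743) :: (false, 2551, 3575572) :: (false, 43, 2812472) ::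
  (false, 0, 0) :: (false, 0, 0) :: (false, 0, 0) ::
  (false, 0, 0) :: (false, 0, 0) :: (true, 12, 2608715) ::
  (true, 1042, 3392229) :: (true, 23238, 4071708) :: (true, 203794, 4626436) ::
  (true, 872190, 5039517) :: (true, 2043858, 5298393) :: (true, 2780718, 5395221) ::
  (true, 2240597, 5327114) :: (true, 1054943, 5096227) :: (true, 275973, 4709689) ::
  (true, 36216, 4179383) :: (true, 1970, 3521581) :: (true, 30, 2756442) ::
  r

def dat9_7 (r : Dat) : Dat :=
  (false, 0, 0) :: (false, 0, 0) :: (false, 0, 0) ::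
  (false, 0, 0) :: (false, 0, 0) :: (false, 14, 2643153) ::
  (false, 1188, 3418369) :: (false, 24946, 4088731) :: (false, 209369, 4633787) ::
  (false, 864607, 5036929) :: (false, 1963403, 5285891) :: (false, 2593339, 5373126) ::
  (false, 2028450, 5296035) :: (false, 925215, 5057043) :: (false, 233424, 4663527) ::
  (false, 29297, 4127582) :: (false, 1500, 3465656) :: (false, 21, 2698041) ::
  (false, 0, 0) :: (false, 0, 0) :: (false, 0, 0) ::
  (false, 0, 0) :: (false, 0, 0) :: (true, 19, 2680750) ::
  (true, 1372, 3447436) :: (true, 27060, 4108343) :: (true, 216796, 4643298) ::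
  (true, 861868, 5035989) :: (true, 1892444, 5274458) :: (true, 2421289, 5351473) ::
  (true, 1834041, 5264741) :: (true, 808199, 5016979) :: (true, 195995, 4615830) ::
  (true, 23425, 4073626) :: (true, 1122, 3407011) :: (true, 14, 2636430) ::
  (false, 0, 0) :: (false, 0, 0) :: (false, 0, 0) ::
  (false, 0, 0) :: (false, 0, 0) :: (false, 24, 2722143) ::
  (false, 1609, 3479944) :: (false, 29702, 4130922) :: (false, 226432, 4655192) ::
  (false, 864100, 5036755) :: (false, 1829551, 5263982) :: (false, 2261149, 5329976) ::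
  (false, 1653650, 5232774) :: (false, 701606, 4975412) :: (false, 162866, 4565827) ::
  (false, 18434, 4016614) :: (false, 820, 3344638) :: (false, 9, 2570519) ::
  (false, 0, 0) :: (false, 0, 0) :: (false, 0, 0) ::
  (false, 0, 0) :: (false, 0, 0) :: (true, 32, 2768218) ::
  r

def dat9_8 (r : Dat) : Dat :=
  (true, 1923, 3516631) :: (true, 33060, 4157030) :: (true, 238848, 4669833) ::
  (true, 871776, 5039376) :: (true, 1773667, 5254385) :: (true, 2109976, 5308325) ::
  (true, 1484173, 5199597) :: (true, 603638, 4931589) :: (true, 133412, 4512563) ::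
  (true, 14199, 3955412) :: (true, 580, 3277255) :: (true, 5, 2498915) ::
  (false, 0, 0) :: (false, 0, 0) :: (false, 0, 0) ::
  (false, 0, 0) :: (false, 0, 0) :: (false, 45, 2820099) ::
  (false, 2351, 3558418) :: (false, 37407, 4187343) :: (false, 254795, 4687621) ::
  (false, 885325, 5043950) :: (false, 1723062, 5245446) :: (false, 1963933, 5285975) ::
  (false, 1322075, 5164343) :: (false, 512485, 4884328) :: (false, 107077, 4454570) ::
  (false, 10614, 3888296) :: (false, 392, 3202922) :: (false, 3, 2419514) ::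
  (false, 0, 0) :: (false, 0, 0) :: (false, 0, 0) ::
  (false, 0, 0) :: (false, 0, 0) :: (true, 64, 2879534) ::
  (true, 2957, 3606756) :: (true, 43200, 4222961) :: (true, 275541, 4709255) ::
  (true, 905802, 5050739) :: (true, 1676283, 5236960) :: (true, 1819286, 5262240) ::
  (true, 1164153, 5125843) :: (true, 426734, 4832000) :: (true, 83469, 4389781) ::
  (true, 7606, 3812813) :: (true, 249, 3118860) :: (true, 1, 2329282) ::
  (false, 0, 0) :: (false, 0, 0) :: (false, 0, 0) ::
  (false, 0, 0) :: (false, 0, 0) :: (false, 96, 2949053) ::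
  (false, 3861, 3663732) :: (false, 51212, 4265437) :: (false, 303036, 4735677) ::
  (false, 934474, 5060006) :: (false, 1630689, 5228472) :: (false, 1670632, 5235920) ::
  r

def dat9_9 (r : Dat) : Dat :=
  (false, 1006487, 5082151) :: (false, 344986, 4771932) :: (false, 62288, 4314845) ::
  (false, 5118, 3724998) :: (false, 145, 3020585) :: (false, 0, 0) ::
  (false, 0, 0) :: (false, 0, 0) :: (false, 0, 0) ::
  (false, 0, 0) :: (false, 0, 0) :: (true, 155, 3032742) ::
  (true, 5301, 3732708) :: (true, 62883, 4317258) :: (true, 340623, 4768361) ::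
  (true, 973205, 5072108) :: (true, 1581880, 5219134) :: (true, 1510191, 5204915) ::
  (true, 844337, 5029905) :: (true, 266020, 4699524) :: (true, 43380, 4223995) ::
  (true, 3119, 3618029) :: (true, 72, 2900370) :: (false, 0, 0) ::
  (false, 0, 0) :: (false, 0, 0) :: (false, 0, 0) ::
  (false, 0, 0) :: (false, 2, 2358394) :: (false, 276, 3137681) ::
  (false, 7835, 3819476) :: (false, 81189, 4382636) :: (false, 394447, 4809689) ::
  (false, 1024214, 5087373) :: (false, 1520801, 5207059) :: (false, 1324990, 5165012) ::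
  (false, 671336, 4962521) :: (false, 188918, 4605855) :: (false, 26808, 4106081) ::
  (false, 1600, 3478716) :: (false, 28, 2743260) :: (false, 0, 0) ::
  (false, 0, 0) :: (false, 0, 0) :: (false, 0, 0) ::
  (false, 0, 0) :: (true, 6, 2517471) :: (true, 581, 3277646) ::
  (true, 13013, 3935179) :: (true, 113328, 4469461) :: (true, 476923, 4863709) ::
  (true, 1088062, 5105502) :: (true, 1425024, 5187173) :: (true, 1090092, 5106062) ::
  (true, 478422, 4864607) :: (true, 113681, 4470280) :: (true, 13023, 3935364) ::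
  (true, 578, 3276581) :: (true, 6, 2514579) :: (false, 0, 0) ::
  r

def dat9_10 (r : Dat) : Dat :=
  (false, 0, 0) :: (false, 0, 0) :: (false, 0, 0) ::
  (false, 0, 0) :: (false, 30, 2753567) :: (false, 1651, 3485183) ::
  (false, 26768, 4105722) :: (false, 181612, 4595181) :: (false, 616366, 4937646) ::
  (false, 1148740, 5121826) :: (false, 1225795, 5141424) :: (false, 751025, 4995373) ::
  (false, 255053, 4687900) :: (false, 44161, 4228429) :: (false, 3319, 3631320) ::
  (false, 79, 2915452) :: (false, 0, 0) :: (false, 0, 0) ::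
  (false, 0, 0) :: (false, 0, 0) :: (false, 0, 0) ::
  (true, 3, 2411416) :: (true, 376, 3194701) :: (true, 9831, 3870810) ::
  (true, 92198, 4415538) :: (true, 392781, 4808492) :: (true, 855395, 5033756) ::
  (true, 1000706, 5080429) :: (true, 627857, 4943014) :: (true, 200235, 4621645) ::
  r

def dat9 : Dat :=
  dat9_0 (dat9_1 (dat9_2 (dat9_3 (dat9_4 (dat9_5 (dat9_6 (dat9_7 (dat9_8 (dat9_9 (dat9_10 []))))))))))

def grid9_0_0 (r : List (ℕ × ℕ)) : List (ℕ × ℕ) :=
  (108, 110) :: (218, 116) :: (334, 124) :: (458, 134) :: (592, 144) ::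
  (736, 152) :: (888, 152) :: (1032, 144) :: (1174, 142) :: (1308, 134) ::
  (1426, 118) ::
  r

def grid9_0 : List (ℕ × ℕ) :=
  grid9_0_0 []

theorem seg9_0 : sgc 367179 139759291595 dat9 0 108 1426 grid9_0 = true := by
  decide +kernel

def grid9_1_0 (r : List (ℕ × ℕ)) : List (ℕ × ℕ) :=
  (1544, 118) :: (1652, 108) :: (1756, 108) :: (1864, 108) :: (1972, 112) ::
  (2084, 120) :: (2204, 130) :: (2334, 140) :: (2474, 150) :: (2624, 154) ::
  (2778, 154) ::
  r

def grid9_1 : List (ℕ × ℕ) :=
  grid9_1_0 []

theorem seg9_1 : sgc 367179 139759291595 dat9 1426 118 2778 grid9_1 = true := by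
  decide +kernel

def grid9_2_0 (r : List (ℕ × ℕ)) : List (ℕ × ℕ) :=
  (2920, 142) :: (3058, 138) :: (3190, 132) :: (3312, 122) :: (3424, 112) ::
  (3530, 106) :: (3632, 108) :: (3740, 112) :: (3852, 118) :: (3970, 126) ::
  (4096, 138) ::
  r

def grid9_2 : List (ℕ × ℕ) :=
  grid9_2_0 []

theorem seg9_2 : sgc 367179 139759291595 dat9 2778 154 4096 grid9_2 = true := by
  decide +kernel

def grid9_3_0 (r : List (ℕ × ℕ)) : List (ℕ × ℕ) :=
  (4234, 148) :: (4382, 154) :: (4536, 154) :: (4680, 144) :: (4820, 140) ::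
  (4954, 134) :: (5078, 124) :: (5192, 114) :: (5298, 106) :: (5400, 108) ::
  (5508, 110) ::
  r

def grid9_3 : List (ℕ × ℕ) :=
  grid9_3_0 []

theorem seg9_3 : sgc 367179 139759291595 dat9 4096 138 5508 grid9_3 = true := by
  decide +kernel

def grid9_4_0 (r : List (ℕ × ℕ)) : List (ℕ × ℕ) :=
  (5618, 116) :: (5734, 124) :: (5858, 134) :: (5992, 146) :: (6138, 154) ::
  (6292, 154) :: (6438, 146) :: (6582, 144) :: (6720, 138) :: (6848, 128) ::
  (6966, 118) ::
  r

def grid9_4 : List (ℕ × ℕ) :=
  grid9_4_0 []

theorem seg9_4 : sgc 367179 139759291595 dat9 5508 110 6966 grid9_4 = true := by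
  decide +kernel

def grid9_5_0 (r : List (ℕ × ℕ)) : List (ℕ × ℕ) :=
  (7074, 108) :: (7178, 108) :: (7286, 110) :: (7396, 114) :: (7510, 122) ::
  (7632, 134) :: (7766, 144) :: (7910, 154) :: (8064, 154) :: (8212, 148) ::
  (8358, 146) ::
  r

def grid9_5 : List (ℕ × ℕ) :=
  grid9_5_0 []

theorem seg9_5 : sgc 367179 139759291595 dat9 6966 118 8358 grid9_5 = true := by
  decide +kernel

def grid9_6_0 (r : List (ℕ × ℕ)) : List (ℕ × ℕ) :=
  (8498, 140) :: (8620, 122) :: (8742, 122) :: (8854, 112) :: (8960, 108) ::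
  (9068, 108) :: (9176, 112) :: (9288, 120) :: (9408, 132) :: (9540, 144) ::
  (9684, 154) ::
  r

def grid9_6 : List (ℕ × ℕ) :=
  grid9_6_0 []

theorem seg9_6 : sgc 367179 139759291595 dat9 8358 146 9684 grid9_6 = true := by
  decide +kernel

def grid9_7_0 (r : List (ℕ × ℕ)) : List (ℕ × ℕ) :=
  (9838, 160) :: (9998, 160) :: (10148, 150) :: (10292, 144) :: (10424, 132) ::
  (10538, 114) :: (10650, 112) :: (10756, 108) :: (10864, 108) :: (10972, 112) ::
  (11084, 120) ::
  r

def grid9_7 : List (ℕ × ℕ) :=
  grid9_7_0 []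

theorem seg9_7 : sgc 367179 139759291595 dat9 9684 154 11084 grid9_7 = true := by
  decide +kernel

def grid9_8_0 (r : List (ℕ × ℕ)) : List (ℕ × ℕ) :=
  (11204, 132) :: (11336, 144) :: (11480, 156) :: (11636, 164) :: (11800, 164) ::
  (11952, 152) :: (12098, 146) :: (12224, 126) :: (12340, 116) :: (12454, 114) ::
  (12560, 106) ::
  r

def grid9_8 : List (ℕ × ℕ) :=
  grid9_8_0 []

theorem seg9_8 : sgc 367179 139759291595 dat9 11084 120 12560 grid9_8 = true := by
  decide +kernel

def grid9_9_0 (r : List (ℕ × ℕ)) : List (ℕ × ℕ) :=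
  (12662, 108) :: (12770, 112) :: (12882, 122) :: (13004, 134) :: (13138, 146) ::
  (13284, 160) :: (13444, 168) :: (13612, 168) :: (13768, 156) :: (13916, 148) ::
  (14042, 126) ::
  r

def grid9_9 : List (ℕ × ℕ) :=
  grid9_9_0 []

theorem seg9_9 : sgc 367179 139759291595 dat9 12560 106 14042 grid9_9 = true := by
  decide +kernel

def grid9_10_0 (r : List (ℕ × ℕ)) : List (ℕ × ℕ) :=
  (14158, 116) :: (14272, 114) :: (14378, 108) :: (14486, 108) :: (14594, 114) ::
  (14708, 124) :: (14832, 138) :: (14970, 152) :: (15122, 166) :: (15288, 166) ::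
  (15448, 160) ::
  r

def grid9_10 : List (ℕ × ℕ) :=
  grid9_10_0 []

theorem seg9_10 : sgc 367179 139759291595 dat9 14042 126 15448 grid9_10 = true := by
  decide +kernel

def grid9_11_0 (r : List (ℕ × ℕ)) : List (ℕ × ℕ) :=
  (15606, 158) :: (15746, 140) :: (15874, 128) :: (15990, 116) :: (16102, 112) ::
  (16206, 108) :: (16314, 110) :: (16424, 116) :: (16540, 128) :: (16668, 144) ::
  (16812, 160) ::
  r

def grid9_11 : List (ℕ × ℕ) :=
  grid9_11_0 []

theorem seg9_11 : sgc 367179 139759291595 dat9 15448 160 16812 grid9_11 = true := by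
  decide +kernel

def grid9_12_0 (r : List (ℕ × ℕ)) : List (ℕ × ℕ) :=
  (16972, 174) :: (17146, 174) :: (17312, 166) :: (17474, 162) :: (17612, 138) ::
  (17738, 126) :: (17850, 112) :: (17958, 108) :: (18060, 108) :: (18168, 112) ::
  (18280, 124) ::
  r

def grid9_12 : List (ℕ × ℕ) :=
  grid9_12_0 []

theorem seg9_12 : sgc 367179 139759291595 dat9 16812 160 18280 grid9_12 = true := by
  decide +kernel

def grid9_13_0 (r : List (ℕ × ℕ)) : List (ℕ × ℕ) :=
  (18404, 140) :: (18544, 158) :: (18702, 176) :: (18878, 186) :: (19064, 186) ::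
  (19236, 172) :: (19384, 148) :: (19518, 134) :: (19636, 118) :: (19748, 112) ::
  (19852, 108) ::
  r

def grid9_13 : List (ℕ × ℕ) :=
  grid9_13_0 []

theorem seg9_13 : sgc 367179 139759291595 dat9 18280 124 19852 grid9_13 = true := by
  decide +kernel

def grid9_14_0 (r : List (ℕ × ℕ)) : List (ℕ × ℕ) :=
  (19960, 112) :: (20072, 124) :: (20196, 140) :: (20336, 162) :: (20498, 184) ::
  (20682, 196) :: (20878, 196) :: (21060, 182) :: (21216, 156) :: (21352, 136) ::
  (21472, 120) ::
  r

def grid9_14 : List (ℕ × ℕ) :=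
  grid9_14_0 []

theorem seg9_14 : sgc 367179 139759291595 dat9 19852 108 21472 grid9_14 = true := by
  decide +kernel

def grid9_15_0 (r : List (ℕ × ℕ)) : List (ℕ × ℕ) :=
  (21576, 104) :: (21680, 108) :: (21788, 114) :: (21902, 130) :: (22032, 152) ::
  (22184, 178) :: (22362, 202) :: (22564, 202) :: (22760, 196) :: (22936, 176) ::
  (23094, 158) ::
  r

def grid9_15 : List (ℕ × ℕ) :=
  grid9_15_0 []

theorem seg9_15 : sgc 367179 139759291595 dat9 21472 120 23094 grid9_15 = true := by
  decide +kernel

def grid9_16_0 (r : List (ℕ × ℕ)) : List (ℕ × ℕ) :=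
  (23228, 134) :: (23342, 114) :: (23448, 108) :: (23556, 112) :: (23668, 126) ::
  (23794, 150) :: (23944, 182) :: (24126, 214) :: (24340, 214) :: (24554, 214) ::
  (24748, 194) ::
  r

def grid9_16 : List (ℕ × ℕ) :=
  grid9_16_0 []

theorem seg9_16 : sgc 367179 139759291595 dat9 23094 158 24748 grid9_16 = true := by
  decide +kernel

def grid9_17_0 (r : List (ℕ × ℕ)) : List (ℕ × ℕ) :=
  (24906, 158) :: (25040, 134) :: (25150, 110) :: (25258, 108) :: (25366, 112) ::
  (25478, 132) :: (25610, 164) :: (25774, 206) :: (25980, 246) :: (26226, 246) ::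
  (26452, 226) ::
  r

def grid9_17 : List (ℕ × ℕ) :=
  grid9_17_0 []

theorem seg9_17 : sgc 367179 139759291595 dat9 24748 194 26452 grid9_17 = true := by
  decide +kernel

def grid9_18_0 (r : List (ℕ × ℕ)) : List (ℕ × ℕ) :=
  (26648, 196) :: (26798, 150) :: (26928, 130) :: (27038, 110) :: (27148, 112) ::
  (27260, 134) :: (27394, 176) :: (27570, 234) :: (27804, 292) :: (28096, 292) ::
  (28364, 268) ::
  r

def grid9_18 : List (ℕ × ℕ) :=
  grid9_18_0 []

theorem seg9_18 : sgc 367179 139759291595 dat9 26452 226 28364 grid9_18 = true := by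
  decide +kernel

def grid9_19_0 (r : List (ℕ × ℕ)) : List (ℕ × ℕ) :=
  (28562, 198) :: (28700, 138) :: (28810, 110) :: (28918, 110) :: (29028, 134) ::
  (29162, 192) :: (29354, 284) :: (29638, 388) :: (30026, 388) :: (30298, 272) ::
  (30488, 190) ::
  r

def grid9_19 : List (ℕ × ℕ) :=
  grid9_19_0 []

theorem seg9_19 : sgc 367179 139759291595 dat9 28364 268 30488 grid9_19 = true := by
  decide +kernel

def grid9_20_0 (r : List (ℕ × ℕ)) : List (ℕ × ℕ) :=
  (30608, 120) :: (30722, 116) :: (30838, 186) :: (31024, 350) :: (31374, 596) ::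
  (31970, 596) :: (32112, 142) :: (32124, 12) ::
  r

def grid9_20 : List (ℕ × ℕ) :=
  grid9_20_0 []

theorem seg9_20 : sgc 367179 139759291595 dat9 30488 190 32124 grid9_20 = true := by
  decide +kernel

theorem chk9 : chk 8 367179 139759291595 10000000 100000000000 2108 10000 32124 dat9 = true := by
  decide +kernel

theorem both9 : Both 9 (2108 / 10000) := by
  have h := chk_sound (by norm_num) (by norm_num) (by norm_num) (by norm_num) (by norm_num) chk9
    ((sgc_sound seg9_0).trans
    ((sgc_sound seg9_1).trans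
    ((sgc_sound seg9_2).trans
    ((sgc_sound seg9_3).trans
    ((sgc_sound seg9_4).trans
    ((sgc_sound seg9_5).trans
    ((sgc_sound seg9_6).trans
    ((sgc_sound seg9_7).trans
    ((sgc_sound seg9_8).trans
    ((sgc_sound seg9_9).trans
    ((sgc_sound seg9_10).trans
    ((sgc_sound seg9_11).trans
    ((sgc_sound seg9_12).trans
    ((sgc_sound seg9_13).trans
    ((sgc_sound seg9_14).trans
    ((sgc_sound seg9_15).trans
    ((sgc_sound seg9_16).trans
    ((sgc_sound seg9_17).trans
    ((sgc_sound seg9_18).trans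
    ((sgc_sound seg9_19).trans
    (sgc_sound seg9_20)))))))))))))))))))))
  exact_mod_cast h

end Pool.Agent.P.MP_62e163_co
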