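import Pool.Agent.P.MP_62e163_co.Main

namespace Pool.Agent.P.MP_62e163_co

open Finset Real Filter

lemma sum_Icc_symm {β : Type} [AddCommMonoid β] (f : ℤ → β) (J : ℕ) :
    ∑ n ∈ Icc (-(J : ℤ)) J, f n =
      f 0 + ∑ j ∈ range J, (f ((j : ℤ) + 1) + f (-((j : ℤ) + 1))) := by
  induction J with
  | zero => simp
  | succ J ih =>
    have : Icc (-((J + 1 : ℕ) : ℤ)) (J + 1 : ℕ) =
        insert ((J : ℤ) + 1) (insert (-((J : ℤ) + 1)) (Icc (-(J : ℤ)) J)) := by
      ext x; simp only [Finset.mem_Icc, Finset.mem_insert]; push_cast; omega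
    rw [this, Finset.sum_insert, Finset.sum_insert, ih, Finset.sum_range_succ]
    · abel
    · simp only [Finset.mem_Icc]; omega
    · simp only [Finset.mem_Icc, Finset.mem_insert]; omega

lemma sum_cos_pow (m r : ℕ) (hr : r < 2 * m + 1) :
    ∑ i ∈ Icc (-(m : ℤ)) m, cos (π * i / (2 * m + 1 : ℕ)) ^ (2 * r) =
      (2 * m + 1 : ℕ) * ((r.centralBinom : ℝ) / 4 ^ r) := by
  set L := 2 * m + 1 with hL
  have hL0 : (L : ℝ) ≠ 0 := by positivity
  have h1 : ∀ i : ℤ, ((2 * cos (π * i / L) : ℝ) : ℂ) = ec (2 * L) i + ec (2 * L) (-i) := by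
    intro i
    rw [Complex.ofReal_mul, Complex.ofReal_cos, Complex.ofReal_ofNat, Complex.two_cos, ec, ec]
    have : (L : ℂ) ≠ 0 := by exact_mod_cast hL0
    congr 2 <;> (push_cast; field_simp)
  have h2 : ∀ i : ℤ, (((2 * cos (π * i / L)) ^ (2 * r) : ℝ) : ℂ) =
      ∑ k ∈ range (2 * r + 1), ec L (((k : ℤ) - r) * i) * ((2 * r).choose k : ℂ) := by
    intro i
    rw [Complex.ofReal_pow, h1, add_pow]
    refine Finset.sum_congr rfl fun k hk => ?_
    have hk' : k ≤ 2 * r := by have := Finset.mem_range.1 hk; omega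
    rw [← ec_nat_mul, ← ec_nat_mul, ← ec_add]
    congr 1
    unfold ec
    congr 3
    rw [Nat.cast_sub hk']
    push_cast; field_simp; ring
  have h3 : Icc (-(m : ℤ)) m = (range L).image fun t : ℕ => (t : ℤ) + (-(m : ℤ)) := by
    ext x
    simp only [Finset.mem_Icc, Finset.mem_image, Finset.mem_range]
    constructor
    · intro h; exact ⟨(x + m).toNat, by omega, by omega⟩
    · rintro ⟨t, ht, rfl⟩; omega
  have h4 : ((∑ i ∈ Icc (-(m : ℤ)) m, (2 * cos (π * i / L)) ^ (2 * r) : ℝ) : ℂ) =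
      ((L * r.centralBinom : ℝ) : ℂ) := by
    rw [Complex.ofReal_sum]
    simp_rw [h2]
    rw [Finset.sum_comm, Finset.sum_eq_single_of_mem r (Finset.mem_range.2 (by omega))]
    · simp only [sub_self, zero_mul, ec_zero, one_mul, Finset.sum_const, Int.card_Icc,
        nsmul_eq_mul, Nat.centralBinom_eq_two_mul_choose]
      have : ((m : ℤ) + 1 - -(m : ℤ)).toNat = L := by omega
      rw [this]; push_cast; rfl
    · intro k hk hne
      have := Finset.mem_range.1 hk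
      rw [← Finset.sum_mul, h3, Finset.sum_image (fun x _ y _ hxy => by simpa using hxy),
        ec_geom (by omega) (by rw [abs_lt]; omega), zero_mul]
  have h5 : ∑ i ∈ Icc (-(m : ℤ)) m, (2 * cos (π * i / L)) ^ (2 * r) = L * r.centralBinom := by
    exact_mod_cast h4
  simp_rw [mul_pow] at h5
  rw [← Finset.mul_sum, pow_mul] at h5
  have h6 : ((2 : ℝ) ^ 2) ^ r = 4 ^ r := by norm_num
  rw [h6] at h5
  field_simp
  linarith

lemma sin_mul_ge {s y : ℝ} (hs0 : 0 ≤ s) (hs1 : s ≤ 1) (hy0 : 0 ≤ y) (hy : y ≤ π) :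
    s * sin y ≤ sin (s * y) := by
  have h := strictConcaveOn_sin_Icc.concaveOn.2 (show (0 : ℝ) ∈ Set.Icc 0 π from ⟨le_rfl, pi_pos.le⟩)
    (show y ∈ Set.Icc 0 π from ⟨hy0, hy⟩) (show 0 ≤ 1 - s by linarith) hs0 (by ring)
  simpa using h

lemma cos_gain {t y : ℝ} (ht : |t| ≤ 1 / 2) (hy : |y| ≤ π) :
    cos y + 2 * (1 / 4 - t ^ 2) * sin y ^ 2 ≤ cos (2 * t * y) := by
  wlog h0 : 0 ≤ y generalizing y
  · have := this (y := -y) (by rwa [abs_neg]) (by linarith)
    simpa using this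
  rw [abs_of_nonneg h0] at hy
  obtain ⟨t1, t2⟩ := abs_le.1 ht
  have a1 := sin_mul_ge (s := 1 / 2 + t) (by linarith) (by linarith) h0 hy
  have a2 := sin_mul_ge (s := 1 / 2 - t) (by linarith) (by linarith) h0 hy
  have hs : 0 ≤ sin y := sin_nonneg_of_nonneg_of_le_pi h0 hy
  have e : cos (2 * t * y) - cos y = 2 * (sin ((1 / 2 + t) * y) * sin ((1 / 2 - t) * y)) := by
    rw [Real.cos_sub_cos, show (2 * t * y - y) / 2 = -((1 / 2 - t) * y) by ring, sin_neg,
      show (2 * t * y + y) / 2 = (1 / 2 + t) * y by ring]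
    ring
  have := mul_le_mul a1 a2 (mul_nonneg (by linarith) hs)
    ((mul_nonneg (by linarith) hs).trans a1)
  nlinarith

lemma angle_le (m : ℕ) {i : ℤ} (hi : i ∈ Icc (-(m : ℤ)) m) :
    |π * i / (2 * m + 1 : ℕ)| ≤ π / 2 := by
  have := Finset.mem_Icc.1 hi
  have b1 : -(m : ℝ) ≤ i := by exact_mod_cast this.1
  have b2 : (i : ℝ) ≤ m := by exact_mod_cast this.2
  have hL : (0 : ℝ) < (2 * m + 1 : ℕ) := by positivity
  have := pi_pos
  rw [abs_le, le_div_iff₀ hL, div_le_iff₀ hL]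
  push_cast
  constructor <;> nlinarith

lemma cos_angle_nonneg (m : ℕ) {i : ℤ} (hi : i ∈ Icc (-(m : ℤ)) m) :
    0 ≤ cos (π * i / (2 * m + 1 : ℕ)) :=
  cos_nonneg_of_mem_Icc (by simpa [Set.mem_Icc] using abs_le.1 (angle_le m hi))

/-- the main cluster -/
lemma Y0_ge (q : ℕ) {t : ℝ} (ht : |t| ≤ 1 / 2) :
    (2 * (q + 1) + 1 : ℕ) * (((q + 1).centralBinom : ℝ) / 4 ^ (q + 1)) *
        (1 + (1 / 4 - t ^ 2) / (q + 2)) ≤
      ∑ i ∈ Icc (-((q + 1 : ℕ) : ℤ)) (q + 1 : ℕ), cos (π * i / (2 * (q + 1) + 1 : ℕ)) ^ (2 * q + 1) *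
        cos (2 * π * i * t / (2 * (q + 1) + 1 : ℕ)) := by
  have h1 := sum_cos_pow (q + 1) (q + 1) (by omega)
  have h2 := sum_cos_pow (q + 1) (q + 2) (by omega)
  have h3 : ((q + 2 : ℕ) : ℝ) * (q + 2).centralBinom = 2 * (2 * (q + 1 : ℕ) + 1) *
      (q + 1).centralBinom := by exact_mod_cast Nat.succ_mul_centralBinom_succ (q + 1)
  have hv : 0 ≤ 1 / 4 - t ^ 2 := by
    have := abs_le.1 ht
    nlinarith
  calc _ = ∑ i ∈ Icc (-((q + 1 : ℕ) : ℤ)) (q + 1 : ℕ),
        (cos (π * i / (2 * (q + 1) + 1 : ℕ)) ^ (2 * (q + 1)) + 2 * (1 / 4 - t ^ 2) *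
          (cos (π * i / (2 * (q + 1) + 1 : ℕ)) ^ (2 * (q + 1)) -
            cos (π * i / (2 * (q + 1) + 1 : ℕ)) ^ (2 * (q + 2)))) := by
        rw [Finset.sum_add_distrib, ← Finset.mul_sum, Finset.sum_sub_distrib, h1, h2]
        have h4 : ((q + 2).centralBinom : ℝ) = 2 * (2 * (q + 1 : ℕ) + 1) *
            (q + 1).centralBinom / (q + 2) := by
          rw [← h3]; push_cast; field_simp
        rw [h4]; push_cast; field_simp; ring
    _ ≤ _ := by
        refine Finset.sum_le_sum fun i hi => ?_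
        have hc := cos_angle_nonneg (q + 1) hi
        have ha := angle_le (q + 1) hi
        have hg := cos_gain ht (ha.trans (by linarith [pi_pos]))
        rw [show 2 * π * i * t / (2 * (q + 1) + 1 : ℕ) = 2 * t * (π * i / (2 * (q + 1) + 1 : ℕ))
          by ring]
        generalize π * i / (2 * (q + 1) + 1 : ℕ) = y at *
        refine le_trans ?_ (mul_le_mul_of_nonneg_left hg (pow_nonneg hc _))
        have hc1 : cos y ≤ 1 := cos_le_one y
        have hs : sin y ^ 2 = 1 - cos y ^ 2 := sin_sq y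
        have hw : 0 ≤ cos y ^ (2 * q + 1) := pow_nonneg hc _
        have e1 : cos y ^ (2 * (q + 1)) = cos y ^ (2 * q + 1) * cos y := by ring
        have e2 : cos y ^ (2 * (q + 2)) = cos y ^ (2 * q + 1) * cos y * cos y ^ 2 := by ring
        rw [e1, e2]
        have hs0 : 0 ≤ sin y ^ 2 := sq_nonneg _
        have : 0 ≤ (1 / 4 - t ^ 2) * cos y ^ (2 * q + 1) * (1 - cos y) * sin y ^ 2 :=
          mul_nonneg (mul_nonneg (mul_nonneg hv hw) (by linarith)) hs0
        rw [hs] at this ⊢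
        nlinarith

lemma bern_ge (K : ℕ) {s : ℝ} (hs : s ∈ Set.Icc (0 : ℝ) 1) :
    π ^ 2 * (s ^ 2 - s + 1 / 6) - (π ^ 2 / 6 - ∑ n ∈ range K, 1 / (n : ℝ) ^ 2) ≤
      ∑ n ∈ range K, 1 / (n : ℝ) ^ 2 * cos (2 * π * n * s) := by
  have h1 := hasSum_one_div_nat_pow_mul_cos (k := 1) one_ne_zero hs
  have h2 : (Polynomial.map (algebraMap ℚ ℝ) (Polynomial.bernoulli (2 * 1))).eval s =
      s ^ 2 - s + 6⁻¹ := bernoulliFun_two s
  rw [h2] at h1
  have h3 := sum_le_hasSum (range K) (fun n _ => ?_) (hasSum_zeta_two.sub h1)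
  · rw [Finset.sum_sub_distrib] at h3
    norm_num [Nat.factorial] at h3 ⊢
    nlinarith
  · have : 0 ≤ 1 / (n : ℝ) ^ 2 := by positivity
    have := cos_le_one (2 * π * n * s)
    simp only [mul_one]
    nlinarith

end Pool.Agent.P.MP_62e163_co
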